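import Pool.Agent.Lib.MP_fce888_co.S.Defs

set_option autoImplicit false
set_option linter.unusedSectionVars false

/-!
# MP_fce888_co, section S: counting path lists in a cubic graph
-/

namespace Pool.Agent.Lib.MP_fce888_co.S

open Finset Pool.Agent.Lib.MP_fce888_co
open scoped Classical

variable {V : Type} [Fintype V]

theorem mem_lists {k : ℕ} {l : List V} : l ∈ lists V k ↔ l.length = k := by
  unfold lists
  simp only [mem_image, mem_univ, true_and]
  constructor
  · rintro ⟨f, rfl⟩
    simp
  · rintro rfl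
    exact ⟨l.get, List.ofFn_get l⟩

theorem mem_paths {G : SimpleGraph V} {t : ℕ} {l : List V} :
    l ∈ paths G t ↔ l.length = t + 1 ∧ IsPL G l := by
  unfold paths
  rw [mem_filter, mem_lists]

theorem isPL_reverse {G : SimpleGraph V} {l : List V} (h : IsPL G l) : IsPL G l.reverse := by
  refine ⟨by simpa using h.1, List.nodup_reverse.2 h.2.1, ?_⟩
  rw [List.isChain_reverse]
  exact h.2.2.imp fun a b hab => hab.symm

theorem isPL_take {G : SimpleGraph V} {l : List V} (h : IsPL G l) (t : ℕ) :
    IsPL G (l.take (t + 1)) := by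
  refine ⟨?_, h.2.1.sublist (List.take_sublist _ _), h.2.2.take _⟩
  obtain ⟨a, l', rfl⟩ := List.exists_cons_of_ne_nil h.1
  simp

theorem isPL_drop {G : SimpleGraph V} {l : List V} (h : IsPL G l) {t : ℕ} (ht : t < l.length) :
    IsPL G (l.drop t) := by
  refine ⟨?_, h.2.1.sublist (List.drop_sublist _ _), h.2.2.drop _⟩
  intro h0
  have := congrArg List.length h0
  simp at this
  omega

/-- the paths of length `t` from `v` -/
noncomputable def pf (G : SimpleGraph V) (t : ℕ) (v : V) : Finset (List V) :=
  (paths G t).filter fun l => l.head? = some v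

theorem mem_pf {G : SimpleGraph V} {t : ℕ} {v : V} {l : List V} :
    l ∈ pf G t v ↔ (l.length = t + 1 ∧ IsPL G l) ∧ l.head? = some v := by
  unfold pf
  rw [mem_filter, mem_paths]

theorem pf_zero_card (G : SimpleGraph V) (v : V) : (pf G 0 v).card ≤ 1 := by
  rw [card_le_one]
  intro a ha b hb
  rw [mem_pf] at ha hb
  obtain ⟨⟨ha1, -⟩, ha2⟩ := ha
  obtain ⟨⟨hb1, -⟩, hb2⟩ := hb
  rw [List.length_eq_one_iff] at ha1 hb1
  obtain ⟨x, rfl⟩ := ha1
  obtain ⟨y, rfl⟩ := hb1
  simp at ha2 hb2
  rw [ha2, hb2]

theorem nb_card {G : SimpleGraph V} {v : V} (h : (G.neighborSet v).ncard = 3) :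
    (univ.filter fun w => G.Adj v w).card = 3 := by
  rw [← h, ← Set.ncard_coe_finset]
  congr 1
  ext w
  simp

theorem pf_cons {G : SimpleGraph V} {t : ℕ} {v : V} {l : List V} (h : l ∈ pf G (t + 1) v) :
    ∃ w l', l = v :: l' ∧ G.Adj v w ∧ l' ∈ pf G t w ∧ v ∉ l' := by
  rw [mem_pf] at h
  obtain ⟨⟨h1, h2⟩, h3⟩ := h
  match l, h1, h2, h3 with
  | [], h1, _, _ => simp at h1
  | [a], h1, _, _ => simp at h1
  | a :: w :: l'', h1, h2, h3 =>
    simp at h3
    subst h3
    refine ⟨w, w :: l'', rfl, ?_, ?_, ?_⟩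
    · have := h2.2.2
      rw [List.isChain_cons_cons] at this
      exact this.1
    · rw [mem_pf]
      refine ⟨⟨by simpa using h1, by simp, ?_, ?_⟩, by simp⟩
      · exact (List.nodup_cons.1 h2.2.1).2
      · have := h2.2.2
        rw [List.isChain_cons_cons] at this
        exact this.2
    · exact (List.nodup_cons.1 h2.2.1).1

theorem pf_avoid_card {G : SimpleGraph V} (hcub : ∀ v, (G.neighborSet v).ncard = 3) :
    ∀ (t : ℕ) (u v : V), G.Adj v u → ((pf G t v).filter fun l => u ∉ l).card ≤ 2 ^ t := by
  intro t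
  induction t with
  | zero =>
    intro u v _
    exact (card_filter_le _ _).trans (by simpa using pf_zero_card G v)
  | succ t ih =>
    intro u v huv
    have hsub : ((pf G (t + 1) v).filter fun l => u ∉ l) ⊆
        ((univ.filter fun w => G.Adj v w).erase u).biUnion fun w =>
          ((pf G t w).filter fun l => v ∉ l).image (List.cons v) := by
      intro l hl
      rw [mem_filter] at hl
      obtain ⟨w, l', rfl, hvw, hl', hv⟩ := pf_cons hl.1
      rw [mem_biUnion]
      refine ⟨w, ?_, ?_⟩
      · rw [mem_erase]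
        refine ⟨?_, by simpa using hvw⟩
        rintro rfl
        apply hl.2
        apply List.mem_cons_of_mem
        exact List.mem_of_mem_head? (by rw [(mem_pf.1 hl').2]; rfl)
      · exact mem_image_of_mem _ (mem_filter.2 ⟨hl', hv⟩)
    refine (card_le_card hsub).trans (card_biUnion_le.trans ?_)
    calc ∑ w ∈ (univ.filter fun w => G.Adj v w).erase u,
          (((pf G t w).filter fun l => v ∉ l).image (List.cons v)).card
        ≤ ∑ w ∈ (univ.filter fun w => G.Adj v w).erase u, 2 ^ t := by
          refine sum_le_sum fun w hw => card_image_le.trans (ih v w ?_)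
          have := mem_of_mem_erase hw
          simpa using (mem_filter.1 this).2.symm
      _ = 2 ^ (t + 1) := by
          rw [sum_const, card_erase_of_mem (by simpa using huv), nb_card (hcub v)]
          simp [pow_succ, mul_comm]

/-- at most `2^{t+1}` paths of length `t` from `v` -/
theorem pf_card {G : SimpleGraph V} (hcub : ∀ v, (G.neighborSet v).ncard = 3) (t : ℕ) (v : V) :
    (pf G t v).card ≤ 2 ^ (t + 1) := by
  cases t with
  | zero => exact (pf_zero_card G v).trans (by norm_num)
  | succ t =>
    have hsub : pf G (t + 1) v ⊆ (univ.filter fun w => G.Adj v w).biUnion fun w =>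
          ((pf G t w).filter fun l => v ∉ l).image (List.cons v) := by
      intro l hl
      obtain ⟨w, l', rfl, hvw, hl', hv⟩ := pf_cons hl
      rw [mem_biUnion]
      exact ⟨w, by simpa using hvw, mem_image_of_mem _ (mem_filter.2 ⟨hl', hv⟩)⟩
    refine (card_le_card hsub).trans (card_biUnion_le.trans ?_)
    calc ∑ w ∈ (univ.filter fun w => G.Adj v w),
          (((pf G t w).filter fun l => v ∉ l).image (List.cons v)).card
        ≤ ∑ w ∈ (univ.filter fun w => G.Adj v w), 2 ^ t := by
          refine sum_le_sum fun w hw => card_image_le.trans (pf_avoid_card hcub t v w ?_)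
          simpa using (mem_filter.1 hw).2.symm
      _ = 3 * 2 ^ t := by rw [sum_const, nb_card (hcub v)]; simp
      _ ≤ 2 ^ (t + 1 + 1) := by rw [pow_succ, pow_succ]; omega

theorem take_getLast? {l : List V} {t : ℕ} (h : t < l.length) :
    (l.take (t + 1)).getLast? = l[t]? := by
  rw [List.getLast?_take]
  simp [h]

/-- the initial piece, reversed -/
theorem take_mem_pf {G : SimpleGraph V} {l : List V} {t L : ℕ} (hl : l ∈ paths G L) (ht : t ≤ L)
    {v : V} (hv : l[t]? = some v) : (l.take (t + 1)).reverse ∈ pf G t v := by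
  rw [mem_paths] at hl
  rw [mem_pf]
  refine ⟨⟨?_, isPL_reverse (isPL_take hl.2 t)⟩, ?_⟩
  · rw [List.length_reverse, List.length_take]; omega
  · rw [List.head?_reverse, take_getLast? (by omega), hv]

/-- the final piece -/
theorem drop_mem_pf {G : SimpleGraph V} {l : List V} {t L : ℕ} (hl : l ∈ paths G L) (ht : t ≤ L)
    {v : V} (hv : l[t]? = some v) : l.drop t ∈ pf G (L - t) v := by
  rw [mem_paths] at hl
  rw [mem_pf]
  refine ⟨⟨?_, isPL_drop hl.2 (by omega)⟩, ?_⟩
  · rw [List.length_drop]; omega
  · rw [List.head?_drop, hv]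

theorem take_drop_inj {l l' : List V} {t : ℕ} (h1 : l.take (t + 1) = l'.take (t + 1))
    (h2 : l.drop t = l'.drop t) : l = l' := by
  have h1' : l.take t = l'.take t := by
    have := congrArg (List.take t) h1
    simpa [List.take_take] using this
  rw [← List.take_append_drop t l, ← List.take_append_drop t l', h1', h2]

/-- the number of paths of length `L` through `v` at the position `t` -/
theorem through_card {G : SimpleGraph V} (hcub : ∀ v, (G.neighborSet v).ncard = 3) {t L : ℕ}
    (ht : t ≤ L) (v : V) : ((paths G L).filter fun l => l[t]? = some v).card ≤ 2 ^ (L + 2) := by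
  have h : ((paths G L).filter fun l => l[t]? = some v).card ≤ (pf G t v ×ˢ pf G (L - t) v).card := by
    refine card_le_card_of_injOn (fun l => ((l.take (t + 1)).reverse, l.drop t)) ?_ ?_
    · intro l hl
      rw [mem_coe, mem_filter] at hl
      rw [mem_coe, mem_product]
      exact ⟨take_mem_pf hl.1 ht hl.2, drop_mem_pf hl.1 ht hl.2⟩
    · intro l _ l' _ hll
      simp only [Prod.mk.injEq, List.reverse_inj] at hll
      exact take_drop_inj hll.1 hll.2
  refine h.trans ?_
  rw [card_product]
  calc (pf G t v).card * (pf G (L - t) v).card ≤ 2 ^ (t + 1) * 2 ^ (L - t + 1) :=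
        Nat.mul_le_mul (pf_card hcub t v) (pf_card hcub (L - t) v)
    _ = 2 ^ (L + 2) := by rw [← pow_add]; congr 1; omega

/-- the paths meeting a set of vertices -/
theorem meet_card {G : SimpleGraph V} (hcub : ∀ v, (G.neighborSet v).ncard = 3) (L : ℕ)
    (B : Finset V) : ((paths G L).filter fun l => ∃ v ∈ l, v ∈ B).card ≤
      B.card * ((L + 1) * 2 ^ (L + 2)) := by
  have hsub : ((paths G L).filter fun l => ∃ v ∈ l, v ∈ B) ⊆
      B.biUnion fun v => (range (L + 1)).biUnion fun t =>
        (paths G L).filter fun l => l[t]? = some v := by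
    intro l hl
    rw [mem_filter] at hl
    obtain ⟨hl, v, hv, hB⟩ := hl
    rw [mem_biUnion]
    refine ⟨v, hB, ?_⟩
    obtain ⟨t, ht, htv⟩ := List.getElem_of_mem hv
    rw [mem_biUnion]
    refine ⟨t, ?_, ?_⟩
    · rw [mem_paths] at hl
      rw [mem_range]; omega
    · rw [mem_filter]
      exact ⟨hl, by rw [List.getElem?_eq_getElem ht, htv]⟩
  refine (card_le_card hsub).trans (card_biUnion_le.trans ?_)
  rw [← smul_eq_mul, ← sum_const]
  refine sum_le_sum fun v _ => card_biUnion_le.trans ?_
  calc ∑ t ∈ range (L + 1), ((paths G L).filter fun l => l[t]? = some v).card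
      ≤ ∑ t ∈ range (L + 1), 2 ^ (L + 2) :=
        sum_le_sum fun t ht => through_card hcub (by rw [mem_range] at ht; omega) v
    _ = (L + 1) * 2 ^ (L + 2) := by rw [sum_const, card_range, smul_eq_mul]

/-- a geodesic -/
theorem exists_pf_dist {G : SimpleGraph V} (hG : G.Connected) (a b : V) :
    ∃ l ∈ pf G (G.dist a b) a, l.getLast? = some b := by
  obtain ⟨p, hp⟩ := hG.exists_walk_length_eq_dist a b
  refine ⟨p.support, ?_, ?_⟩
  · rw [mem_pf]
    refine ⟨⟨by rw [SimpleGraph.Walk.length_support, hp], ?_, ?_, p.isChain_adj_support⟩, ?_⟩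
    · exact p.support_ne_nil
    · exact (p.isPath_of_length_eq_dist hp).support_nodup
    · cases p <;> simp
  · rw [List.getLast?_eq_getLast_of_ne_nil p.support_ne_nil, SimpleGraph.Walk.getLast_support]

theorem sum_two_pow (R : ℕ) : ∑ t ∈ range R, 2 ^ (t + 1) ≤ 2 ^ (R + 1) := by
  induction R with
  | zero => simp
  | succ R ih =>
    rw [sum_range_succ, pow_succ 2 (R + 1)]
    omega

theorem ball_card {G : SimpleGraph V} (hG : G.Connected)
    (hcub : ∀ v, (G.neighborSet v).ncard = 3) (R : ℕ) (a : V) :
    (univ.filter fun b => G.dist a b < R).card ≤ 2 ^ (R + 1) := by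
  have hsub : (univ.filter fun b => G.dist a b < R) ⊆ (range R).biUnion fun t =>
      (pf G t a).image fun l => l.getLastD a := by
    intro b hb
    rw [mem_filter] at hb
    obtain ⟨l, hl, hlb⟩ := exists_pf_dist hG a b
    rw [mem_biUnion]
    refine ⟨G.dist a b, mem_range.2 hb.2, mem_image.2 ⟨l, hl, ?_⟩⟩
    rw [List.getLastD_eq_getLast?, hlb]
    rfl
  refine (card_le_card hsub).trans (card_biUnion_le.trans ?_)
  calc ∑ t ∈ range R, ((pf G t a).image fun l => l.getLastD a).card
      ≤ ∑ t ∈ range R, 2 ^ (t + 1) :=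
        sum_le_sum fun t _ => card_image_le.trans (pf_card hcub t a)
    _ ≤ 2 ^ (R + 1) := sum_two_pow R

end Pool.Agent.Lib.MP_fce888_co.S
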