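import Pool.Agent.Lib.MP_fce888_co.S.Defs

set_option autoImplicit false

/-!
# MP_fce888_co, section S: counting on the sample space `Om`
-/

namespace Pool.Agent.Lib.MP_fce888_co.S

open Finset Pool.Agent.Lib.MP_fce888_co
open scoped Classical

variable {V : Type} [Fintype V]
variable {GP : Finset (V × V)} {QQ : V × V → Finset (List V)} {N : ℕ}

/-- change of the predicate (and of the decidability instance) -/
theorem cf {α : Type*} (s : Finset α) (P Q : α → Prop) {hP : DecidablePred P}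
    {hQ : DecidablePred Q} (h : ∀ x ∈ s, P x ↔ Q x) :
    (@Finset.filter α P hP s).card = (@Finset.filter α Q hQ s).card := by
  congr 1
  ext x
  simp only [Finset.mem_filter]
  constructor
  · rintro ⟨h1, h2⟩; exact ⟨h1, (h x h1).1 h2⟩
  · rintro ⟨h1, h2⟩; exact ⟨h1, (h x h1).2 h2⟩

theorem cft {α : Type*} (s : Finset α) (P : α → Prop) {hP : DecidablePred P}
    (h : ∀ x ∈ s, P x) : (@Finset.filter α P hP s).card = s.card := by
  congr 1
  ext x
  simp only [Finset.mem_filter]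
  exact ⟨fun h1 => h1.1, fun h1 => ⟨h1, h x h1⟩⟩

omit [Fintype V] in
theorem card_sub (S : Finset (List V)) (P : List V → Prop)
    {h1 : DecidablePred fun Q : {Q // Q ∈ S} => P Q.1} {h2 : DecidablePred P} :
    (@Finset.filter _ (fun Q : {Q // Q ∈ S} => P Q.1) h1 univ).card = (@Finset.filter _ P h2 S).card := by
  rw [← Finset.card_map (Function.Embedding.subtype _)]
  congr 1
  ext Q
  simp only [Finset.mem_map, Finset.mem_filter, Finset.mem_univ, true_and,
    Function.Embedding.subtype_apply, Subtype.exists, exists_and_right, exists_eq_right]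
  constructor
  · rintro ⟨h1, h2⟩; exact ⟨h1, h2⟩
  · rintro ⟨h1, h2⟩; exact ⟨h1, h2⟩

omit [Fintype V] in
/-- product formula -/
theorem prodcount (P : V × V → Fin N → List V → Prop)
    {d1 : DecidablePred fun ω : Om GP QQ N => ∀ i, P ω.1.1 i (pth ω i)}
    {d2 : ∀ p i, DecidablePred (P p i)} :
    (@Finset.filter _ (fun ω : Om GP QQ N => ∀ i, P ω.1.1 i (pth ω i)) d1 univ).card =
      ∑ p ∈ GP, ∏ i, (@Finset.filter _ (P p i) (d2 p i) (QQ p)).card := by
  have h1 : (@Finset.filter _ (fun ω : Om GP QQ N => ∀ i, P ω.1.1 i (pth ω i)) d1 univ) =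
      (univ : Finset {p // p ∈ GP}).sigma (fun p => Fintype.piFinset fun i =>
        (univ : Finset {Q // Q ∈ QQ p.1}).filter fun Q => P p.1 i Q.1) := by
    ext ω
    rw [Finset.mem_filter, Finset.mem_sigma, Fintype.mem_piFinset]
    constructor
    · rintro ⟨_, h⟩
      exact ⟨Finset.mem_univ _, fun i => Finset.mem_filter.2 ⟨Finset.mem_univ _, h i⟩⟩
    · rintro ⟨_, h⟩
      exact ⟨Finset.mem_univ _, fun i => (Finset.mem_filter.1 (h i)).2⟩
  rw [h1, Finset.card_sigma]
  rw [← Finset.sum_coe_sort GP fun p => ∏ i, (@Finset.filter _ (P p i) (d2 p i) (QQ p)).card]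
  refine Finset.sum_congr rfl fun p _ => ?_
  rw [Fintype.card_piFinset]
  exact Finset.prod_congr rfl fun i _ => card_sub _ _

omit [Fintype V] in
/-- `card Om = |GP| m0^N` -/
theorem card_Om {m0 : ℕ} (h : ∀ p ∈ GP, (QQ p).card = m0) :
    Fintype.card (Om GP QQ N) = GP.card * m0 ^ N := by
  have h1 := prodcount (GP := GP) (QQ := QQ) (N := N) (fun _ _ _ => True)
    (d1 := fun _ => Classical.propDecidable _) (d2 := fun _ _ _ => Classical.propDecidable _)
  rw [cft _ _ (by intros; trivial)] at h1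
  rw [← Finset.card_univ, h1]
  rw [Finset.sum_congr rfl (g := fun _ => m0 ^ N)]
  · rw [Finset.sum_const, smul_eq_mul]
  · intro p hp
    rw [Finset.prod_congr rfl (g := fun _ => m0)]
    · rw [Finset.prod_const, Finset.card_univ, Fintype.card_fin]
    · intro i _
      rw [cft _ _ (by intros; trivial), h p hp]

omit [Fintype V] in
/-- one path -/
theorem count1 {m0 : ℕ} (h : ∀ p ∈ GP, (QQ p).card = m0) (i : Fin N) (A : V × V → List V → Prop)
    {d1 : DecidablePred fun ω : Om GP QQ N => A ω.1.1 (pth ω i)}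
    {d2 : ∀ p, DecidablePred (A p)} :
    (@Finset.filter _ (fun ω : Om GP QQ N => A ω.1.1 (pth ω i)) d1 univ).card * m0 =
      (∑ p ∈ GP, (@Finset.filter _ (A p) (d2 p) (QQ p)).card) * m0 ^ N := by
  have h1 := prodcount (GP := GP) (QQ := QQ) (N := N) (fun p j Q => j = i → A p Q)
    (d1 := fun _ => Classical.propDecidable _) (d2 := fun _ _ _ => Classical.propDecidable _)
  have h2 := cf (univ : Finset (Om GP QQ N)) (fun ω => A ω.1.1 (pth ω i))
    (fun ω => ∀ j, (fun (p : V × V) (j : Fin N) (Q : List V) => j = i → A p Q) ω.1.1 j (pth ω j))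
    (hP := d1) (hQ := fun _ => Classical.propDecidable _) (fun ω _ => by simp)
  rw [h2, h1, Finset.sum_mul, Finset.sum_mul]
  refine Finset.sum_congr rfl fun p hp => ?_
  rw [← Finset.mul_prod_erase univ _ (Finset.mem_univ i)]
  rw [Finset.prod_congr (s₁ := univ.erase i) rfl (g := fun _ => m0)]
  · rw [Finset.prod_const, Finset.card_erase_of_mem (Finset.mem_univ i), Finset.card_univ,
        Fintype.card_fin]
    rw [cf (QQ p) (fun Q => i = i → A p Q) (A p) (hQ := d2 p) (fun Q _ => by simp)]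
    rw [mul_assoc, ← pow_succ]
    congr 2
    have := i.pos
    omega
  · intro j hj
    rw [cft, h p hp]
    intro Q _ hji
    exact absurd hji (Finset.ne_of_mem_erase hj)

omit [Fintype V] in
/-- two paths -/
theorem count2 {m0 : ℕ} (h : ∀ p ∈ GP, (QQ p).card = m0) (i j : Fin N) (hij : i ≠ j)
    (A B : V × V → List V → Prop)
    {d1 : DecidablePred fun ω : Om GP QQ N => A ω.1.1 (pth ω i) ∧ B ω.1.1 (pth ω j)}
    {d2 : ∀ p, DecidablePred (A p)} {d3 : ∀ p, DecidablePred (B p)} :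
    (@Finset.filter _ (fun ω : Om GP QQ N => A ω.1.1 (pth ω i) ∧ B ω.1.1 (pth ω j))
        d1 univ).card * m0 ^ 2 =
      (∑ p ∈ GP, (@Finset.filter _ (A p) (d2 p) (QQ p)).card *
        (@Finset.filter _ (B p) (d3 p) (QQ p)).card) * m0 ^ N := by
  have h1 := prodcount (GP := GP) (QQ := QQ) (N := N)
    (fun p k Q => (k = i → A p Q) ∧ (k = j → B p Q))
    (d1 := fun _ => Classical.propDecidable _) (d2 := fun _ _ _ => Classical.propDecidable _)
  have h2 := cf (univ : Finset (Om GP QQ N)) (fun ω => A ω.1.1 (pth ω i) ∧ B ω.1.1 (pth ω j))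
    (fun ω => ∀ k, (fun (p : V × V) (k : Fin N) (Q : List V) =>
      (k = i → A p Q) ∧ (k = j → B p Q)) ω.1.1 k (pth ω k))
    (hP := d1) (hQ := fun _ => Classical.propDecidable _) (fun ω _ => by simp [forall_and])
  rw [h2, h1, Finset.sum_mul, Finset.sum_mul]
  refine Finset.sum_congr rfl fun p hp => ?_
  have hj : j ∈ univ.erase i := Finset.mem_erase.2 ⟨hij.symm, Finset.mem_univ j⟩
  rw [← Finset.mul_prod_erase univ _ (Finset.mem_univ i), ← Finset.mul_prod_erase _ _ hj]
  rw [Finset.prod_congr (s₁ := (univ.erase i).erase j) rfl (g := fun _ => m0)]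
  · rw [Finset.prod_const, Finset.card_erase_of_mem hj,
        Finset.card_erase_of_mem (Finset.mem_univ i), Finset.card_univ, Fintype.card_fin]
    rw [cf (QQ p) (fun Q => (i = i → A p Q) ∧ (i = j → B p Q)) (A p) (hQ := d2 p)
      (fun Q _ => by simp [hij])]
    rw [cf (QQ p) (fun Q => (j = i → A p Q) ∧ (j = j → B p Q)) (B p) (hQ := d3 p)
      (fun Q _ => by simp [hij.symm])]
    have hN : 2 ≤ N := by
      have h6 := i.isLt
      have h7 := j.isLt
      have h8 : (i : ℕ) ≠ (j : ℕ) := fun e => hij (Fin.ext e)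
      omega
    have h9 : m0 ^ (N - 1 - 1) * m0 ^ 2 = m0 ^ N := by
      rw [← pow_add]; congr 1; omega
    calc _ = (@Finset.filter _ (A p) (d2 p) (QQ p)).card *
          (@Finset.filter _ (B p) (d3 p) (QQ p)).card * (m0 ^ (N - 1 - 1) * m0 ^ 2) := by ring
      _ = _ := by rw [h9]
  · intro k hk
    rw [cft, h p hp]
    intro Q _
    have hk1 := Finset.ne_of_mem_erase hk
    have hk2 := Finset.ne_of_mem_erase (Finset.mem_of_mem_erase hk)
    exact ⟨fun e => absurd e hk2, fun e => absurd e hk1⟩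

/-- the sets `QQ p` are pairwise disjoint -/
theorem sum_card_le {c L4 : ℝ} {G : SimpleGraph V} {m0 : ℕ} (hB : Base c L4 G GP QQ m0)
    (P : List V → Prop) {dP : DecidablePred P} (AA : Finset (List V))
    (hAA : ∀ p ∈ GP, ∀ Q ∈ QQ p, P Q → Q ∈ AA) :
    ∑ p ∈ GP, (@Finset.filter _ P dP (QQ p)).card ≤ AA.card := by
  rw [← Finset.card_biUnion]
  · refine Finset.card_le_card fun Q hQ => ?_
    obtain ⟨p, hp, hQ⟩ := Finset.mem_biUnion.1 hQ
    obtain ⟨hQ1, hQ2⟩ := Finset.mem_filter.1 hQ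
    exact hAA p hp Q hQ1 hQ2
  · intro p hp q hq hpq
    refine Finset.disjoint_left.2 ?_
    intro Q hQ1 hQ2
    obtain ⟨hQ1, _⟩ := Finset.mem_filter.1 hQ1
    obtain ⟨hQ2, _⟩ := Finset.mem_filter.1 hQ2
    apply hpq
    have h1 := hB.head p hp Q hQ1
    have h2 := hB.head q hq Q hQ2
    have h3 := hB.last p hp Q hQ1
    have h4 := hB.last q hq Q hQ2
    rw [h1] at h2
    rw [h3] at h4
    exact Prod.ext (Option.some.inj h2) (Option.some.inj h4)

/-- `P(Q_i ∈ AA) ≤ |AA| / (|GP| m0)` -/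
theorem prob1 {c L4 : ℝ} {G : SimpleGraph V} {m0 : ℕ} (hB : Base c L4 G GP QQ m0)
    (i : Fin N) (AA : Finset (List V)) {d1 : DecidablePred fun ω : Om GP QQ N => pth ω i ∈ AA} :
    (@Finset.filter _ (fun ω : Om GP QQ N => pth ω i ∈ AA) d1 univ).card * (GP.card * m0) ≤
      AA.card * Fintype.card (Om GP QQ N) := by
  have h1 := count1 (N := N) hB.card i (fun _ Q => Q ∈ AA) (d1 := d1)
    (d2 := fun _ _ => Classical.propDecidable _)
  have h2 : ∑ p ∈ GP, (@Finset.filter _ (fun Q => Q ∈ AA)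
      (fun _ => Classical.propDecidable _) (QQ p)).card ≤ AA.card :=
    sum_card_le hB (fun Q => Q ∈ AA) AA (fun p _ Q _ h => h)
  rw [card_Om hB.card]
  calc _ = (@Finset.filter _ (fun ω : Om GP QQ N => pth ω i ∈ AA) d1 univ).card * m0 * GP.card := by
        ring
    _ = (∑ p ∈ GP, (@Finset.filter _ (fun Q => Q ∈ AA)
      (fun _ => Classical.propDecidable _) (QQ p)).card) * m0 ^ N * GP.card := by rw [h1]
    _ ≤ AA.card * m0 ^ N * GP.card := by gcongr
    _ = _ := by ring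

/-- `|GP| m0 ≥ (c/8) n 2^L` -/
theorem Base.low {c L4 : ℝ} {G : SimpleGraph V} {m0 : ℕ} (hB : Base c L4 G GP QQ m0) (hc : 0 < c) :
    c / 8 * (Fintype.card V : ℝ) * 2 ^ LL (Fintype.card V) ≤ (GP.card : ℝ) * m0 := by
  rcases Nat.eq_zero_or_pos (Fintype.card V) with h0 | h0
  · rw [h0]; simp only [CharP.cast_eq_zero, mul_zero, zero_mul]; positivity
  have hn : (0 : ℝ) < Fintype.card V := by exact_mod_cast h0
  calc c / 8 * (Fintype.card V : ℝ) * 2 ^ LL (Fintype.card V)
      = (c * (Fintype.card V : ℝ) ^ 2) * ((2 : ℝ) ^ LL (Fintype.card V) / (8 * Fintype.card V)) := by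
        field_simp
    _ ≤ (GP.card : ℝ) * m0 := by
        refine mul_le_mul hB.gp hB.m0_low (by positivity) (by positivity)

/-- `P(Q_i ∈ AA) ≤ 8 |AA| / (c n 2^L)` -/
theorem prob1' {c L4 : ℝ} {G : SimpleGraph V} {m0 : ℕ} (hB : Base c L4 G GP QQ m0) (hc : 0 < c)
    (hn : 0 < Fintype.card V) (i : Fin N) (AA : Finset (List V))
    {d1 : DecidablePred fun ω : Om GP QQ N => pth ω i ∈ AA} :
    ((@Finset.filter _ (fun ω : Om GP QQ N => pth ω i ∈ AA) d1 univ).card : ℝ) ≤
      8 / c * AA.card / (Fintype.card V * 2 ^ LL (Fintype.card V)) *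
        Fintype.card (Om GP QQ N) := by
  have hn' : (0 : ℝ) < Fintype.card V := by exact_mod_cast hn
  have h1 := prob1 (N := N) hB i AA (d1 := d1)
  have h1' : ((@Finset.filter _ (fun ω : Om GP QQ N => pth ω i ∈ AA) d1 univ).card : ℝ) *
      ((GP.card : ℝ) * m0) ≤ (AA.card : ℝ) * Fintype.card (Om GP QQ N) := by exact_mod_cast h1
  have h2 := hB.low hc
  have h3 : ((@Finset.filter _ (fun ω : Om GP QQ N => pth ω i ∈ AA) d1 univ).card : ℝ) *
      (c / 8 * (Fintype.card V : ℝ) * 2 ^ LL (Fintype.card V)) ≤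
      (AA.card : ℝ) * Fintype.card (Om GP QQ N) :=
    (mul_le_mul_of_nonneg_left h2 (by positivity)).trans h1'
  have h4 : 0 < c / 8 * (Fintype.card V : ℝ) * 2 ^ LL (Fintype.card V) := by positivity
  rw [← le_div_iff₀ h4] at h3
  refine h3.trans (le_of_eq ?_)
  field_simp

omit [Fintype V] in
/-- two different paths: probabilities as products -/
theorem prob2 {m0 : ℕ} (hcard : ∀ p ∈ GP, (QQ p).card = m0) (hm : 0 < m0)
    (i j : Fin N) (hij : i ≠ j) (A B : V × V → List V → Prop)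
    {d1 : DecidablePred fun ω : Om GP QQ N => A ω.1.1 (pth ω i) ∧ B ω.1.1 (pth ω j)}
    {d2 : ∀ p, DecidablePred (A p)} {d3 : ∀ p, DecidablePred (B p)} :
    ((@Finset.filter _ (fun ω : Om GP QQ N => A ω.1.1 (pth ω i) ∧ B ω.1.1 (pth ω j))
        d1 univ).card : ℝ) * GP.card =
      (∑ p ∈ GP, (((@Finset.filter _ (A p) (d2 p) (QQ p)).card : ℝ) / m0) *
        (((@Finset.filter _ (B p) (d3 p) (QQ p)).card : ℝ) / m0)) *
        Fintype.card (Om GP QQ N) := by
  have hm' : (0 : ℝ) < m0 := by exact_mod_cast hm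
  have h1 := count2 hcard i j hij A B (d1 := d1) (d2 := d2) (d3 := d3)
  have h1' : ((@Finset.filter _ (fun ω : Om GP QQ N => A ω.1.1 (pth ω i) ∧ B ω.1.1 (pth ω j))
        d1 univ).card : ℝ) * (m0 : ℝ) ^ 2 =
      (∑ p ∈ GP, ((@Finset.filter _ (A p) (d2 p) (QQ p)).card : ℝ) *
        ((@Finset.filter _ (B p) (d3 p) (QQ p)).card : ℝ)) * (m0 : ℝ) ^ N := by exact_mod_cast h1
  have h2 : ∑ p ∈ GP, (((@Finset.filter _ (A p) (d2 p) (QQ p)).card : ℝ) / m0) *
        (((@Finset.filter _ (B p) (d3 p) (QQ p)).card : ℝ) / m0) =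
      (∑ p ∈ GP, ((@Finset.filter _ (A p) (d2 p) (QQ p)).card : ℝ) *
        ((@Finset.filter _ (B p) (d3 p) (QQ p)).card : ℝ)) / (m0 : ℝ) ^ 2 := by
    rw [Finset.sum_div]
    refine Finset.sum_congr rfl fun p _ => ?_
    field_simp
  rw [h2, card_Om hcard]
  push_cast
  have h3 : ((@Finset.filter _ (fun ω : Om GP QQ N => A ω.1.1 (pth ω i) ∧ B ω.1.1 (pth ω j))
        d1 univ).card : ℝ) =
      (∑ p ∈ GP, ((@Finset.filter _ (A p) (d2 p) (QQ p)).card : ℝ) *
        ((@Finset.filter _ (B p) (d3 p) (QQ p)).card : ℝ)) * (m0 : ℝ) ^ N / (m0 : ℝ) ^ 2 := by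
    rw [eq_div_iff (by positivity)]; exact h1'
  rw [h3]
  ring

end Pool.Agent.Lib.MP_fce888_co.S
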