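import Pool.Agent.Lib.MP_fce888_co.S.StmFG
import Pool.Agent.Lib.MP_fce888_co.S.Prob
import Pool.Agent.Lib.MP_fce888_co.S.AbcPath

set_option autoImplicit false

namespace Pool.Agent.Lib.MP_fce888_co.S

open Finset Pool.Agent.Lib.MP_fce888_co
open scoped Classical

theorem q_law2 : S_cnt → S_law2 := by
  intro hcnt V _ G c L4 GP QQ m0 N hcub hc hlam hB i e₀ κ he hκ
  induction e₀ using Sym2.ind with
  | _ x y =>
  have hn : 0 < Fintype.card V := by
    rcases Nat.eq_zero_or_pos (Fintype.card V) with h | h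
    · rw [h] at hlam
      simp [lam] at hlam
    · exact h
  have hn' : (0 : ℝ) < Fintype.card V := by exact_mod_cast hn
  have hrr : rr (Fintype.card V) ≤ rn (Fintype.card V) := Nat.div_le_div_left (by norm_num) (by norm_num)
  set F : V → V → Finset (List V) := fun x y => (paths G (LL (Fintype.card V))).filter fun Q =>
    Good G Q ∧ Q[LL (Fintype.card V) / 2]? = some x ∧ Q[LL (Fintype.card V) / 2 + 1]? = some y ∧
        κ ⊆ eds Q with hF
  have hF1 : (F x y).card * 2 ^ κ.card ≤ 4 * 2 ^ LL (Fintype.card V) :=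
    hcnt V G hcub (rr (Fintype.card V)) x y κ hrr hlam he hκ
  have hF2 : (F y x).card * 2 ^ κ.card ≤ 4 * 2 ^ LL (Fintype.card V) := by
    refine hcnt V G hcub (rr (Fintype.card V)) y x κ hrr hlam ?_ ?_
    · rw [Sym2.eq_swap]; exact he
    · intro g hg u hu v hv
      refine hκ g hg u hu v ?_
      rw [Sym2.eq_swap]; exact hv
  set AA : Finset (List V) := F x y ∪ F y x with hAA
  have hcard : AA.card * 2 ^ κ.card ≤ 8 * 2 ^ LL (Fintype.card V) := by
    have h1 : AA.card ≤ (F x y).card + (F y x).card := Finset.card_union_le _ _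
    calc AA.card * 2 ^ κ.card ≤ ((F x y).card + (F y x).card) * 2 ^ κ.card :=
          Nat.mul_le_mul_right _ h1
      _ = (F x y).card * 2 ^ κ.card + (F y x).card * 2 ^ κ.card := by ring
      _ ≤ 4 * 2 ^ LL (Fintype.card V) + 4 * 2 ^ LL (Fintype.card V) := Nat.add_le_add hF1 hF2
      _ = 8 * 2 ^ LL (Fintype.card V) := by ring
  have hcard' : (AA.card : ℝ) * 2 ^ κ.card ≤ 8 * 2 ^ LL (Fintype.card V) := by exact_mod_cast hcard
  have hsub : ((Om0 G GP QQ N).filter fun ω => ee ω i = s(x, y) ∧ κ ⊆ eds (pth ω i)) ⊆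
      (univ : Finset (Om GP QQ N)).filter fun ω => pth ω i ∈ AA := by
    intro ω hω
    obtain ⟨_, hω1, hω2⟩ := Finset.mem_filter.1 hω
    refine Finset.mem_filter.2 ⟨Finset.mem_univ _, ?_⟩
    have hg := hB.good ω.1.1 ω.1.2 (pth ω i) (ω.2 i).2
    have hlen : (pth ω i).length = LL (Fintype.card V) + 1 := (mem_paths.1 hg.path).1
    have hLL : 3 ≤ LL (Fintype.card V) := by unfold LL; omega
    have h1 : LL (Fintype.card V) / 2 < (pth ω i).length := by omega
    have h2 : LL (Fintype.card V) / 2 + 1 < (pth ω i).length := by omega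
    have e1 : (pth ω i)[LL (Fintype.card V) / 2]? =
        some (pt ω.1.1.1 (pth ω i) (LL (Fintype.card V) / 2)) := by
      unfold pt
      rw [List.getD_eq_getElem?_getD, List.getElem?_eq_getElem h1, Option.getD_some]
    have e2 : (pth ω i)[LL (Fintype.card V) / 2 + 1]? =
        some (pt ω.1.1.1 (pth ω i) (LL (Fintype.card V) / 2 + 1)) := by
      unfold pt
      rw [List.getD_eq_getElem?_getD, List.getElem?_eq_getElem h2, Option.getD_some]
    unfold ee mid at hω1
    rw [Sym2.eq_iff] at hω1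
    rw [hAA, Finset.mem_union]
    rcases hω1 with ⟨h3, h4⟩ | ⟨h3, h4⟩
    · left
      rw [h3] at e1
      rw [h4] at e2
      exact Finset.mem_filter.2 ⟨hg.path, hg, e1, e2, hω2⟩
    · right
      rw [h3] at e1
      rw [h4] at e2
      exact Finset.mem_filter.2 ⟨hg.path, hg, e1, e2, hω2⟩
  have h5 := prob1' (N := N) hB hc hn i AA (d1 := fun _ => Classical.propDecidable _)
  have h6 : (((Om0 G GP QQ N).filter fun ω => ee ω i = s(x, y) ∧ κ ⊆ eds (pth ω i)).card : ℝ) ≤
      ((@Finset.filter _ (fun ω : Om GP QQ N => pth ω i ∈ AA)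
        (fun _ => Classical.propDecidable _) univ).card : ℝ) := by
    have h7 := Finset.card_le_card hsub
    have h8 := cf (univ : Finset (Om GP QQ N)) (fun ω => pth ω i ∈ AA) (fun ω => pth ω i ∈ AA)
      (hP := fun _ => Finset.decidableMem _ _) (hQ := fun _ => Classical.propDecidable _)
      (fun _ _ => Iff.rfl)
    rw [← h8]
    exact_mod_cast h7
  refine (h6.trans h5).trans ?_
  have h9 : 8 / c * (AA.card : ℝ) / (Fintype.card V * 2 ^ LL (Fintype.card V)) ≤
      64 / c * (1 / 2) ^ κ.card / Fintype.card V := by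
    rw [div_le_div_iff₀ (by positivity) hn']
    have h10 : (AA.card : ℝ) ≤ 8 * 2 ^ LL (Fintype.card V) * (1 / 2) ^ κ.card := by
      rw [one_div, inv_pow, ← div_eq_mul_inv, le_div_iff₀ (by positivity)]
      exact hcard'
    calc 8 / c * (AA.card : ℝ) * Fintype.card V
        ≤ 8 / c * (8 * 2 ^ LL (Fintype.card V) * (1 / 2) ^ κ.card) * Fintype.card V := by gcongr
      _ = 64 / c * (1 / 2) ^ κ.card * (Fintype.card V * 2 ^ LL (Fintype.card V)) := by ring
  gcongr

end Pool.Agent.Lib.MP_fce888_co.S
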