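import Pool.Agent.Lib.MP_fce888_co.S.StmFG

set_option autoImplicit false

/-!
# MP_fce888_co, [SF cnt]: good paths with given middle edge containing given near edges
-/

namespace Pool.Agent.Lib.MP_fce888_co.S

open Finset Pool.Agent.Lib.MP_fce888_co
open scoped Classical

private theorem len_paths {V : Type} [Fintype V] {G : SimpleGraph V} {t : ℕ} {l : List V}
    (h : l ∈ paths G t) : l.length = t + 1 := by
  unfold paths at h
  obtain ⟨h1, -⟩ := mem_filter.1 h
  obtain ⟨f, -, rfl⟩ := mem_image.1 h1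
  exact List.length_ofFn

theorem p_cnt : S_seg → S_coin → S_cnt := by
  intro hseg hcoin V _ G hcub r x y κ hr hlam hxy hκ
  set n := Fintype.card V with hn
  set L := LL n with hL
  set h := L / 2 with hh
  have hL3 : L = 3 * lam n + 3 := rfl
  have hhL : h + 1 ≤ L := by omega
  set F := (paths G L).filter fun Q => Good G Q ∧ Q[h]? = some x ∧ Q[h + 1]? = some y ∧
        κ ⊆ eds Q with hF
  rcases F.eq_empty_or_nonempty with he | ⟨Q0, hQ0⟩
  · rw [he]
    simp
  have mF : ∀ Q, Q ∈ F ↔ Q ∈ paths G L ∧ Good G Q ∧ Q[h]? = some x ∧ Q[h + 1]? = some y ∧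
        κ ⊆ eds Q := by
    intro Q
    rw [hF, mem_filter]
  obtain ⟨q1, q2, q3, q4, q5⟩ := (mF Q0).1 hQ0
  -- vertices near `x` on a member are at positions near `h`
  have near : ∀ Q ∈ F, ∀ t w, Q[t]? = some w → G.dist w x ≤ r → t ≤ h + R1 n ∧ h ≤ t + R1 n := by
    intro Q hQ t w hw hd
    obtain ⟨-, g2, g3, -, -⟩ := (mF Q).1 hQ
    have sep := g2.sep
    rw [← hn] at sep
    constructor
    · by_contra hc
      have := sep h t x w (by omega) g3 hw
      rw [SimpleGraph.dist_comm] at this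
      omega
    · by_contra hc
      have := sep t h w x (by omega) hw g3
      omega
  have hR : R1 n ≤ R0 n := by
    unfold R1 R0
    omega
  -- the positions of the edges of `κ` on `Q0`
  set A := (range L).filter fun t => ∃ u v, Q0[t]? = some u ∧ Q0[t + 1]? = some v ∧ s(u, v) ∈ κ
    with hA
  have mA : ∀ t, t ∈ A ↔ t < L ∧ ∃ u v, Q0[t]? = some u ∧ Q0[t + 1]? = some v ∧ s(u, v) ∈ κ := by
    intro t
    rw [hA, mem_filter, mem_range]
  have hhA : h ∈ A := (mA h).2 ⟨by omega, x, y, q3, q4, hxy⟩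
  have hAne : A.Nonempty := ⟨h, hhA⟩
  set t1 := A.min' hAne with ht1
  set t2 := A.max' hAne + 1 with ht2
  have h1h : t1 ≤ h := A.min'_le h hhA
  have h2h : h + 1 ≤ t2 := by
    have := A.le_max' h hhA
    omega
  have h2L : t2 ≤ L := by
    have := ((mA _).1 (A.max'_mem hAne)).1
    omega
  have hlen : Q0.length = L + 1 := len_paths q1
  -- `κ.card ≤ A.card ≤ t2 - t1`
  have hκA : κ.card ≤ t2 - t1 := by
    have e1 : κ.card ≤ A.card := by
      refine le_trans (card_le_card ?_)
        (card_image_le (f := fun t => s(Q0.getD t x, Q0.getD (t + 1) x)))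
      intro g hg
      have hg' := q5 hg
      unfold eds at hg'
      obtain ⟨-, t, u, v, k1, k2, k3⟩ := mem_filter.1 hg'
      have ht : t + 1 < Q0.length := by
        rw [List.getElem?_eq_some_iff] at k2
        exact k2.1
      refine mem_image.2 ⟨t, (mA t).2 ⟨by omega, u, v, k1, k2, k3 ▸ hg⟩, ?_⟩
      show s(Q0.getD t x, Q0.getD (t + 1) x) = g
      rw [List.getD_eq_getElem?_getD, List.getD_eq_getElem?_getD, k1, k2, k3]
      rfl
    have e2 : A.card ≤ t2 - t1 := by
      have : A ⊆ Ico t1 t2 := by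
        intro t ht
        rw [mem_Ico]
        have a1 := A.min'_le t ht
        have a2 := A.le_max' t ht
        exact ⟨a1, by omega⟩
      have := card_le_card this
      rwa [Nat.card_Ico] at this
    omega
  -- a vertex of an edge of `κ` is at the same position on all members
  have pos : ∀ Q ∈ F, ∀ t w, Q0[t]? = some w → (∃ g ∈ κ, w ∈ g) →
      ∀ t', min h t ≤ t' → t' ≤ max h t → Q0[t']? = Q[t']? := by
    rintro Q hQ t w hw ⟨g, hg, hwg⟩ t' hm hM
    obtain ⟨g1, g2, g3, g4, g5⟩ := (mF Q).1 hQ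
    have hd : G.dist w x ≤ r := hκ g hg w hwg x (Sym2.mem_mk_left x y)
    have hg' := g5 hg
    unfold eds at hg'
    obtain ⟨-, s, u, v, k1, k2, k3⟩ := mem_filter.1 hg'
    have : ∃ s' : ℕ, Q[s']? = some w := by
      rw [k3, Sym2.mem_iff] at hwg
      rcases hwg with hwg | hwg
      · exact ⟨s, by rw [hwg, k1]⟩
      · exact ⟨s + 1, by rw [hwg, k2]⟩
    obtain ⟨s', hs'⟩ := this
    have n1 := near Q0 hQ0 t w hw hd
    have n2 := near Q hQ s' w hs' hd
    have htL : t ≤ L := by
      rw [List.getElem?_eq_some_iff] at hw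
      obtain ⟨hw1, -⟩ := hw
      omega
    have := hcoin V G L (R0 n) h t s' Q0 Q q1 g1 q2.up hhL (by rw [q3, g3]) (by rw [q4, g4]) htL
      (by rw [hw, hs']) (by omega) (by omega) (by omega) (by omega)
    exact this.2 t' hm hM
  have hsub : F ⊆ (paths G L).filter fun Q => ∀ t, t1 ≤ t → t ≤ t2 → Q[t]? = Q0[t]? := by
    intro Q hQ
    refine mem_filter.2 ⟨((mF Q).1 hQ).1, ?_⟩
    intro t ht1' ht2'
    obtain ⟨-, u1, v1, a1, a2, a3⟩ := (mA _).1 (A.min'_mem hAne)
    obtain ⟨-, u2, v2, b1, b2, b3⟩ := (mA _).1 (A.max'_mem hAne)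
    rcases le_total t h with hth | hth
    · refine (pos Q hQ t1 u1 a1 ⟨_, a3, Sym2.mem_mk_left _ _⟩ t ?_ ?_).symm
      · exact le_trans (min_le_right _ _) ht1'
      · exact le_trans hth (le_max_left _ _)
    · refine (pos Q hQ t2 v2 b2 ⟨_, b3, Sym2.mem_mk_right _ _⟩ t ?_ ?_).symm
      · exact le_trans (min_le_left _ _) hth
      · exact le_trans ht2' (le_max_right _ _)
  have hcard := (card_le_card hsub).trans (hseg V G hcub L t1 t2 Q0 (by omega) h2L)
  calc F.card * 2 ^ κ.card ≤ (2 ^ (t1 + 1) * 2 ^ (L - t2 + 1)) * 2 ^ (t2 - t1) :=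
        Nat.mul_le_mul hcard (Nat.pow_le_pow_right (by norm_num) hκA)
    _ = 4 * 2 ^ L := by
        rw [← pow_add, ← pow_add, show (4 : ℕ) = 2 ^ 2 by norm_num, ← pow_add]
        congr 1
        omega

end Pool.Agent.Lib.MP_fce888_co.S
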