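import Pool.Agent.Lib.MP_fce888_co.S.StmFG

set_option autoImplicit false

/-!
# MP_fce888_co, [SF cntA]: the number of possible end points
-/

namespace Pool.Agent.Lib.MP_fce888_co.S

open Finset Pool.Agent.Lib.MP_fce888_co
open scoped Classical

private theorem mem_lists' {V : Type} [Fintype V] {k : ℕ} {l : List V} (h : l.length = k) :
    l ∈ lists V k := by
  subst h
  exact mem_image.2 ⟨l.get, mem_univ _, List.ofFn_get l⟩

private theorem len_lists {V : Type} [Fintype V] {k : ℕ} {l : List V} (h : l ∈ lists V k) :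
    l.length = k := by
  obtain ⟨f, -, rfl⟩ := mem_image.1 h
  exact List.length_ofFn

private theorem mem_paths' {V : Type} [Fintype V] {G : SimpleGraph V} {t : ℕ} {l : List V} :
    l ∈ paths G t ↔ l.length = t + 1 ∧ IsPL G l := by
  unfold paths
  rw [mem_filter]
  exact ⟨fun h => ⟨len_lists h.1, h.2⟩, fun h => ⟨mem_lists' h.1, h.2⟩⟩

/-- the walk along a chain -/
private theorem chain_dist {V : Type} [Fintype V] {G : SimpleGraph V} :
    ∀ (l : List V) (a u : V), l.IsChain G.Adj → l.head? = some a → l.getLast? = some u →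
      ∃ w : G.Walk a u, w.length + 1 = l.length := by
  intro l
  induction l with
  | nil =>
    intro a u _ h
    simp at h
  | cons x l ih =>
    intro a u hc ha hu
    cases l with
    | nil =>
      simp at ha hu
      subst ha
      subst hu
      exact ⟨SimpleGraph.Walk.nil, rfl⟩
    | cons y l =>
      rw [List.isChain_cons_cons] at hc
      rw [List.getLast?_cons_cons] at hu
      simp at ha
      subst ha
      obtain ⟨w, hw⟩ := ih y u hc.2 rfl hu
      exact ⟨SimpleGraph.Walk.cons hc.1 w, by simp [hw]⟩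

private theorem pl_take {V : Type} [Fintype V] {G : SimpleGraph V} {L t : ℕ} {Q : List V} {u : V}
    (hQ : Q ∈ paths G L) (ht : t ≤ L) (hu : Q[t]? = some u) :
    Q.take (t + 1) ∈ paths G t ∧ (Q.take (t + 1)).head? = Q.head? ∧
      (Q.take (t + 1)).getLast? = some u := by
  obtain ⟨h1, h2, h3, h4⟩ := mem_paths'.1 hQ
  have hl : (Q.take (t + 1)).length = t + 1 := by
    rw [List.length_take]
    omega
  refine ⟨mem_paths'.2 ⟨hl, ?_, h3.sublist (List.take_sublist _ _), h4.take _⟩, ?_, ?_⟩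
  · intro h
    rw [h] at hl
    simp at hl
  · rw [List.head?_take, if_neg (by omega)]
  · rw [List.getLast?_take, if_neg (by omega)]
    rw [Nat.add_sub_cancel, hu]
    rfl

private theorem pl_drop {V : Type} [Fintype V] {G : SimpleGraph V} {L t : ℕ} {Q : List V} {u : V}
    (hQ : Q ∈ paths G L) (ht : t ≤ L) (hu : Q[t]? = some u) :
    Q.drop t ∈ paths G (L - t) ∧ (Q.drop t).head? = some u ∧
      (Q.drop t).getLast? = Q.getLast? := by
  obtain ⟨h1, h2, h3, h4⟩ := mem_paths'.1 hQ
  have hl : (Q.drop t).length = L - t + 1 := by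
    rw [List.length_drop]
    omega
  refine ⟨mem_paths'.2 ⟨hl, ?_, h3.sublist (List.drop_sublist _ _), h4.drop _⟩, ?_, ?_⟩
  · intro h
    rw [h] at hl
    simp at hl
  · rw [List.head?_drop, hu]
  · rw [List.getLast?_drop, if_neg (by omega)]

theorem p_cntA : S_head → S_last → S_cntA := by
  intro hhead hlast V _ G c L4 GP QQ m0 hcub hB t u ht
  have key : ∀ p ∈ GP, al QQ m0 p t u ≠ 0 → ∃ Q ∈ paths G (LL (Fintype.card V)),
      Q.head? = some p.1 ∧ Q.getLast? = some p.2 ∧ Q[t]? = some u := by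
    intro p hp hne
    unfold al at hne
    have h1 : ((QQ p).filter fun Q => Q[t]? = some u).Nonempty := by
      rw [nonempty_iff_ne_empty]
      intro h
      rw [h] at hne
      simp at hne
    obtain ⟨Q, hQ⟩ := h1
    rw [mem_filter] at hQ
    exact ⟨Q, (hB.good p hp Q hQ.1).path, hB.head p hp Q hQ.1, hB.last p hp Q hQ.1, hQ.2⟩
  refine ⟨?_, ?_, ?_⟩
  · refine le_trans (card_le_card ?_) (le_trans (card_image_le (f := fun P : List V => P.head?.getD u))
      (hlast V G hcub t u))
    intro a ha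
    obtain ⟨-, b, hab, hne⟩ := mem_filter.1 ha
    obtain ⟨Q, hQ, hQ1, hQ2, hQ3⟩ := key _ hab hne
    obtain ⟨k1, k2, k3⟩ := pl_take hQ ht hQ3
    refine mem_image.2 ⟨Q.take (t + 1), mem_filter.2 ⟨k1, k3⟩, ?_⟩
    show (Q.take (t + 1)).head?.getD u = a
    rw [k2, hQ1]
    rfl
  · refine le_trans (card_le_card ?_)
      (le_trans (card_image_le (f := fun P : List V => P.getLast?.getD u))
      (hhead V G hcub (LL (Fintype.card V) - t) u))
    intro b hb
    obtain ⟨-, a, hab, hne⟩ := mem_filter.1 hb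
    obtain ⟨Q, hQ, hQ1, hQ2, hQ3⟩ := key _ hab hne
    obtain ⟨k1, k2, k3⟩ := pl_drop hQ ht hQ3
    refine mem_image.2 ⟨Q.drop t, mem_filter.2 ⟨k1, k2⟩, ?_⟩
    show (Q.drop t).getLast?.getD u = b
    rw [k3, hQ2]
    rfl
  · intro p hp hne
    obtain ⟨Q, hQ, hQ1, hQ2, hQ3⟩ := key p hp hne
    obtain ⟨k1, k2, k3⟩ := pl_take hQ ht hQ3
    obtain ⟨l1, l2, l3⟩ := pl_drop hQ ht hQ3
    rw [mem_paths'] at k1 l1
    constructor
    · obtain ⟨w, hw⟩ := chain_dist _ p.1 u k1.2.2.2 (k2.trans hQ1) k3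
      have := SimpleGraph.dist_le w
      omega
    · obtain ⟨w, hw⟩ := chain_dist _ u p.2 l1.2.2.2 l2 (l3.trans hQ2)
      have := SimpleGraph.dist_le w
      omega

end Pool.Agent.Lib.MP_fce888_co.S
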