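import Pool.Agent.Lib.MP_fce888_co.S.StmFG

set_option autoImplicit false

/-!
# MP_fce888_co, [SF coin]: two paths with a common edge and a common near vertex coincide in between
-/

namespace Pool.Agent.Lib.MP_fce888_co.S

open Finset Pool.Agent.Lib.MP_fce888_co
open scoped Classical

private lemma mem_paths_coin {V : Type} [Fintype V] (G : SimpleGraph V) (t : ℕ) (Q : List V) :
    Q ∈ paths G t ↔ Q.length = t + 1 ∧ IsPL G Q := by
  unfold paths lists
  rw [mem_filter, mem_image]
  constructor
  · rintro ⟨⟨f, _, rfl⟩, h⟩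
    exact ⟨List.length_ofFn, h⟩
  · rintro ⟨h1, h2⟩
    refine ⟨⟨fun i => Q.get (i.cast h1.symm), mem_univ _, ?_⟩, h2⟩
    apply List.ext_getElem
    · rw [List.length_ofFn, h1]
    · intro n h3 h4
      rw [List.getElem_ofFn]
      rfl

/-- the segment `[a, b]` of a list -/
private def sg {V : Type} (Q : List V) (a b : ℕ) : List V := (Q.drop a).take (b - a + 1)

private lemma sg_length {V : Type} (Q : List V) (a b L : ℕ) (hQ : Q.length = L + 1) (h1 : a ≤ b)
    (h2 : b ≤ L) : (sg Q a b).length = b - a + 1 := by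
  unfold sg
  rw [List.length_take, List.length_drop, hQ]
  omega

private lemma sg_getElem? {V : Type} (Q : List V) (a b : ℕ) (j : ℕ) (hj : j ≤ b - a) :
    (sg Q a b)[j]? = Q[a + j]? := by
  unfold sg
  rw [List.getElem?_take, if_pos (by omega), List.getElem?_drop]

private lemma sg_isPL {V : Type} [Fintype V] (G : SimpleGraph V) (Q : List V) (a b L : ℕ)
    (hQ : Q.length = L + 1) (h1 : a ≤ b) (h2 : b ≤ L) (hP : IsPL G Q) : IsPL G (sg Q a b) := by
  obtain ⟨_, hnd, hch⟩ := hP
  refine ⟨?_, ?_, ?_⟩
  · intro h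
    have := sg_length Q a b L hQ h1 h2
    rw [h, List.length_nil] at this
    omega
  · exact (hnd.sublist (List.drop_sublist a Q)).sublist (List.take_sublist _ _)
  · exact (hch.drop a).take _

/-- the path from position `h` to position `s` -/
private def pp {V : Type} (Q : List V) (h s : ℕ) : List V :=
  if h ≤ s then sg Q h s else (sg Q s h).reverse

private lemma pp_length {V : Type} (Q : List V) (h s L : ℕ) (hQ : Q.length = L + 1) (h1 : h ≤ L)
    (h2 : s ≤ L) : (pp Q h s).length = (h - s) + (s - h) + 1 := by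
  unfold pp
  split_ifs with hc
  · rw [sg_length Q h s L hQ hc h2]; omega
  · rw [List.length_reverse, sg_length Q s h L hQ (by omega) h1]; omega

private lemma pp_up {V : Type} (Q : List V) (h s : ℕ) (j : ℕ) (hc : h ≤ s) (hj : j ≤ s - h) :
    (pp Q h s)[j]? = Q[h + j]? := by
  unfold pp
  rw [if_pos hc, sg_getElem? Q h s j hj]

private lemma pp_down {V : Type} (Q : List V) (h s L : ℕ) (hQ : Q.length = L + 1) (h1 : h ≤ L)
    (j : ℕ) (hc : s < h) (hj : j ≤ h - s) : (pp Q h s)[j]? = Q[h - j]? := by
  have hl := sg_length Q s h L hQ hc.le h1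
  unfold pp
  rw [if_neg (by omega), List.getElem?_reverse (by rw [hl]; omega), hl,
    sg_getElem? Q s h _ (by omega)]
  congr 1
  omega

private lemma pp_isPL {V : Type} [Fintype V] (G : SimpleGraph V) (Q : List V) (h s L : ℕ)
    (hQ : Q.length = L + 1) (h1 : h ≤ L) (h2 : s ≤ L) (hP : IsPL G Q) : IsPL G (pp Q h s) := by
  unfold pp
  split_ifs with hc
  · exact sg_isPL G Q h s L hQ hc h2 hP
  · obtain ⟨a, b, c⟩ := sg_isPL G Q s h L hQ (by omega) h1 hP
    refine ⟨?_, ?_, ?_⟩
    · intro h'
      rw [List.reverse_eq_nil_iff] at h'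
      exact a h'
    · rwa [List.nodup_reverse]
    · rw [List.isChain_reverse]
      exact c.imp fun x y hxy => hxy.symm

private lemma pp_head {V : Type} (Q : List V) (h s L : ℕ) (hQ : Q.length = L + 1) (h1 : h ≤ L) :
    (pp Q h s).head? = Q[h]? := by
  rw [List.head?_eq_getElem?]
  rcases Nat.lt_or_ge s h with hc | hc
  · rw [pp_down Q h s L hQ h1 0 hc (Nat.zero_le _)]; rfl
  · rw [pp_up Q h s 0 hc (Nat.zero_le _)]; rfl

private lemma pp_last {V : Type} (Q : List V) (h s L : ℕ) (hQ : Q.length = L + 1) (h1 : h ≤ L)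
    (h2 : s ≤ L) : (pp Q h s).getLast? = Q[s]? := by
  rw [List.getLast?_eq_getElem?, pp_length Q h s L hQ h1 h2]
  rcases Nat.lt_or_ge s h with hc | hc
  · rw [pp_down Q h s L hQ h1 _ hc (by omega)]
    congr 1
    omega
  · rw [pp_up Q h s _ hc (by omega)]
    congr 1
    omega

private lemma nodup_ne {V : Type} (Q : List V) (h : Q.Nodup) (i j : ℕ) (hi : i < Q.length)
    (he : Q[i]? = Q[j]?) : i = j := by
  exact (List.getElem?_inj hi h).mp he

theorem p_coin : S_coin := by
  intro V _ G L R h s s' Q Q' hQ hQ' hUP hhL he1 he2 hsL hes a1 a2 a3 a4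
  obtain ⟨hl, hP⟩ := (mem_paths_coin G L Q).mp hQ
  obtain ⟨hl', hP'⟩ := (mem_paths_coin G L Q').mp hQ'
  have hs'L : s' ≤ L := by
    by_contra hc
    have h1 : Q'[s']? = none := by rw [List.getElem?_eq_none_iff]; omega
    rw [h1, List.getElem?_eq_none_iff] at hes
    omega
  have hh : h < Q.length := by omega
  have key : pp Q h s = pp Q' h s' := by
    have hx : Q[h]? = some Q[h] := List.getElem?_eq_getElem hh
    refine hUP Q[h] (List.getElem_mem hh) _ _ (pp_isPL G Q h s L hl (by omega) hsL hP)
      (pp_isPL G Q' h s' L hl' (by omega) hs'L hP') ?_ ?_ ?_ ?_ ?_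
    · rw [pp_head Q h s L hl (by omega), hx]
    · rw [pp_head Q' h s' L hl' (by omega), ← he1, hx]
    · rw [pp_length Q h s L hl (by omega) hsL]; omega
    · rw [pp_length Q' h s' L hl' (by omega) hs'L]; omega
    · rw [pp_last Q h s L hl (by omega) hsL, pp_last Q' h s' L hl' (by omega) hs'L, hes]
  have hlen : (h - s) + (s - h) = (h - s') + (s' - h) := by
    have := congrArg List.length key
    rw [pp_length Q h s L hl (by omega) hsL, pp_length Q' h s' L hl' (by omega) hs'L] at this
    omega
  have hss : s = s' := by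
    rcases Nat.lt_trichotomy h s with hc | hc | hc
    · rcases Nat.lt_or_ge s' h with hc' | hc'
      · exfalso
        have e1 := pp_up Q h s 1 hc.le (by omega)
        have e2 := pp_down Q' h s' L hl' (by omega) 1 hc' (by omega)
        rw [key, e2, he2] at e1
        have := nodup_ne Q' hP'.2.1 _ _ (by omega) e1
        omega
      · omega
    · omega
    · rcases Nat.lt_or_ge h s' with hc' | hc'
      · exfalso
        have e1 := pp_down Q h s L hl (by omega) 1 hc (by omega)
        have e2 := pp_up Q' h s' 1 hc'.le (by omega)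
        rw [key, e2, ← he2] at e1
        have := nodup_ne Q hP.2.1 _ _ (by omega) e1
        omega
      · omega
  subst hss
  refine ⟨rfl, fun t ht1 ht2 => ?_⟩
  rcases Nat.lt_or_ge s h with hc | hc
  · have e1 := pp_down Q h s L hl (by omega) (h - t) hc (by omega)
    have e2 := pp_down Q' h s L hl' (by omega) (h - t) hc (by omega)
    rw [key, e2] at e1
    rw [show h - (h - t) = t by omega] at e1
    exact e1.symm
  · have e1 := pp_up Q h s (t - h) hc (by omega)
    have e2 := pp_up Q' h s (t - h) hc (by omega)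
    rw [key, e2] at e1
    rw [show h + (t - h) = t by omega] at e1
    exact e1.symm

end Pool.Agent.Lib.MP_fce888_co.S
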