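import Pool.Agent.Lib.MP_fce888_co.S.StmFG

set_option autoImplicit false

/-!
# MP_fce888_co, section S-f: reversal of paths
-/

namespace Pool.Agent.Lib.MP_fce888_co.S

open Finset Pool.Agent.Lib.MP_fce888_co
open scoped Classical

theorem last_mem_lists {V : Type} [Fintype V] (l : List V) (k : ℕ) :
    l ∈ lists V k ↔ l.length = k := by
  unfold lists
  rw [mem_image]
  constructor
  · rintro ⟨f, -, rfl⟩
    exact List.length_ofFn
  · rintro rfl
    exact ⟨l.get, mem_univ _, List.ofFn_get l⟩

theorem last_isPL {V : Type} [Fintype V] (G : SimpleGraph V) (l : List V) (h : IsPL G l) :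
    IsPL G l.reverse := by
  obtain ⟨h1, h2, h3⟩ := h
  refine ⟨by simpa using h1, List.nodup_reverse.2 h2, ?_⟩
  rw [List.isChain_reverse]
  exact h3.imp fun a b hab => hab.symm

theorem last_mem_paths {V : Type} [Fintype V] (G : SimpleGraph V) (t : ℕ) (l : List V)
    (h : l ∈ paths G t) : l.reverse ∈ paths G t := by
  unfold paths at h ⊢
  rw [mem_filter, last_mem_lists] at h ⊢
  exact ⟨by rw [List.length_reverse]; exact h.1, last_isPL G l h.2⟩

theorem p_last : S_head → S_last := by
  intro h V _ G hG t v
  refine le_trans (card_le_card_of_injOn List.reverse ?_ ?_) (h V G hG t v)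
  · intro Q hQ
    rw [mem_coe, mem_filter] at hQ ⊢
    refine ⟨last_mem_paths G t Q hQ.1, ?_⟩
    rw [List.head?_reverse]
    exact hQ.2
  · intro Q _ Q' _ hQQ
    exact List.reverse_injective hQQ

end Pool.Agent.Lib.MP_fce888_co.S
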