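import Pool.Agent.Lib.MP_fce888_co.S.StmFG

set_option autoImplicit false

/-!
# MP_fce888_co, section S-f: law1 and elementary properties of `mu`
-/

namespace Pool.Agent.Lib.MP_fce888_co.S

open Finset Pool.Agent.Lib.MP_fce888_co
open scoped Classical

/-- the sum of `mu` over a set of edge sets -/
theorem sum_mu {V : Type} [Fintype V] (G : SimpleGraph V) (GP : Finset (V × V))
    (QQ : V × V → Finset (List V)) (N : ℕ) (i0 i1 : Fin N) (DD : Finset (Finset (Sym2 V))) :
    ∑ D ∈ DD, mu G GP QQ i0 i1 D =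
      (((Om0 G GP QQ N).filter fun ω => cc (pth ω i0) (pth ω i1) ∈ DD).card : ℝ) /
        Fintype.card (Om GP QQ N) := by
  have h1 : ((Om0 G GP QQ N).filter fun ω => cc (pth ω i0) (pth ω i1) ∈ DD).card =
      ∑ D ∈ DD, ((Om0 G GP QQ N).filter fun ω => cc (pth ω i0) (pth ω i1) = D).card := by
    rw [card_eq_sum_card_fiberwise (f := fun ω : Om GP QQ N => cc (pth ω i0) (pth ω i1)) (t := DD)]
    · refine sum_congr rfl fun D hD => ?_
      congr 1
      ext ω
      simp only [mem_filter]
      constructor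
      · rintro ⟨⟨h1, _⟩, h3⟩
        exact ⟨h1, h3⟩
      · rintro ⟨h1, h3⟩
        exact ⟨⟨h1, h3 ▸ hD⟩, h3⟩
    · intro ω hω
      exact (mem_filter.1 (mem_coe.1 hω)).2
  rw [h1]
  push_cast
  rw [sum_div]
  rfl

private theorem card_filter_inst {α : Type} (s : Finset α) (p : α → Prop)
    (i1 i2 : DecidablePred p) : (@filter _ p i1 s).card = (@filter _ p i2 s).card := by
  have h : @filter _ p i1 s = @filter _ p i2 s := by
    ext x
    simp only [mem_filter]
  rw [h]

theorem p_law1 : S_perm → S_law1 := by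
  intro hperm V _ G GP QQ N i0 i1 h01 hpos
  have hposR : (0 : ℝ) < Fintype.card (Om GP QQ N) := by exact_mod_cast hpos
  refine ⟨?_, ?_, ?_, ?_⟩
  · intro i k hik DD
    rw [sum_mu, div_mul_cancel₀ _ hposR.ne']
    have := hperm V G GP QQ N i0 i1 i k h01 hik (fun D => D ∈ DD)
    have h3 : ((Om0 G GP QQ N).filter fun ω => cc (pth ω i) (pth ω k) ∈ DD).card =
        ((Om0 G GP QQ N).filter fun ω => cc (pth ω i0) (pth ω i1) ∈ DD).card :=
      (card_filter_inst _ _ _ _).trans (this.trans (card_filter_inst _ _ _ _))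
    exact_mod_cast h3.le
  · intro D
    unfold mu
    positivity
  · rw [sum_mu, div_le_one hposR]
    have h2 : ((Om0 G GP QQ N).filter fun ω => cc (pth ω i0) (pth ω i1) ∈ GGs G).card ≤
        Fintype.card (Om GP QQ N) := card_le_univ _
    exact_mod_cast h2
  · intro h D hD
    unfold mu
    rw [div_eq_zero_iff]
    left
    have : ((Om0 G GP QQ N).filter fun ω => cc (pth ω i0) (pth ω i1) = D) = ∅ := by
      rw [filter_eq_empty_iff]
      intro ω hω h3
      exact hD (h3 ▸ h ω hω)
    rw [this, card_empty, Nat.cast_zero]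

end Pool.Agent.Lib.MP_fce888_co.S
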