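import Pool.Agent.Lib.MP_fce888_co.S.StmFG
import Pool.Agent.Lib.MP_fce888_co.S.Prob

set_option autoImplicit false

/-!
# MP_fce888_co, section S: [SF lawM]
-/

namespace Pool.Agent.Lib.MP_fce888_co.S

open Finset Pool.Agent.Lib.MP_fce888_co
open scoped Classical

theorem lawM_len {V : Type} [Fintype V] {G : SimpleGraph V} {t : ℕ} {Q : List V}
    (h : Q ∈ paths G t) : Q.length = t + 1 := by
  unfold paths lists at h
  obtain ⟨h1, _⟩ := Finset.mem_filter.1 h
  obtain ⟨f, _, rfl⟩ := Finset.mem_image.1 h1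
  exact List.length_ofFn

theorem lawM_eds {V : Type} [Fintype V] {Q : List V} {e : Sym2 V} {u : V} (he : e ∈ eds Q)
    (hu : u ∈ e) : ∃ t : ℕ, Q[t]? = some u := by
  unfold eds at he
  obtain ⟨_, t, a, b, ha, hb, rfl⟩ := Finset.mem_filter.1 he
  rcases Sym2.mem_iff.1 hu with rfl | rfl
  · exact ⟨t, ha⟩
  · exact ⟨t + 1, hb⟩

theorem lawM_cc {V : Type} [Fintype V] {G : SimpleGraph V} {L : ℕ} {Q Q' : List V} {u : V}
    (hQ : Q ∈ paths G L) (hQ' : Q' ∈ paths G L) (hu : u ∈ vs (cc Q Q')) :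
    (∃ t ∈ range (L + 1), Q[t]? = some u) ∨ (∃ t ∈ range (L + 1), Q'[t]? = some u) := by
  unfold vs at hu
  obtain ⟨_, e, he, hue⟩ := Finset.mem_filter.1 hu
  unfold cc at he
  rcases Finset.mem_union.1 he with h | h
  · obtain ⟨h, _⟩ := Finset.mem_sdiff.1 h
    obtain ⟨t, ht⟩ := lawM_eds h hue
    left
    refine ⟨t, ?_, ht⟩
    rw [Finset.mem_range, ← lawM_len hQ]
    exact (List.getElem?_eq_some_iff.1 ht).1
  · obtain ⟨h, _⟩ := Finset.mem_sdiff.1 h
    obtain ⟨t, ht⟩ := lawM_eds h hue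
    right
    refine ⟨t, ?_, ht⟩
    rw [Finset.mem_range, ← lawM_len hQ']
    exact (List.getElem?_eq_some_iff.1 ht).1

theorem p_lawM (hsame : S_same) (hpair : S_pair) : S_lawM := by
  intro V _ G c L4 GP QQ m0 N hcub hconn hc hL4 hm0 hOm hB i0 i1 hi u v
  have hOm' : (0 : ℝ) < Fintype.card (Om GP QQ N) := by exact_mod_cast hOm
  set X : ℝ := (1 / 2) ^ (min (G.dist u v) (rr (Fintype.card V)) / 2) with hX
  have hX0 : 0 < X := by positivity
  set n : ℝ := (Fintype.card V : ℝ) with hn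
  have hn0 : 0 < n := by
    have : 0 < Fintype.card V := Fintype.card_pos_iff.2 ⟨u⟩
    rw [hn]; exact_mod_cast this
  -- every term
  set K : ℝ := 96 / c * L4 ^ 2 * X / n * Fintype.card (Om GP QQ N) with hK
  have hGP : 0 < GP.card := by
    obtain ⟨ω⟩ := Fintype.card_pos_iff.1 hOm
    exact Finset.card_pos.2 ⟨ω.1.1, ω.1.2⟩
  have hGP' : (0 : ℝ) < GP.card := by exact_mod_cast hGP
  have hterm : ∀ (a b : Fin N) (t1 t2 : ℕ),
      (((univ : Finset (Om GP QQ N)).filter fun ω =>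
        (pth ω a)[t1]? = some u ∧ (pth ω b)[t2]? = some v).card : ℝ) ≤ K := by
    intro a b t1 t2
    rcases eq_or_ne a b with rfl | hab
    · refine (hsame V G c L4 GP QQ m0 N hcub hc hB a t1 t2 u v).trans ?_
      rw [hK]
      have h1 : (64 : ℝ) / c ≤ 96 / c * L4 ^ 2 := by
        have h2 : (1 : ℝ) ≤ L4 ^ 2 := one_le_pow₀ hL4
        have h3 : (64 : ℝ) / c ≤ 96 / c := by
          apply div_le_div_of_nonneg_right _ hc.le
          norm_num
        have h4 : (0 : ℝ) ≤ 96 / c := by positivity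
        nlinarith
      gcongr
    · have h1 := prob2 (N := N) hB.card hm0 a b hab (fun _ Q => Q[t1]? = some u)
        (fun _ Q => Q[t2]? = some v) (d1 := fun _ => Classical.propDecidable _)
        (d2 := fun _ _ => Classical.propDecidable _) (d3 := fun _ _ => Classical.propDecidable _)
      have h2 := hpair V G c L4 GP QQ m0 hcub hconn hc hL4 hm0 hB t1 t2 u v
      have h3 := cf (univ : Finset (Om GP QQ N))
        (fun ω => (pth ω a)[t1]? = some u ∧ (pth ω b)[t2]? = some v)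
        (fun ω => (pth ω a)[t1]? = some u ∧ (pth ω b)[t2]? = some v)
        (hP := fun _ => instDecidableAnd)
        (hQ := fun _ => Classical.propDecidable _) (fun _ _ => Iff.rfl)
      have h4 : ∑ p ∈ GP, al QQ m0 p t1 u * al QQ m0 p t2 v =
        ∑ p ∈ GP, (((@Finset.filter _ (fun Q : List V => Q[t1]? = some u)
          (fun _ => Classical.propDecidable _) (QQ p)).card : ℝ) / m0) *
        (((@Finset.filter _ (fun Q : List V => Q[t2]? = some v)
          (fun _ => Classical.propDecidable _) (QQ p)).card : ℝ) / m0) := by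
        refine Finset.sum_congr rfl fun p _ => ?_
        unfold al
        rw [cf (QQ p) (fun Q => Q[t1]? = some u) (fun Q => Q[t1]? = some u)
          (hQ := fun _ => Classical.propDecidable _) (fun _ _ => Iff.rfl),
          cf (QQ p) (fun Q => Q[t2]? = some v) (fun Q => Q[t2]? = some v)
          (hQ := fun _ => Classical.propDecidable _) (fun _ _ => Iff.rfl)]
      rw [← h4] at h1
      have h5 := mul_le_mul_of_nonneg_right h2 hOm'.le
      rw [← h1] at h5
      have h6 : 96 / c * L4 ^ 2 * X / n * (GP.card : ℝ) * (Fintype.card (Om GP QQ N) : ℝ) =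
        K * (GP.card : ℝ) := by rw [hK]; ring
      rw [← hX, ← hn, h6] at h5
      have h7 := le_of_mul_le_mul_right h5 hGP'
      refine le_trans (le_of_eq ?_) h7
      norm_cast
  -- the union bound
  set L := LL (Fintype.card V) with hL
  set S : Finset (Finset (Sym2 V)) := (GGs G).filter (fun D => u ∈ vs D ∧ v ∈ vs D) with hS
  have h1 : (∑ D ∈ S, mu G GP QQ i0 i1 D) * Fintype.card (Om GP QQ N) =
      (((Om0 G GP QQ N).filter fun ω => cc (pth ω i0) (pth ω i1) ∈ S).card : ℝ) := by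
    rw [Finset.sum_mul]
    have h2 : ∀ D ∈ S, mu G GP QQ i0 i1 D * Fintype.card (Om GP QQ N) =
        (((Om0 G GP QQ N).filter fun ω => cc (pth ω i0) (pth ω i1) = D).card : ℝ) := by
      intro D _
      unfold mu
      rw [div_mul_cancel₀ _ hOm'.ne']
    rw [Finset.sum_congr rfl h2, ← Nat.cast_sum]
    congr 1
    rw [← Finset.card_biUnion]
    · congr 1
      ext ω
      simp only [Finset.mem_biUnion, Finset.mem_filter]
      constructor
      · rintro ⟨D, hD, h3, rfl⟩
        exact ⟨h3, hD⟩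
      · rintro ⟨h3, h4⟩
        exact ⟨_, h4, h3, rfl⟩
    · intro D _ D' _ hDD
      refine Finset.disjoint_left.2 ?_
      intro ω h3 h4
      exact hDD ((Finset.mem_filter.1 h3).2.symm.trans (Finset.mem_filter.1 h4).2)
  set I : Finset (Fin N) := {i0, i1} with hI
  have hIcard : I.card ≤ 2 := Finset.card_le_two
  set J : Finset ((Fin N × Fin N) × (ℕ × ℕ)) := (I ×ˢ I) ×ˢ (range (L + 1) ×ˢ range (L + 1)) with hJ
  have hJcard : (J.card : ℝ) ≤ 4 * (L + 1) ^ 2 := by
    have h2 : J.card ≤ 4 * (L + 1) ^ 2 := by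
      rw [hJ, Finset.card_product, Finset.card_product, Finset.card_product, Finset.card_range]
      have h3 : I.card * I.card ≤ 2 * 2 := Nat.mul_le_mul hIcard hIcard
      calc I.card * I.card * ((L + 1) * (L + 1)) ≤ (2 * 2) * ((L + 1) * (L + 1)) :=
            Nat.mul_le_mul_right _ h3
        _ = 4 * (L + 1) ^ 2 := by ring
    have h3 : (J.card : ℝ) ≤ ((4 * (L + 1) ^ 2 : ℕ) : ℝ) := by exact_mod_cast h2
    refine h3.trans (le_of_eq ?_)
    push_cast
    ring
  have hpath : ∀ (ω : Om GP QQ N) (a : Fin N), pth ω a ∈ paths G L := by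
    intro ω a
    exact (hB.good ω.1.1 ω.1.2 _ (ω.2 a).2).path
  have h2 : ((Om0 G GP QQ N).filter fun ω => cc (pth ω i0) (pth ω i1) ∈ S) ⊆
      J.biUnion fun j => (univ : Finset (Om GP QQ N)).filter fun ω =>
        (pth ω j.1.1)[j.2.1]? = some u ∧ (pth ω j.1.2)[j.2.2]? = some v := by
    intro ω hω
    obtain ⟨_, hω⟩ := Finset.mem_filter.1 hω
    obtain ⟨_, hu, hv⟩ := Finset.mem_filter.1 hω
    have h3 : ∃ a ∈ I, ∃ t ∈ range (L + 1), (pth ω a)[t]? = some u := by
      rcases lawM_cc (hpath ω i0) (hpath ω i1) hu with ⟨t, ht, h⟩ | ⟨t, ht, h⟩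
      · exact ⟨i0, Finset.mem_insert_self _ _, t, ht, h⟩
      · exact ⟨i1, Finset.mem_insert_of_mem (Finset.mem_singleton_self _), t, ht, h⟩
    have h4 : ∃ a ∈ I, ∃ t ∈ range (L + 1), (pth ω a)[t]? = some v := by
      rcases lawM_cc (hpath ω i0) (hpath ω i1) hv with ⟨t, ht, h⟩ | ⟨t, ht, h⟩
      · exact ⟨i0, Finset.mem_insert_self _ _, t, ht, h⟩
      · exact ⟨i1, Finset.mem_insert_of_mem (Finset.mem_singleton_self _), t, ht, h⟩
    obtain ⟨a, ha, t1, ht1, h3⟩ := h3
    obtain ⟨b, hb, t2, ht2, h4⟩ := h4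
    refine Finset.mem_biUnion.2 ⟨((a, b), (t1, t2)), ?_, ?_⟩
    · exact Finset.mem_product.2 ⟨Finset.mem_product.2 ⟨ha, hb⟩, Finset.mem_product.2 ⟨ht1, ht2⟩⟩
    · exact Finset.mem_filter.2 ⟨Finset.mem_univ _, h3, h4⟩
  have h3 : (((Om0 G GP QQ N).filter fun ω => cc (pth ω i0) (pth ω i1) ∈ S).card : ℝ) ≤
      ∑ j ∈ J, (((univ : Finset (Om GP QQ N)).filter fun ω =>
        (pth ω j.1.1)[j.2.1]? = some u ∧ (pth ω j.1.2)[j.2.2]? = some v).card : ℝ) := by
    have h4 := (Finset.card_le_card h2).trans Finset.card_biUnion_le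
    exact_mod_cast h4
  have h4 : (((Om0 G GP QQ N).filter fun ω => cc (pth ω i0) (pth ω i1) ∈ S).card : ℝ) ≤
      4 * (L + 1) ^ 2 * K := by
    refine h3.trans ?_
    refine (Finset.sum_le_card_nsmul J _ K fun j _ => hterm _ _ _ _).trans ?_
    rw [nsmul_eq_mul]
    exact mul_le_mul_of_nonneg_right hJcard (by positivity)
  rw [← h1] at h4
  have h5 : 4 * ((L : ℝ) + 1) ^ 2 * K = ((4 * ((L : ℝ) + 1) ^ 2 * (96 / c * L4 ^ 2)) * X / n) *
      (Fintype.card (Om GP QQ N) : ℝ) := by rw [hK]; ring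
  rw [h5] at h4
  exact le_of_mul_le_mul_right h4 hOm'

end Pool.Agent.Lib.MP_fce888_co.S
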