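import Pool.Agent.Lib.MP_fce888_co.S.StmFG

set_option autoImplicit false

/-!
# MP_fce888_co, [SF pair]: two different paths through two given vertices
-/

namespace Pool.Agent.Lib.MP_fce888_co.S

open Finset Pool.Agent.Lib.MP_fce888_co
open scoped Classical

private theorem len_paths {V : Type} [Fintype V] {G : SimpleGraph V} {t : ℕ} {l : List V}
    (h : l ∈ paths G t) : l.length = t + 1 := by
  unfold paths at h
  obtain ⟨h1, -⟩ := mem_filter.1 h
  obtain ⟨f, -, rfl⟩ := mem_image.1 h1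
  exact List.length_ofFn

private theorem half_anti {a b : ℕ} (h : a ≤ b) : ((1 : ℝ) / 2) ^ b ≤ (1 / 2) ^ a :=
  pow_le_pow_of_le_one (by norm_num) (by norm_num) h

private theorem two_half (a : ℕ) : (2 : ℝ) ^ (a + 1) * (1 / 2) ^ a = 2 := by
  rw [pow_succ, mul_right_comm, ← mul_pow]
  norm_num

theorem p_pair : S_suma → S_cntA → S_pair := by
  intro hsuma hcntA V _ G c L4 GP QQ m0 hcub hconn hc hL4 hm0 hB
  set n := Fintype.card V with hn
  set L := LL n with hL
  set r := rr n with hr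
  have hLL : L = 3 * lam n + 3 := rfl
  have hrr : r = lam n / 250 := rfl
  have h2r : 2 * r ≤ L := by omega
  have hm0' : (0 : ℝ) < m0 := by exact_mod_cast hm0
  have hL40 : 0 < L4 := by linarith
  have hsq : L4 ≤ L4 ^ 2 := by nlinarith
  -- bounds for `al`
  have al0 : ∀ p t w, 0 ≤ al QQ m0 p t w := by
    intro p t w
    unfold al
    positivity
  have alB : ∀ p ∈ GP, ∀ t ≤ L, ∀ w, al QQ m0 p t w ≤ L4 * bet n t := by
    intro p hp t ht w
    unfold al
    rw [div_le_iff₀ hm0']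
    have := hB.flat p hp t ht w
    rw [← hn] at this
    nlinarith
  have alZ : ∀ p ∈ GP, ∀ t, L < t → ∀ w, al QQ m0 p t w = 0 := by
    intro p hp t ht w
    unfold al
    have : (QQ p).filter (fun Q => Q[t]? = some w) = ∅ := by
      rw [filter_eq_empty_iff]
      intro Q hQ h
      have h1 := len_paths (hB.good p hp Q hQ).path
      rw [← hn] at h1
      rw [List.getElem?_eq_some_iff] at h
      obtain ⟨h2, -⟩ := h
      omega
    rw [this]
    simp
  have core : ∀ (t1 t2 : ℕ) (u v : V), t1 ≤ t2 →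
      ∑ p ∈ GP, al QQ m0 p t1 u * al QQ m0 p t2 v ≤
        96 * L4 ^ 2 * (1 / 2) ^ (min (G.dist u v) r / 2) * n := by
    intro t1 t2 u v h12
    have hn1 : 1 ≤ n := Fintype.card_pos_iff.2 ⟨u⟩
    have hnR : (1 : ℝ) ≤ n := by exact_mod_cast hn1
    have hlog : 2 ^ lam n ≤ n := Nat.pow_log_le_self 2 (by omega)
    have hlogR : (2 : ℝ) ^ lam n ≤ n := by exact_mod_cast hlog
    have hinv : 1 / (n : ℝ) ≤ (1 / 2) ^ lam n := by
      rw [one_div_pow]
      exact one_div_le_one_div_of_le (by positivity) hlogR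
    set X : ℝ := (1 / 2) ^ (min (G.dist u v) r / 2) with hX
    have hX0 : 0 < X := by positivity
    have hXr : (1 / 2 : ℝ) ^ r ≤ X := by
      refine half_anti ?_
      have := min_le_right (G.dist u v) r
      omega
    have hXn : 1 ≤ X * n := by
      have h1 : (1 / 2 : ℝ) ^ lam n ≤ X := le_trans (half_anti (by omega)) hXr
      have h2 : (1 / 2 : ℝ) ^ lam n * 2 ^ lam n = 1 := by
        rw [← mul_pow]
        norm_num
      calc (1 : ℝ) = (1 / 2 : ℝ) ^ lam n * 2 ^ lam n := h2.symm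
        _ ≤ X * n := mul_le_mul h1 hlogR (by positivity) hX0.le
    -- bounds for `bet`
    have bM : ∀ t, r ≤ t → t + r ≤ L → bet n t ≤ 3 * (1 / 2) ^ r := by
      intro t h1 h2
      unfold bet
      have e1 : ((1 : ℝ) / 2) ^ t ≤ (1 / 2) ^ r := half_anti h1
      have e2 : ((1 : ℝ) / 2) ^ (LL n - t) ≤ (1 / 2) ^ r := half_anti (by omega)
      have e3 : ((1 : ℝ) / 2) ^ lam n ≤ (1 / 2) ^ r := half_anti (by omega)
      linarith
    have bS : ∀ t, t < r → bet n t ≤ 3 * (1 / 2) ^ t := by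
      intro t h1
      unfold bet
      have e2 : ((1 : ℝ) / 2) ^ (LL n - t) ≤ (1 / 2) ^ t := half_anti (by omega)
      have e3 : ((1 : ℝ) / 2) ^ lam n ≤ (1 / 2) ^ t := half_anti (by omega)
      linarith
    have bE : ∀ t, L < t + r → t ≤ L → bet n t ≤ 3 * (1 / 2) ^ (L - t) := by
      intro t h1 h2
      unfold bet
      have e2 : ((1 : ℝ) / 2) ^ t ≤ (1 / 2) ^ (LL n - t) := half_anti (by omega)
      have e3 : ((1 : ℝ) / 2) ^ lam n ≤ (1 / 2) ^ (LL n - t) := half_anti (by omega)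
      rw [hL]
      linarith
    -- the support
    set S := GP.filter (fun p => al QQ m0 p t1 u ≠ 0 ∧ al QQ m0 p t2 v ≠ 0) with hS
    have mS : ∀ p, p ∈ S ↔ p ∈ GP ∧ al QQ m0 p t1 u ≠ 0 ∧ al QQ m0 p t2 v ≠ 0 := by
      intro p
      rw [hS, mem_filter]
    have sumS : ∀ K B : ℝ, (S.card : ℝ) ≤ K → 0 ≤ B →
        (∀ p ∈ GP, al QQ m0 p t1 u * al QQ m0 p t2 v ≤ B) →
        ∑ p ∈ GP, al QQ m0 p t1 u * al QQ m0 p t2 v ≤ K * B := by
      intro K B hK hB0 hle
      have e1 : ∑ p ∈ GP, al QQ m0 p t1 u * al QQ m0 p t2 v =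
          ∑ p ∈ S, al QQ m0 p t1 u * al QQ m0 p t2 v := by
        rw [hS]
        symm
        refine sum_filter_of_ne ?_
        intro p hp hne
        exact ⟨left_ne_zero_of_mul hne, right_ne_zero_of_mul hne⟩
      rw [e1]
      have e2 : ∑ p ∈ S, al QQ m0 p t1 u * al QQ m0 p t2 v ≤ S.card • B :=
        sum_le_card_nsmul _ _ _ (fun p hp => hle p ((mS p).1 hp).1)
      rw [nsmul_eq_mul] at e2
      exact e2.trans (mul_le_mul_of_nonneg_right hK hB0)
    have sum0 : S = ∅ → ∑ p ∈ GP, al QQ m0 p t1 u * al QQ m0 p t2 v ≤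
        96 * L4 ^ 2 * X * n := by
      intro h
      have h1 : ∑ p ∈ GP, al QQ m0 p t1 u * al QQ m0 p t2 v = 0 := by
        refine sum_eq_zero ?_
        intro p hp
        by_contra hne
        have : p ∈ S := (mS p).2 ⟨hp, left_ne_zero_of_mul hne, right_ne_zero_of_mul hne⟩
        rw [h] at this
        exact absurd this (notMem_empty _)
      rw [h1]
      positivity
    by_cases hbig : L < t2
    · apply sum0
      rw [eq_empty_iff_forall_notMem]
      intro p hp
      exact ((mS p).1 hp).2.2 (alZ p ((mS p).1 hp).1 t2 hbig v)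
    have ht2L : t2 ≤ L := by omega
    have ht1L : t1 ≤ L := by omega
    -- middle positions
    have mid2 : ∀ (t t' : ℕ) (w w' : V), r ≤ t' → t' + r ≤ L →
        ∑ p ∈ GP, al QQ m0 p t w * al QQ m0 p t' w' ≤ 96 * L4 ^ 2 * X * n := by
      intro t t' w w' h1 h2
      have e1 : ∑ p ∈ GP, al QQ m0 p t w * al QQ m0 p t' w' ≤
          ∑ p ∈ GP, al QQ m0 p t w * (L4 * (3 * (1 / 2) ^ r)) := by
        refine sum_le_sum ?_
        intro p hp
        refine mul_le_mul_of_nonneg_left ?_ (al0 _ _ _)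
        exact (alB p hp t' (by omega) w').trans (mul_le_mul_of_nonneg_left (bM t' h1 h2) hL40.le)
      rw [← sum_mul] at e1
      have e2 := hsuma V G c L4 GP QQ m0 hcub hB t w
      rw [← hn] at e2
      have e3 : (∑ p ∈ GP, al QQ m0 p t w) * (L4 * (3 * (1 / 2) ^ r)) ≤
          (32 * n) * (L4 * (3 * (1 / 2) ^ r)) := mul_le_mul_of_nonneg_right e2 (by positivity)
      have e4 : L4 * (1 / 2 : ℝ) ^ r ≤ L4 ^ 2 * X := mul_le_mul hsq hXr (by positivity) (by positivity)
      calc _ ≤ _ := e1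
        _ ≤ _ := e3
        _ = 96 * n * (L4 * (1 / 2 : ℝ) ^ r) := by ring
        _ ≤ 96 * n * (L4 ^ 2 * X) := mul_le_mul_of_nonneg_left e4 (by positivity)
        _ = 96 * L4 ^ 2 * X * n := by ring
    by_cases hm2 : r ≤ t2 ∧ t2 + r ≤ L
    · exact mid2 t1 t2 u v hm2.1 hm2.2
    by_cases hm1 : r ≤ t1 ∧ t1 + r ≤ L
    · have := mid2 t2 t1 v u hm1.1 hm1.2
      rw [sum_congr rfl (fun p _ => mul_comm (al QQ m0 p t1 u) (al QQ m0 p t2 v))]
      exact this
    obtain ⟨a1, a2, a3⟩ := hcntA V G c L4 GP QQ m0 hcub hB t1 u ht1L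
    obtain ⟨b1, b2, b3⟩ := hcntA V G c L4 GP QQ m0 hcub hB t2 v ht2L
    rw [← hn, ← hL] at a2 b2
    rw [← hn, ← hL] at a3 b3
    set A := (univ : Finset V).filter (fun a => ∃ b, (a, b) ∈ GP ∧ al QQ m0 (a, b) t1 u ≠ 0)
    set B := (univ : Finset V).filter (fun b => ∃ a, (a, b) ∈ GP ∧ al QQ m0 (a, b) t2 v ≠ 0)
    have hSA : S ⊆ A ×ˢ B := by
      intro p hp
      obtain ⟨p1, p2⟩ := p
      obtain ⟨h1, h2, h3⟩ := (mS _).1 hp
      exact mem_product.2 ⟨mem_filter.2 ⟨mem_univ _, p2, h1, h2⟩,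
        mem_filter.2 ⟨mem_univ _, p1, h1, h3⟩⟩
    have hSc : S.card ≤ A.card * B.card := by
      have := card_le_card hSA
      rwa [card_product] at this
    have hAn : A.card ≤ n := card_le_univ _
    have hBn : B.card ≤ n := card_le_univ _
    rcases S.eq_empty_or_nonempty with hSe | ⟨p0, hp0⟩
    · exact sum0 hSe
    obtain ⟨g1, g2, g3⟩ := (mS p0).1 hp0
    have da := a3 p0 g1 g2
    have db := b3 p0 g1 g3
    by_cases hc1 : t2 < r
    · -- both at the beginning
      have hK : (S.card : ℝ) ≤ 2 ^ (t1 + 1) * n := by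
        have : S.card ≤ 2 ^ (t1 + 1) * n := hSc.trans (Nat.mul_le_mul a1 hBn)
        exact_mod_cast this
      have hd : G.dist u v ≤ t1 + t2 := by
        have := hconn.dist_triangle (u := u) (v := p0.1) (w := v)
        rw [SimpleGraph.dist_comm (u := u) (v := p0.1)] at this
        omega
      have hXt : (1 / 2 : ℝ) ^ t2 ≤ X := by
        refine half_anti ?_
        have := min_le_left (G.dist u v) r
        omega
      have h1 := sumS (2 ^ (t1 + 1) * n) ((L4 * (3 * (1 / 2) ^ t1)) * (L4 * (3 * (1 / 2) ^ t2))) hK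
        (by positivity) (by
          intro p hp
          refine mul_le_mul ?_ ?_ (al0 _ _ _) (by positivity)
          · exact (alB p hp t1 ht1L u).trans (mul_le_mul_of_nonneg_left (bS t1 (by omega)) hL40.le)
          · exact (alB p hp t2 ht2L v).trans (mul_le_mul_of_nonneg_left (bS t2 (by omega)) hL40.le))
      calc _ ≤ _ := h1
        _ = (2 ^ (t1 + 1) * (1 / 2) ^ t1) * (9 * n * L4 ^ 2 * (1 / 2 : ℝ) ^ t2) := by ring
        _ = 18 * n * L4 ^ 2 * (1 / 2 : ℝ) ^ t2 := by rw [two_half]; ring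
        _ ≤ 18 * n * L4 ^ 2 * X := mul_le_mul_of_nonneg_left hXt (by positivity)
        _ ≤ 96 * L4 ^ 2 * X * n := by
          have : 0 ≤ (n : ℝ) * L4 ^ 2 * X := by positivity
          nlinarith
    by_cases hc2 : t1 < r
    · -- the beginning and the end
      have hK : (S.card : ℝ) ≤ 2 ^ (t1 + 1) * 2 ^ (L - t2 + 1) := by
        have : S.card ≤ 2 ^ (t1 + 1) * 2 ^ (L - t2 + 1) := hSc.trans (Nat.mul_le_mul a1 b2)
        exact_mod_cast this
      have h1 := sumS (2 ^ (t1 + 1) * 2 ^ (L - t2 + 1))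
        ((L4 * (3 * (1 / 2) ^ t1)) * (L4 * (3 * (1 / 2) ^ (L - t2)))) hK
        (by positivity) (by
          intro p hp
          refine mul_le_mul ?_ ?_ (al0 _ _ _) (by positivity)
          · exact (alB p hp t1 ht1L u).trans (mul_le_mul_of_nonneg_left (bS t1 (by omega)) hL40.le)
          · exact (alB p hp t2 ht2L v).trans (mul_le_mul_of_nonneg_left (bE t2 (by omega) ht2L)
              hL40.le))
      calc _ ≤ _ := h1
        _ = (2 ^ (t1 + 1) * (1 / 2) ^ t1) * (2 ^ (L - t2 + 1) * (1 / 2 : ℝ) ^ (L - t2)) *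
            (9 * L4 ^ 2) := by ring
        _ = 36 * L4 ^ 2 * 1 := by rw [two_half, two_half]; ring
        _ ≤ 36 * L4 ^ 2 * (X * n) := mul_le_mul_of_nonneg_left hXn (by positivity)
        _ ≤ 96 * L4 ^ 2 * X * n := by
          have : 0 ≤ (n : ℝ) * L4 ^ 2 * X := by positivity
          nlinarith
    · -- both at the end
      have hK : (S.card : ℝ) ≤ n * 2 ^ (L - t2 + 1) := by
        have : S.card ≤ n * 2 ^ (L - t2 + 1) := hSc.trans (Nat.mul_le_mul hAn b2)
        exact_mod_cast this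
      have hd : G.dist u v ≤ (L - t1) + (L - t2) := by
        have := hconn.dist_triangle (u := u) (v := p0.2) (w := v)
        rw [SimpleGraph.dist_comm (u := p0.2) (v := v)] at this
        omega
      have hXt : (1 / 2 : ℝ) ^ (L - t1) ≤ X := by
        refine half_anti ?_
        have := min_le_left (G.dist u v) r
        omega
      have h1 := sumS (n * 2 ^ (L - t2 + 1))
        ((L4 * (3 * (1 / 2) ^ (L - t1))) * (L4 * (3 * (1 / 2) ^ (L - t2)))) hK
        (by positivity) (by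
          intro p hp
          refine mul_le_mul ?_ ?_ (al0 _ _ _) (by positivity)
          · exact (alB p hp t1 ht1L u).trans (mul_le_mul_of_nonneg_left (bE t1 (by omega) ht1L)
              hL40.le)
          · exact (alB p hp t2 ht2L v).trans (mul_le_mul_of_nonneg_left (bE t2 (by omega) ht2L)
              hL40.le))
      calc _ ≤ _ := h1
        _ = (2 ^ (L - t2 + 1) * (1 / 2 : ℝ) ^ (L - t2)) *
            (9 * n * L4 ^ 2 * (1 / 2 : ℝ) ^ (L - t1)) := by ring
        _ = 18 * n * L4 ^ 2 * (1 / 2 : ℝ) ^ (L - t1) := by rw [two_half]; ring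
        _ ≤ 18 * n * L4 ^ 2 * X := mul_le_mul_of_nonneg_left hXt (by positivity)
        _ ≤ 96 * L4 ^ 2 * X * n := by
          have : 0 ≤ (n : ℝ) * L4 ^ 2 * X := by positivity
          nlinarith
  intro t1 t2 u v
  have hmain : ∑ p ∈ GP, al QQ m0 p t1 u * al QQ m0 p t2 v ≤
        96 * L4 ^ 2 * (1 / 2) ^ (min (G.dist u v) r / 2) * n := by
    rcases le_total t1 t2 with h | h
    · exact core t1 t2 u v h
    · have := core t2 t1 v u h
      rw [SimpleGraph.dist_comm] at this
      rw [sum_congr rfl (fun p _ => mul_comm (al QQ m0 p t1 u) (al QQ m0 p t2 v))]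
      exact this
  refine hmain.trans ?_
  have hn1 : 1 ≤ n := Fintype.card_pos_iff.2 ⟨u⟩
  have hnR : (1 : ℝ) ≤ n := by exact_mod_cast hn1
  have hgp := hB.gp
  rw [← hn] at hgp
  set X : ℝ := (1 / 2) ^ (min (G.dist u v) r / 2) with hX
  have hX0 : 0 < X := by positivity
  calc 96 * L4 ^ 2 * X * n = 96 / c * L4 ^ 2 * X / n * (c * (n : ℝ) ^ 2) := by
        field_simp
    _ ≤ 96 / c * L4 ^ 2 * X / n * GP.card := mul_le_mul_of_nonneg_left hgp (by positivity)

end Pool.Agent.Lib.MP_fce888_co.S
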