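import Pool.Agent.Lib.MP_fce888_co.S.StmFG

set_option autoImplicit false

/-!
# MP_fce888_co, [SF perm]: symmetry of the law of the random structure
-/

namespace Pool.Agent.Lib.MP_fce888_co.S

open Finset Pool.Agent.Lib.MP_fce888_co
open scoped Classical

/-- the action of a permutation of the indices on the sample space -/
private def actP {V : Type} [Fintype V] {GP : Finset (V × V)} {QQ : V × V → Finset (List V)}
    {N : ℕ} (σ : Equiv.Perm (Fin N)) (ω : Om GP QQ N) : Om GP QQ N :=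
  ⟨ω.1, fun j => ω.2 (σ j)⟩

private lemma pth_actP {V : Type} [Fintype V] {GP : Finset (V × V)}
    {QQ : V × V → Finset (List V)} {N : ℕ} (σ : Equiv.Perm (Fin N)) (ω : Om GP QQ N)
    (j : Fin N) : pth (actP σ ω) j = pth ω (σ j) := rfl

private lemma actP_actP {V : Type} [Fintype V] {GP : Finset (V × V)}
    {QQ : V × V → Finset (List V)} {N : ℕ} (σ τ : Equiv.Perm (Fin N)) (ω : Om GP QQ N)
    (h : ∀ j, τ (σ j) = j) : actP σ (actP τ ω) = ω := by
  obtain ⟨p, f⟩ := ω
  unfold actP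
  congr 1
  funext j
  show f (τ (σ j)) = f j
  rw [h j]

private lemma actP_mem {V : Type} [Fintype V] (G : SimpleGraph V) {GP : Finset (V × V)}
    {QQ : V × V → Finset (List V)} {N : ℕ} (σ : Equiv.Perm (Fin N)) (ω : Om GP QQ N)
    (h : ω ∈ Om0 G GP QQ N) : actP σ ω ∈ Om0 G GP QQ N := by
  unfold Om0 at h ⊢
  rw [mem_filter] at h ⊢
  refine ⟨mem_univ _, fun i j hij => ?_⟩
  rw [pth_actP, pth_actP]
  exact h.2 _ _ fun hh => hij (σ.injective hh)

theorem p_perm : S_perm := by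
  intro V _ G GP QQ N i0 i1 i k h01 hik A
  -- the permutation
  obtain ⟨σ, hσ0, hσ1⟩ : ∃ σ : Equiv.Perm (Fin N), σ i0 = i ∧ σ i1 = k := by
    refine ⟨Equiv.swap (Equiv.swap i0 i i1) k * Equiv.swap i0 i, ?_, ?_⟩
    · rw [Equiv.Perm.mul_apply, Equiv.swap_apply_left]
      apply Equiv.swap_apply_of_ne_of_ne _ hik
      intro h
      have h2 : Equiv.swap i0 i i0 = Equiv.swap i0 i i1 := by
        rw [Equiv.swap_apply_left]; exact h
      exact h01 ((Equiv.swap i0 i).injective h2)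
    · rw [Equiv.Perm.mul_apply, Equiv.swap_apply_left]
  refine Finset.card_nbij' (actP σ) (actP σ⁻¹) ?_ ?_ ?_ ?_
  · intro ω hω
    rw [mem_coe, mem_filter] at hω ⊢
    refine ⟨actP_mem G σ ω hω.1, ?_⟩
    rw [pth_actP, pth_actP, hσ0, hσ1]
    exact hω.2
  · intro ω hω
    rw [mem_coe, mem_filter] at hω ⊢
    refine ⟨actP_mem G σ⁻¹ ω hω.1, ?_⟩
    rw [pth_actP, pth_actP]
    have e0 : σ⁻¹ i = i0 := by rw [← hσ0]; exact σ.symm_apply_apply i0
    have e1 : σ⁻¹ k = i1 := by rw [← hσ1]; exact σ.symm_apply_apply i1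
    rw [e0, e1]
    exact hω.2
  · intro ω _
    exact actP_actP σ⁻¹ σ ω fun j => σ.apply_symm_apply j
  · intro ω _
    exact actP_actP σ σ⁻¹ ω fun j => σ.symm_apply_apply j

end Pool.Agent.Lib.MP_fce888_co.S
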