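import Pool.Agent.Lib.MP_fce888_co.S.StmFG
import Pool.Agent.Lib.MP_fce888_co.S.Prob

set_option autoImplicit false

/-!
# MP_fce888_co, [SF same]: two vertices on the same random path
-/

namespace Pool.Agent.Lib.MP_fce888_co.S

open Finset Pool.Agent.Lib.MP_fce888_co
open scoped Classical

private theorem len_paths' {V : Type} [Fintype V] {G : SimpleGraph V} {t : ℕ} {l : List V}
    (h : l ∈ paths G t) : l.length = t + 1 := by
  unfold paths at h
  obtain ⟨h1, -⟩ := mem_filter.1 h
  obtain ⟨f, -, rfl⟩ := mem_image.1 h1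
  exact List.length_ofFn

private theorem card_AA (h2 : S_two) {V : Type} [Fintype V] (G : SimpleGraph V)
    (hcub : ∀ v, (G.neighborSet v).ncard = 3) (L R t1 t2 : ℕ) (u v : V) :
    ((paths G L).filter fun Q => (∀ x ∈ Q, UP G R x) ∧ Q[t1]? = some u ∧ Q[t2]? = some v).card *
      2 ^ (min (G.dist u v) R) ≤ 8 * 2 ^ L := by
  by_cases h : t1 ≤ L ∧ t2 ≤ L
  · rcases Nat.le_total t1 t2 with h12 | h21
    · exact h2 V G hcub L R t1 t2 u v h12 h.2
    · have h3 := h2 V G hcub L R t2 t1 v u h21 h.1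
      rw [SimpleGraph.dist_comm] at h3
      refine le_trans (Nat.mul_le_mul_right _ (card_le_card fun Q hQ => ?_)) h3
      rw [mem_filter] at hQ ⊢
      exact ⟨hQ.1, hQ.2.1, hQ.2.2.2, hQ.2.2.1⟩
  · have h3 : ((paths G L).filter fun Q => (∀ x ∈ Q, UP G R x) ∧ Q[t1]? = some u ∧
        Q[t2]? = some v) = ∅ := by
      rw [filter_eq_empty_iff]
      rintro Q hQ ⟨-, h4, h5⟩
      have h6 := len_paths' hQ
      obtain ⟨h7, -⟩ := List.getElem?_eq_some_iff.1 h4
      obtain ⟨h8, -⟩ := List.getElem?_eq_some_iff.1 h5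
      apply h
      omega
    rw [h3, card_empty, zero_mul]
    exact Nat.zero_le _

theorem p_same : S_two → S_same := by
  intro h2 V _ G c L4 GP QQ m0 N hcub hc hB i t1 t2 u v
  have hn : 0 < Fintype.card V := Fintype.card_pos_iff.2 ⟨u⟩
  obtain ⟨AA, hAA⟩ : ∃ AA, AA = ((paths G (LL (Fintype.card V))).filter fun Q =>
      (∀ x ∈ Q, UP G (R0 (Fintype.card V)) x) ∧ Q[t1]? = some u ∧ Q[t2]? = some v) := ⟨_, rfl⟩
  have h3 := card_AA h2 G hcub (LL (Fintype.card V)) (R0 (Fintype.card V)) t1 t2 u v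
  rw [← hAA] at h3
  have h4 : ((univ : Finset (Om GP QQ N)).filter fun ω =>
      (pth ω i)[t1]? = some u ∧ (pth ω i)[t2]? = some v).card ≤
      ((univ : Finset (Om GP QQ N)).filter fun ω => pth ω i ∈ AA).card := by
    apply card_le_card
    intro ω hω
    rw [mem_filter] at hω ⊢
    refine ⟨mem_univ _, ?_⟩
    have hg := hB.good ω.1.1 ω.1.2 (pth ω i) (ω.2 i).2
    rw [hAA, mem_filter]
    exact ⟨hg.path, hg.up, hω.2.1, hω.2.2⟩
  have h5 := prob1' hB hc hn i AA (d1 := fun _ => Classical.propDecidable _)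
  have h6 : (((univ : Finset (Om GP QQ N)).filter fun ω =>
      (pth ω i)[t1]? = some u ∧ (pth ω i)[t2]? = some v).card : ℝ) ≤
      (((univ : Finset (Om GP QQ N)).filter fun ω => pth ω i ∈ AA).card : ℝ) := by
    exact_mod_cast h4
  refine h6.trans (le_trans (le_of_eq ?_) (h5.trans ?_))
  · congr 1
    exact cf _ _ _ fun _ _ => Iff.rfl
  · refine mul_le_mul_of_nonneg_right ?_ (Nat.cast_nonneg _)
    have hn' : (0 : ℝ) < Fintype.card V := by exact_mod_cast hn
    obtain ⟨d, hd⟩ : ∃ d, d = min (G.dist u v) (R0 (Fintype.card V)) := ⟨_, rfl⟩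
    rw [← hd] at h3
    have h7 : (AA.card : ℝ) ≤ 8 * 2 ^ LL (Fintype.card V) * (1 / 2) ^ d := by
      have h8 : (AA.card : ℝ) * 2 ^ d ≤ 8 * 2 ^ LL (Fintype.card V) := by exact_mod_cast h3
      rw [one_div, inv_pow, ← div_eq_mul_inv, le_div_iff₀ (by positivity)]
      exact h8
    have h8 : ((1 : ℝ) / 2) ^ d ≤ (1 / 2) ^ (min (G.dist u v) (rr (Fintype.card V)) / 2) := by
      apply pow_le_pow_of_le_one (by norm_num) (by norm_num)
      rw [hd]
      have : rr (Fintype.card V) ≤ R0 (Fintype.card V) := by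
        unfold rr R0
        omega
      omega
    calc 8 / c * AA.card / (Fintype.card V * 2 ^ LL (Fintype.card V))
        ≤ 8 / c * (8 * 2 ^ LL (Fintype.card V) *
            (1 / 2) ^ (min (G.dist u v) (rr (Fintype.card V)) / 2)) /
            (Fintype.card V * 2 ^ LL (Fintype.card V)) := by
          refine div_le_div_of_nonneg_right ?_ (by positivity)
          refine mul_le_mul_of_nonneg_left ?_ (by positivity)
          exact h7.trans (mul_le_mul_of_nonneg_left h8 (by positivity))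
      _ = 64 / c * (1 / 2) ^ (min (G.dist u v) (rr (Fintype.card V)) / 2) /
            Fintype.card V := by
          field_simp
          ring

end Pool.Agent.Lib.MP_fce888_co.S
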