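import Pool.Agent.Lib.MP_fce888_co.S.StmFG

set_option autoImplicit false

/-!
# MP_fce888_co, [SF suma]: sum over the pairs of the proportion of paths through `u` at position `t`
-/

namespace Pool.Agent.Lib.MP_fce888_co.S

open Finset Pool.Agent.Lib.MP_fce888_co
open scoped Classical

private lemma mem_paths_suma {V : Type} [Fintype V] (G : SimpleGraph V) (t : ℕ) (Q : List V) :
    Q ∈ paths G t ↔ Q.length = t + 1 ∧ IsPL G Q := by
  unfold paths lists
  rw [mem_filter, mem_image]
  constructor
  · rintro ⟨⟨f, _, rfl⟩, h⟩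
    exact ⟨List.length_ofFn, h⟩
  · rintro ⟨h1, h2⟩
    refine ⟨⟨fun i => Q.get (i.cast h1.symm), mem_univ _, ?_⟩, h2⟩
    apply List.ext_getElem
    · rw [List.length_ofFn, h1]
    · intro n h3 h4
      rw [List.getElem_ofFn]
      rfl

theorem p_suma : S_seg → S_suma := by
  intro hseg V _ G c L4 GP QQ m0 hcub hB t u
  have hn : 0 < Fintype.card V := Fintype.card_pos_iff.mpr ⟨u⟩
  have hn' : (0 : ℝ) < Fintype.card V := by exact_mod_cast hn
  have hL : (0 : ℝ) < 2 ^ LL (Fintype.card V) := by positivity
  have hm0 : (0 : ℝ) < m0 := lt_of_lt_of_le (by positivity) hB.m0_low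
  -- the total number
  have hcard : (∑ p ∈ GP, ((QQ p).filter fun Q => Q[t]? = some u).card) ≤
      4 * 2 ^ LL (Fintype.card V) := by
    rw [← card_biUnion]
    · by_cases ht : t ≤ LL (Fintype.card V)
      · have h1 := hseg V G hcub (LL (Fintype.card V)) t t (List.replicate (t + 1) u) le_rfl ht
        have h2 : 2 ^ (t + 1) * 2 ^ (LL (Fintype.card V) - t + 1) =
            4 * 2 ^ LL (Fintype.card V) := by
          rw [← pow_add, show t + 1 + (LL (Fintype.card V) - t + 1) = LL (Fintype.card V) + 2 by
            omega, pow_add]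
          ring
        rw [h2] at h1
        refine le_trans (card_le_card ?_) h1
        intro Q hQ
        rw [mem_biUnion] at hQ
        obtain ⟨p, hp, hQ⟩ := hQ
        rw [mem_filter] at hQ ⊢
        refine ⟨(hB.good p hp Q hQ.1).path, fun t' h3 h4 => ?_⟩
        have h5 : t' = t := le_antisymm h4 h3
        subst h5
        rw [hQ.2, List.getElem?_replicate, if_pos (Nat.lt_succ_self _)]
      · have h1 : (GP.biUnion fun p => (QQ p).filter fun Q => Q[t]? = some u) = ∅ := by
          rw [Finset.eq_empty_iff_forall_notMem]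
          intro Q hQ
          rw [mem_biUnion] at hQ
          obtain ⟨p, hp, hQ⟩ := hQ
          rw [mem_filter] at hQ
          have h2 := ((mem_paths_suma G _ Q).mp (hB.good p hp Q hQ.1).path).1
          have h3 : Q[t]? = none := by
            rw [List.getElem?_eq_none_iff]; omega
          rw [h3] at hQ
          exact absurd hQ.2 (by simp)
        rw [h1, card_empty]
        exact Nat.zero_le _
    · intro p hp q hq hpq
      rw [Function.onFun, Finset.disjoint_left]
      intro Q hQ hQ'
      rw [mem_filter] at hQ hQ'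
      apply hpq
      have a1 := hB.head p hp Q hQ.1
      have a2 := hB.head q hq Q hQ'.1
      have b1 := hB.last p hp Q hQ.1
      have b2 := hB.last q hq Q hQ'.1
      rw [a1] at a2
      rw [b1] at b2
      exact Prod.ext (Option.some.inj a2) (Option.some.inj b2)
  have hcard' : (∑ p ∈ GP, (((QQ p).filter fun Q => Q[t]? = some u).card : ℝ)) ≤
      4 * 2 ^ LL (Fintype.card V) := by exact_mod_cast hcard
  unfold al
  rw [← Finset.sum_div, div_le_iff₀ hm0]
  refine hcard'.trans ?_
  have h6 := hB.m0_low
  rw [div_le_iff₀ (by positivity)] at h6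
  nlinarith

end Pool.Agent.Lib.MP_fce888_co.S
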