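import Pool.Agent.Lib.MP_fce888_co.S.StmFG

set_option autoImplicit false

/-!
# MP_fce888_co, piece [SF two] (helper10)
-/

namespace Pool.Agent.Lib.MP_fce888_co.S

open Finset Pool.Agent.Lib.MP_fce888_co
open scoped Classical

namespace Two

variable {V : Type} [Fintype V]

lemma mem_lists' {k : ℕ} {l : List V} : l ∈ lists V k ↔ l.length = k := by
  unfold lists
  simp only [mem_image, mem_univ, true_and]
  constructor
  · rintro ⟨f, rfl⟩
    simp
  · rintro rfl
    exact ⟨l.get, List.ofFn_get l⟩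

lemma mem_paths' {G : SimpleGraph V} {t : ℕ} {l : List V} :
    l ∈ paths G t ↔ l.length = t + 1 ∧ IsPL G l := by
  unfold paths
  rw [mem_filter, mem_lists']

/-- the segment of `Q` which starts at position `a` and has length `k` -/
def seg (Q : List V) (a k : ℕ) : List V := (Q.drop a).take (k + 1)

lemma seg_get {Q : List V} {a k j : ℕ} (hj : j ≤ k) : (seg Q a k)[j]? = Q[a + j]? := by
  unfold seg
  rw [List.getElem?_take, if_pos (by omega), List.getElem?_drop]

lemma seg_length {Q : List V} {a k : ℕ} (h : a + k < Q.length) : (seg Q a k).length = k + 1 := by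
  unfold seg
  rw [List.length_take, List.length_drop]
  omega

lemma seg_head {Q : List V} {a k : ℕ} : (seg Q a k).head? = Q[a]? := by
  rw [List.head?_eq_getElem?, seg_get (Nat.zero_le k), Nat.add_zero]

lemma seg_last {Q : List V} {a k : ℕ} (h : a + k < Q.length) :
    (seg Q a k).getLast? = Q[a + k]? := by
  rw [List.getLast?_eq_getElem?, seg_length h, Nat.add_sub_cancel, seg_get le_rfl]

lemma seg_isPL {G : SimpleGraph V} {Q : List V} (hQ : IsPL G Q) {a k : ℕ} (h : a + k < Q.length) :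
    IsPL G (seg Q a k) := by
  refine ⟨?_, ?_, ?_⟩
  · intro h0
    have := seg_length h
    rw [h0] at this
    simp at this
  · exact hQ.2.1.sublist ((List.take_sublist _ _).trans (List.drop_sublist _ _))
  · exact (hQ.2.2.drop a).take (k + 1)

lemma seg_mem {G : SimpleGraph V} {L : ℕ} {Q : List V} (hQ : Q ∈ paths G L) {a k : ℕ}
    (h : a + k ≤ L) : seg Q a k ∈ paths G k := by
  rw [mem_paths'] at hQ ⊢
  have h1 : a + k < Q.length := by omega
  exact ⟨seg_length h1, seg_isPL hQ.2 h1⟩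

lemma take_eq {Q : List V} {k : ℕ} : Q.take (k + 1) = seg Q 0 k := by
  unfold seg
  rw [List.drop_zero]

lemma drop_eq {G : SimpleGraph V} {L : ℕ} {Q : List V} (hQ : Q ∈ paths G L) {a : ℕ} (h : a ≤ L) :
    Q.drop a = seg Q a (L - a) := by
  unfold seg
  rw [mem_paths'] at hQ
  rw [List.take_of_length_le]
  rw [List.length_drop]
  omega

/-- a walk along `Q` -/
lemma walk {G : SimpleGraph V} {Q : List V} (hQ : IsPL G Q) {a : ℕ} {u : V} (hu : Q[a]? = some u) :
    ∀ (d : ℕ) (v : V), Q[a + d]? = some v → ∃ p : G.Walk u v, p.length = d := by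
  intro d
  induction d with
  | zero =>
    intro v hv
    rw [Nat.add_zero, hu] at hv
    obtain rfl := Option.some.inj hv
    exact ⟨SimpleGraph.Walk.nil, rfl⟩
  | succ d ih =>
    intro v hv
    obtain ⟨h1, h2⟩ := List.getElem?_eq_some_iff.1 hv
    have h3 : a + d < Q.length := by omega
    obtain ⟨p, hp⟩ := ih Q[a + d] (List.getElem?_eq_getElem h3)
    have h4 : G.Adj Q[a + d] v := by
      have := List.isChain_iff_getElem.1 hQ.2.2 (a + d) (by omega)
      have h5 : Q[a + d + 1] = v := h2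
      rwa [h5] at this
    exact ⟨p.concat h4, by rw [SimpleGraph.Walk.length_concat, hp]⟩

lemma dist_le' {G : SimpleGraph V} {Q : List V} (hQ : IsPL G Q) {a b : ℕ} (hab : a ≤ b) {u v : V}
    (hu : Q[a]? = some u) (hv : Q[b]? = some v) : G.dist u v ≤ b - a := by
  obtain ⟨p, hp⟩ := walk hQ hu (b - a) v (by rwa [Nat.add_sub_cancel' hab])
  rw [← hp]
  exact G.dist_le p

/-- two segments of length `k ≤ R` with the same ends are equal -/
lemma seg_eq {G : SimpleGraph V} {L R : ℕ} {Q Q' : List V} (hQ : Q ∈ paths G L)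
    (hQ' : Q' ∈ paths G L) (hup : ∀ x ∈ Q, UP G R x) {a k : ℕ} (h : a + k ≤ L) (hk : k ≤ R)
    (h1 : Q[a]? = Q'[a]?) (h2 : Q[a + k]? = Q'[a + k]?) : seg Q a k = seg Q' a k := by
  have hl := (mem_paths'.1 hQ).1
  have hl' := (mem_paths'.1 hQ').1
  have hP := (mem_paths'.1 hQ).2
  have hP' := (mem_paths'.1 hQ').2
  have h3 : a + k < Q.length := by omega
  have h3' : a + k < Q'.length := by omega
  have h4 : a < Q.length := by omega
  have h5 : Q[a]? = some Q[a] := List.getElem?_eq_getElem h4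
  refine hup Q[a] (List.getElem_mem h4) _ _ (seg_isPL hP h3) (seg_isPL hP' h3') ?_ ?_ ?_ ?_ ?_
  · rw [seg_head, h5]
  · rw [seg_head, ← h1, h5]
  · rw [seg_length h3]; omega
  · rw [seg_length h3']; omega
  · rw [seg_last h3, seg_last h3', h2]

/-- `l ≤ R` -/
lemma caseA (hseg : S_seg) (G : SimpleGraph V) (hG : ∀ v, (G.neighborSet v).ncard = 3)
    (L R t1 t2 : ℕ) (u v : V) (h12 : t1 ≤ t2) (h2 : t2 ≤ L) (hR : t2 - t1 ≤ R) :
    ((paths G L).filter fun Q => (∀ x ∈ Q, UP G R x) ∧ Q[t1]? = some u ∧ Q[t2]? = some v).card *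
      2 ^ (min (G.dist u v) R) ≤ 8 * 2 ^ L := by
  rcases ((paths G L).filter fun Q => (∀ x ∈ Q, UP G R x) ∧ Q[t1]? = some u ∧
    Q[t2]? = some v).eq_empty_or_nonempty with h0 | ⟨Q0, hQ0⟩
  · rw [h0, card_empty, Nat.zero_mul]
    exact Nat.zero_le _
  rw [mem_filter] at hQ0
  obtain ⟨hp0, hup0, hu0, hv0⟩ := hQ0
  have hd : G.dist u v ≤ t2 - t1 := dist_le' (mem_paths'.1 hp0).2 h12 hu0 hv0
  have hsub : ((paths G L).filter fun Q => (∀ x ∈ Q, UP G R x) ∧ Q[t1]? = some u ∧
      Q[t2]? = some v) ⊆ ((paths G L).filter fun Q => ∀ t, t1 ≤ t → t ≤ t2 → Q[t]? = Q0[t]?) := by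
    intro Q hQ
    rw [mem_filter] at hQ ⊢
    obtain ⟨hp, hup, hu, hv⟩ := hQ
    refine ⟨hp, fun t ht1 ht2 => ?_⟩
    have h3 := seg_eq hp hp0 hup (a := t1) (k := t2 - t1) (by omega) hR (by rw [hu, hu0])
      (by rw [Nat.add_sub_cancel' h12, hv, hv0])
    have h4 := congrArg (fun l : List V => l[t - t1]?) h3
    rwa [seg_get (by omega), seg_get (by omega), Nat.add_sub_cancel' ht1] at h4
  have h5 := (card_le_card hsub).trans (hseg V G hG L t1 t2 Q0 h12 h2)
  calc _ ≤ (2 ^ (t1 + 1) * 2 ^ (L - t2 + 1)) * 2 ^ (t2 - t1) :=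
        Nat.mul_le_mul h5 (Nat.pow_le_pow_right (by norm_num) ((min_le_left _ _).trans hd))
    _ = 2 ^ (L + 2) := by
        rw [← pow_add, ← pow_add]
        congr 1
        omega
    _ ≤ 8 * 2 ^ L := by
        rw [pow_add]
        omega

/-- `l > R` -/
lemma caseB (hhead : S_head) (hseg : S_seg) (G : SimpleGraph V)
    (hG : ∀ v, (G.neighborSet v).ncard = 3)
    (L R t1 t2 : ℕ) (u v : V) (h12 : t1 ≤ t2) (h2 : t2 ≤ L) (hR : R < t2 - t1) :
    ((paths G L).filter fun Q => (∀ x ∈ Q, UP G R x) ∧ Q[t1]? = some u ∧ Q[t2]? = some v).card *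
      2 ^ (min (G.dist u v) R) ≤ 8 * 2 ^ L := by
  set F := (paths G L).filter fun Q => (∀ x ∈ Q, UP G R x) ∧ Q[t1]? = some u ∧ Q[t2]? = some v
    with hF
  set A := (paths G (t2 - R)).filter fun Q =>
    ∀ t, t1 ≤ t → t ≤ t1 → Q[t]? = (List.replicate (t1 + 1) u)[t]? with hA
  set B := (paths G (L - t2)).filter fun Q => Q.head? = some v with hB
  have hrep : (List.replicate (t1 + 1) u)[t1]? = some u := by
    rw [List.getElem?_replicate, if_pos (by omega)]
  have hmaps : ∀ Q ∈ F, (Q.take (t2 - R + 1), Q.drop t2) ∈ A ×ˢ B := by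
    intro Q hQ
    rw [hF, mem_filter] at hQ
    obtain ⟨hp, hup, hu, hv⟩ := hQ
    rw [mem_product]
    refine ⟨?_, ?_⟩
    · rw [hA, mem_filter]
      simp only
      rw [take_eq]
      refine ⟨seg_mem hp (by omega), fun t ht1 ht2 => ?_⟩
      obtain rfl : t = t1 := le_antisymm ht2 ht1
      rw [hrep, seg_get (by omega), Nat.zero_add, hu]
    · rw [hB, mem_filter]
      simp only
      rw [drop_eq hp h2]
      exact ⟨seg_mem hp (by omega), by rw [seg_head, hv]⟩
  have hinj : Set.InjOn (fun Q : List V => (Q.take (t2 - R + 1), Q.drop t2)) F := by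
    intro Q hQ Q' hQ' h
    have hQ1 := Finset.mem_coe.1 hQ
    have hQ1' := Finset.mem_coe.1 hQ'
    rw [hF, mem_filter] at hQ1 hQ1'
    obtain ⟨hp, hup, hu, hv⟩ := hQ1
    obtain ⟨hp', hup', hu', hv'⟩ := hQ1'
    simp only [Prod.mk.injEq] at h
    obtain ⟨ha, hb⟩ := h
    have hx : Q[t2 - R]? = Q'[t2 - R]? := by
      have := congrArg (fun l : List V => l[t2 - R]?) ha
      rw [take_eq, take_eq, seg_get le_rfl, seg_get le_rfl, Nat.zero_add] at this
      exact this
    have hs := seg_eq hp hp' hup (a := t2 - R) (k := R) (by omega) le_rfl hx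
      (by rw [show t2 - R + R = t2 by omega, hv, hv'])
    apply List.ext_getElem?
    intro t
    rcases le_or_gt t (t2 - R) with h3 | h3
    · have := congrArg (fun l : List V => l[t]?) ha
      rw [take_eq, take_eq, seg_get h3, seg_get h3, Nat.zero_add] at this
      exact this
    rcases le_or_gt t t2 with h4 | h4
    · have := congrArg (fun l : List V => l[t - (t2 - R)]?) hs
      rw [seg_get (by omega), seg_get (by omega), show t2 - R + (t - (t2 - R)) = t by omega] at this
      exact this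
    · have := congrArg (fun l : List V => l[t - t2]?) hb
      rw [List.getElem?_drop, List.getElem?_drop, show t2 + (t - t2) = t by omega] at this
      exact this
  have hcard : F.card ≤ A.card * B.card := by
    rw [← card_product]
    exact card_le_card_of_injOn _ hmaps hinj
  have hAc : A.card ≤ 2 ^ (t1 + 1) * 2 ^ (t2 - R - t1 + 1) :=
    hseg V G hG (t2 - R) t1 t1 (List.replicate (t1 + 1) u) le_rfl (by omega)
  have hBc : B.card ≤ 2 ^ (L - t2 + 1) := hhead V G hG (L - t2) v
  calc F.card * 2 ^ (min (G.dist u v) R)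
      ≤ ((2 ^ (t1 + 1) * 2 ^ (t2 - R - t1 + 1)) * 2 ^ (L - t2 + 1)) * 2 ^ R :=
        Nat.mul_le_mul (hcard.trans (Nat.mul_le_mul hAc hBc))
          (Nat.pow_le_pow_right (by norm_num) (min_le_right _ _))
    _ = 2 ^ (L + 3) := by
        rw [← pow_add, ← pow_add, ← pow_add]
        congr 1
        omega
    _ = 8 * 2 ^ L := by
        rw [pow_add]
        ring

end Two

theorem p_two : S_head → S_last → S_seg → S_two := by
  intro hhead _ hseg V _ G hG L R t1 t2 u v h12 h2
  rcases le_or_gt (t2 - t1) R with h | h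
  · exact Two.caseA hseg G hG L R t1 t2 u v h12 h2 h
  · exact Two.caseB hhead hseg G hG L R t1 t2 u v h12 h2 h

end Pool.Agent.Lib.MP_fce888_co.S
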