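import Pool.Agent.Lib.MP_fce888_co.S.FG
import Pool.Agent.Lib.MP_fce888_co.S.AbcPath
import Pool.Agent.Lib.MP_fce888_co.S.P_cnt
import Pool.Agent.Lib.MP_fce888_co.S.P_cntA
import Pool.Agent.Lib.MP_fce888_co.S.P_coin
import Pool.Agent.Lib.MP_fce888_co.S.P_last
import Pool.Agent.Lib.MP_fce888_co.S.P_law1
import Pool.Agent.Lib.MP_fce888_co.S.P_lawM
import Pool.Agent.Lib.MP_fce888_co.S.P_pair
import Pool.Agent.Lib.MP_fce888_co.S.P_perm
import Pool.Agent.Lib.MP_fce888_co.S.P_same
import Pool.Agent.Lib.MP_fce888_co.S.P_seg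
import Pool.Agent.Lib.MP_fce888_co.S.P_suma
import Pool.Agent.Lib.MP_fce888_co.S.P_two
import Pool.Agent.Lib.MP_fce888_co.S.FGlaw2

set_option autoImplicit false

/-!
# MP_fce888_co, section S-f, S-g: the three statements used by the assembly
-/

namespace Pool.Agent.Lib.MP_fce888_co.S

open Finset Pool.Agent.Lib.MP_fce888_co
open scoped Classical

theorem t_head : S_head := by
  intro V _ G hcub t v
  refine le_trans (Finset.card_le_card ?_) (pf_card hcub t v)
  intro Q hQ
  rw [Finset.mem_filter] at hQ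
  exact Finset.mem_filter.2 hQ

theorem t_last : S_last := p_last t_head

theorem t_seg : S_seg := p_seg t_head t_last

theorem t_two : S_two := p_two t_head t_last t_seg

theorem t_law1 : S_law1 := p_law1 p_perm

theorem t_law2 : S_law2 := q_law2 (p_cnt t_seg p_coin)

theorem t_lawM : S_lawM := p_lawM (p_same t_two) (p_pair (p_suma t_seg) (p_cntA t_head t_last))

end Pool.Agent.Lib.MP_fce888_co.S
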