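import Pool.Agent.Lib.MP_fce888_co.S.Defs

set_option autoImplicit false

/-!
# MP_fce888_co, section S: the output of (S-d), (S-e) (input of the assembly of `SStatement`)
-/

namespace Pool.Agent.Lib.MP_fce888_co.S

open Finset Pool.Agent.Lib.MP_fce888_co
open scoped Classical

/-- the fields of `IsStr` which are proved in (S-d), (S-e) -/
structure GeoOut {V : Type} [Fintype V] (G : SimpleGraph V) (GP : Finset (V × V))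
    (QQ : V × V → Finset (List V)) (N : ℕ) : Prop where
  prob : (9 / 10 : ℝ) * Fintype.card (Om GP QQ N) ≤ (Om0 G GP QQ N).card
  symm : ∀ ω ∈ Om0 G GP QQ N, ∀ i k, cc (pth ω i) (pth ω k) = cc (pth ω k) (pth ω i)
  mem : ∀ ω ∈ Om0 G GP QQ N, ∀ i k, i ≠ k → cc (pth ω i) (pth ω k) ∈ GGs G
  e_mem : ∀ ω ∈ Om0 G GP QQ N, ∀ i k, i ≠ k → ee ω i ∈ cc (pth ω i) (pth ω k)
  e_notMem : ∀ ω ∈ Om0 G GP QQ N, ∀ i j k, i ≠ j → i ≠ k → j ≠ k →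
    ee ω i ∉ cc (pth ω j) (pth ω k)
  e_far : ∀ ω ∈ Om0 G GP QQ N, ∀ i k, i ≠ k → ∀ u ∈ ee ω i, ∀ v ∈ ee ω k,
    rr (Fintype.card V) < G.dist u v
  near_mem : ∀ ω ∈ Om0 G GP QQ N, ∀ i k, i ≠ k → ∀ g ∈ cc (pth ω i) (pth ω k),
    (∀ u ∈ g, ∀ v ∈ ee ω i, G.dist u v ≤ rr (Fintype.card V)) → g ∈ eds (pth ω i)
  sub_theta : ∀ ω ∈ Om0 G GP QQ N, ∀ i k, i ≠ k →
    cc (pth ω i) (pth ω k) ⊆ eds (pth ω i) ∪ eds (pth ω k)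
  theta_edges : ∀ ω ∈ Om0 G GP QQ N, ∀ i, ∀ g ∈ eds (pth ω i), g ∈ G.edgeSet
  theta_card : ∀ ω ∈ Om0 G GP QQ N, ∀ i j k,
    (vs (eds (pth ω i) ∪ eds (pth ω j) ∪ eds (pth ω k))).card ≤ 4 * LL (Fintype.card V)
  theta_acy : ∀ ω ∈ Om0 G GP QQ N, ∀ i j k, i ≠ j → i ≠ k → j ≠ k →
    Acy G ((eds (pth ω i) ∪ eds (pth ω j) ∪ eds (pth ω k)) \ {ee ω i, ee ω k})
  theta_nt : ∀ ω ∈ Om0 G GP QQ N, ∀ i j k, i ≠ j → i ≠ k → j ≠ k → ∀ Z, IsCirc G Z →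
    (∀ v ∈ vs Z, ∃ u ∈ vs (eds (pth ω i) ∪ eds (pth ω j) ∪ eds (pth ω k)),
      G.dist u v ≤ rr (Fintype.card V)) →
    Z ⊆ eds (pth ω i) ∪ eds (pth ω j) ∪ eds (pth ω k)

/-- the statement of (S-d), (S-e) -/
def GeoStm : Prop := ∀ (c : ℝ), 0 < c → ∀ (N b : ℕ), ∃ n1 : ℕ, ∀ (V : Type) [Fintype V]
  (G : SimpleGraph V) (GP : Finset (V × V)) (QQ : V × V → Finset (List V)) (m0 : ℕ),
  n1 ≤ Fintype.card V → G.Connected → (∀ v, (G.neighborSet v).ncard = 3) →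
  Base c ((lam (Fintype.card V) : ℝ) ^ b) G GP QQ m0 → GeoOut G GP QQ N

end Pool.Agent.Lib.MP_fce888_co.S
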