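import Pool.Agent.Lib.MP_fce888_co.S.Asm
import Pool.Agent.Lib.MP_fce888_co.S.Geo.Adapter
import Pool.Agent.Lib.MP_fce888_co.S.FGfin

set_option autoImplicit false

/-!
# MP_fce888_co, section S: final assembly
-/

namespace Pool.Agent.Lib.MP_fce888_co.S

open Pool.Agent.Lib.MP_fce888_co

/-- (S) -/
theorem sStatement : SStatement := sStatement_of geoStm t_law1 t_law2 t_lawM

end Pool.Agent.Lib.MP_fce888_co.S
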