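import Mathlib

set_option autoImplicit false

/-!
# MP_fce888_co, section S: the abstract cleaning lemma (S-a), (S-b)
-/

namespace Pool.Agent.Lib.MP_fce888_co.S

open Finset
open scoped Classical

theorem sum_coll {α κ : Type*} (P : Finset α) (f : α → κ) (D : Finset α) (hD : D ⊆ P) :
    ∑ Q ∈ D, ((P.filter fun Q' => f Q' = f Q).card : ℝ) ≤
      (((P ×ˢ P).filter fun R => f R.1 = f R.2).card : ℝ) := by
  have h : ∑ Q ∈ D, (P.filter fun Q' => f Q' = f Q).card ≤
      ((P ×ˢ P).filter fun R => f R.1 = f R.2).card := by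
    rw [← Finset.card_sigma]
    refine card_le_card_of_injOn (fun R => (R.1, R.2)) ?_ ?_
    · rintro ⟨Q, Q'⟩ hR
      simp only [mem_coe, mem_sigma, mem_filter] at hR
      simp only [mem_coe, mem_filter, mem_product]
      exact ⟨⟨hD hR.1, hR.2.1⟩, hR.2.2.symm⟩
    · rintro ⟨Q, Q'⟩ _ ⟨R, R'⟩ _ h
      simp only [Prod.mk.injEq] at h
      obtain ⟨rfl, rfl⟩ := h
      rfl
  exact_mod_cast h

/-- Markov -/
theorem markov_card {ι : Type*} (s : Finset ι) (g : ι → ℝ) (hg : ∀ i ∈ s, 0 ≤ g i) (x : ℝ) :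
    ((s.filter fun i => x < g i).card : ℝ) * x ≤ ∑ i ∈ s, g i := by
  rw [← nsmul_eq_mul, ← sum_const]
  calc ∑ _i ∈ s.filter (fun i => x < g i), x ≤ ∑ i ∈ s.filter (fun i => x < g i), g i :=
        sum_le_sum fun i hi => (mem_filter.1 hi).2.le
    _ ≤ ∑ i ∈ s, g i := sum_le_sum_of_subset_of_nonneg (filter_subset _ _) fun i hi _ => hg i hi

/-- one pair -/
theorem clean_one {α κ : Type*} (P : Finset α) (f : ℕ → α → κ) (T : ℕ) (hT : 0 < T)
    (β : ℕ → ℝ) (hβ : ∀ t < T, 0 < β t) (w L3 : ℝ) (hw : 8 ≤ w) (hL3 : 0 < L3)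
    (hP : w / 2 ≤ (P.card : ℝ))
    (hc : ∀ t < T, (((P ×ˢ P).filter fun R => f t R.1 = f t R.2).card : ℝ) ≤ L3 * w ^ 2 * β t)
    (m0 : ℕ) (hm0 : (m0 : ℝ) ≤ w / 4) (hm1 : w / 8 ≤ m0) :
    ∃ Q0 ⊆ P, Q0.card = m0 ∧ ∀ t < T, ∀ v, ((Q0.filter fun Q => f t Q = v).card : ℝ) ≤
      64 * T * L3 * m0 * β t := by
  have hT' : (0 : ℝ) < T := by exact_mod_cast hT
  have hw0 : (0 : ℝ) < w := by linarith
  set D : ℕ → Finset α := fun t => P.filter fun Q =>
    8 * T * L3 * w * β t < ((P.filter fun Q' => f t Q' = f t Q).card : ℝ) with hD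
  have hDc : ∀ t < T, ((D t).card : ℝ) ≤ w / (8 * T) := by
    intro t ht
    have h1 : ((D t).card : ℝ) * (8 * T * L3 * w * β t) ≤ L3 * w ^ 2 * β t := by
      rw [← nsmul_eq_mul, ← sum_const]
      refine le_trans (sum_le_sum fun Q hQ => (mem_filter.1 hQ).2.le) ?_
      exact (sum_coll P (f t) (D t) (filter_subset _ _)).trans (hc t ht)
    rw [le_div_iff₀ (by positivity)]
    have hb := hβ t ht
    have h2 : 0 < L3 * w * β t := by positivity
    have h3 : ((D t).card : ℝ) * (8 * T) * (L3 * w * β t) ≤ w * (L3 * w * β t) := by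
      calc ((D t).card : ℝ) * (8 * T) * (L3 * w * β t) = (D t).card * (8 * T * L3 * w * β t) := by
            ring
        _ ≤ _ := h1
        _ = _ := by ring
    exact le_of_mul_le_mul_right h3 h2
  set U : Finset α := (range T).biUnion D with hU
  have hUc : (U.card : ℝ) ≤ w / 8 := by
    calc (U.card : ℝ) ≤ ((∑ t ∈ range T, (D t).card : ℕ) : ℝ) := by exact_mod_cast card_biUnion_le
      _ = ∑ t ∈ range T, ((D t).card : ℝ) := by push_cast; rfl
      _ ≤ ∑ t ∈ range T, w / (8 * T) := sum_le_sum fun t ht => hDc t (mem_range.1 ht)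
      _ = w / 8 := by rw [sum_const, card_range, nsmul_eq_mul]; field_simp
  have hR : m0 ≤ (P \ U).card := by
    have h1 : P.card ≤ (P \ U).card + U.card := by
      have := card_le_card_sdiff_add_card (s := P) (t := U)
      omega
    have h2 : (P.card : ℝ) ≤ (P \ U).card + U.card := by exact_mod_cast h1
    have h3 : (m0 : ℝ) ≤ (P \ U).card := by linarith
    exact_mod_cast h3
  obtain ⟨Q0, hQ0, hQc⟩ := exists_subset_card_eq hR
  refine ⟨Q0, hQ0.trans sdiff_subset, hQc, fun t ht v => ?_⟩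
  rcases (Q0.filter fun Q => f t Q = v).eq_empty_or_nonempty with h | ⟨Q, hQ⟩
  · rw [h, card_empty]
    have := hβ t ht
    push_cast
    positivity
  · rw [mem_filter] at hQ
    have hQP := hQ0 hQ.1
    rw [mem_sdiff] at hQP
    have hnot : ¬ (8 * T * L3 * w * β t < ((P.filter fun Q' => f t Q' = f t Q).card : ℝ)) := by
      intro hlt
      exact hQP.2 (mem_biUnion.2 ⟨t, mem_range.2 ht, mem_filter.2 ⟨hQP.1, hlt⟩⟩)
    push Not at hnot
    have hle : ((Q0.filter fun Q => f t Q = v).card : ℝ) ≤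
        ((P.filter fun Q' => f t Q' = f t Q).card : ℝ) := by
      exact_mod_cast card_le_card (by
        intro R hR
        rw [mem_filter] at hR ⊢
        exact ⟨(mem_sdiff.1 (hQ0 hR.1)).1, by rw [hR.2, hQ.2]⟩)
    have hb := hβ t ht
    have h5 : 8 * T * L3 * w * β t ≤ 8 * T * L3 * (8 * m0) * β t := by
      have : w ≤ 8 * m0 := by linarith
      gcongr
    calc _ ≤ _ := hle
      _ ≤ _ := hnot
      _ ≤ _ := h5
      _ = _ := by ring

theorem clean_all {ι α κ : Type*} [Fintype ι] (PP : ι → Finset α) (f : ℕ → α → κ) (T : ℕ)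
    (hT : 0 < T) (β : ℕ → ℝ) (hβ : ∀ t < T, 0 < β t) (n2 w C2 X : ℝ)
    (hn2 : (Fintype.card ι : ℝ) = n2) (hn20 : 0 < n2) (hw : 8 ≤ w) (hC2 : 0 < C2) (hX : 0 < X)
    (h1 : n2 * w ≤ ∑ p, ((PP p).card : ℝ))
    (h2 : ∑ p, ((PP p).card : ℝ) ^ 2 ≤ C2 * n2 * w ^ 2)
    (h3 : ∀ t < T, ∑ p, (((PP p ×ˢ PP p).filter fun R => f t R.1 = f t R.2).card : ℝ) ≤
      X * (n2 * w ^ 2) * β t)
    (F : Finset ι) (hF : (F.card : ℝ) ≤ n2 / (16 * C2)) :
    ∃ (GP : Finset ι) (QQ : ι → Finset α) (m0 : ℕ), n2 / (16 * C2) ≤ (GP.card : ℝ) ∧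
      (∀ p ∈ GP, p ∉ F) ∧ (∀ p ∈ GP, QQ p ⊆ PP p) ∧ (∀ p ∈ GP, (QQ p).card = m0) ∧
      w / 8 ≤ (m0 : ℝ) ∧
      ∀ p ∈ GP, ∀ t < T, ∀ v, (((QQ p).filter fun Q => f t Q = v).card : ℝ) ≤
        512 * T ^ 2 * X * C2 * m0 * β t := by
  have hT' : (0 : ℝ) < T := by exact_mod_cast hT
  have hw0 : (0 : ℝ) < w := by linarith
  set A : Finset ι := univ.filter fun p => w / 2 ≤ ((PP p).card : ℝ) with hA
  have hA1 : n2 * w / 2 ≤ ∑ p ∈ A, ((PP p).card : ℝ) := by
    have hsplit := sum_filter_add_sum_filter_not (univ : Finset ι)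
      (fun p => w / 2 ≤ ((PP p).card : ℝ)) (fun p => ((PP p).card : ℝ))
    have hsmall : ∑ p ∈ univ.filter (fun p => ¬ (w / 2 ≤ ((PP p).card : ℝ))), ((PP p).card : ℝ) ≤
        n2 * (w / 2) := by
      calc _ ≤ ∑ p ∈ univ.filter (fun p => ¬ (w / 2 ≤ ((PP p).card : ℝ))), w / 2 :=
            sum_le_sum fun p hp => by
              have := (mem_filter.1 hp).2
              push Not at this
              exact this.le
        _ = ((univ.filter fun p => ¬ (w / 2 ≤ ((PP p).card : ℝ))).card : ℝ) * (w / 2) := by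
            rw [sum_const, nsmul_eq_mul]
        _ ≤ n2 * (w / 2) := by
            rw [← hn2]
            have : (univ.filter fun p => ¬ (w / 2 ≤ ((PP p).card : ℝ))).card ≤ Fintype.card ι :=
              card_le_univ _
            have h' : ((univ.filter fun p => ¬ (w / 2 ≤ ((PP p).card : ℝ))).card : ℝ) ≤
              Fintype.card ι := by exact_mod_cast this
            gcongr
    linarith
  have hA2 : n2 / (4 * C2) ≤ (A.card : ℝ) := by
    have hcs : (∑ p ∈ A, ((PP p).card : ℝ)) ^ 2 ≤ A.card * ∑ p ∈ A, ((PP p).card : ℝ) ^ 2 :=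
      sq_sum_le_card_mul_sum_sq
    have hle : ∑ p ∈ A, ((PP p).card : ℝ) ^ 2 ≤ C2 * n2 * w ^ 2 :=
      (sum_le_sum_of_subset_of_nonneg (filter_subset _ _) fun i _ _ => by positivity).trans h2
    have h4 : (n2 * w / 2) ^ 2 ≤ (∑ p ∈ A, ((PP p).card : ℝ)) ^ 2 :=
      pow_le_pow_left₀ (by positivity) hA1 2
    have h5 : (n2 * w / 2) ^ 2 ≤ A.card * (C2 * n2 * w ^ 2) :=
      h4.trans (hcs.trans (by gcongr))
    rw [div_le_iff₀ (by positivity)]
    have h6 : n2 * (n2 * w ^ 2) ≤ A.card * (4 * C2) * (n2 * w ^ 2) := by nlinarith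
    exact le_of_mul_le_mul_right h6 (by positivity)
  set L3 : ℝ := 8 * C2 * X * T with hL3
  have hL30 : 0 < L3 := by positivity
  set B : ℕ → Finset ι := fun t => univ.filter fun p =>
    L3 * w ^ 2 * β t < (((PP p ×ˢ PP p).filter fun R => f t R.1 = f t R.2).card : ℝ) with hB
  have hBc : ∀ t < T, ((B t).card : ℝ) ≤ n2 / (8 * C2 * T) := by
    intro t ht
    have hm := markov_card (univ : Finset ι)
      (fun p => (((PP p ×ˢ PP p).filter fun R => f t R.1 = f t R.2).card : ℝ))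
      (fun _ _ => by positivity) (L3 * w ^ 2 * β t)
    have hm2 := hm.trans (h3 t ht)
    have hb := hβ t ht
    rw [le_div_iff₀ (by positivity)]
    have h7 : ((B t).card : ℝ) * (8 * C2 * T) * (X * w ^ 2 * β t) ≤ n2 * (X * w ^ 2 * β t) := by
      calc ((B t).card : ℝ) * (8 * C2 * T) * (X * w ^ 2 * β t)
          = (B t).card * (L3 * w ^ 2 * β t) := by rw [hL3]; ring
        _ ≤ _ := hm2
        _ = _ := by ring
    exact le_of_mul_le_mul_right h7 (by positivity)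
  set U : Finset ι := (range T).biUnion B with hU
  have hUc : (U.card : ℝ) ≤ n2 / (8 * C2) := by
    calc (U.card : ℝ) ≤ ((∑ t ∈ range T, (B t).card : ℕ) : ℝ) := by exact_mod_cast card_biUnion_le
      _ = ∑ t ∈ range T, ((B t).card : ℝ) := by push_cast; rfl
      _ ≤ ∑ t ∈ range T, n2 / (8 * C2 * T) := sum_le_sum fun t ht => hBc t (mem_range.1 ht)
      _ = n2 / (8 * C2) := by rw [sum_const, card_range, nsmul_eq_mul]; field_simp
  set GP : Finset ι := (A \ U) \ F with hGP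
  have hGPc : n2 / (16 * C2) ≤ (GP.card : ℝ) := by
    have h8 : A.card ≤ GP.card + U.card + F.card := by
      have e1 := card_le_card_sdiff_add_card (s := A) (t := U)
      have e2 := card_le_card_sdiff_add_card (s := A \ U) (t := F)
      have e3 : GP.card = ((A \ U) \ F).card := rfl
      omega
    have h9 : (A.card : ℝ) ≤ GP.card + U.card + F.card := by exact_mod_cast h8
    have h10 : n2 / (4 * C2) = n2 / (16 * C2) * 4 := by field_simp; norm_num
    have h11 : n2 / (8 * C2) = n2 / (16 * C2) * 2 := by field_simp; norm_num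
    rw [h10] at hA2
    rw [h11] at hUc
    linarith
  set m0 : ℕ := ⌊w / 4⌋₊ with hm0
  have hm0a : (m0 : ℝ) ≤ w / 4 := Nat.floor_le (by positivity)
  have hm0b : w / 8 ≤ (m0 : ℝ) := by
    have := Nat.lt_floor_add_one (w / 4)
    linarith
  have key : ∀ p ∈ GP, ∃ Q0 ⊆ PP p, Q0.card = m0 ∧ ∀ t < T, ∀ v,
      ((Q0.filter fun Q => f t Q = v).card : ℝ) ≤ 64 * T * L3 * m0 * β t := by
    intro p hp
    rw [hGP, mem_sdiff, mem_sdiff] at hp
    refine clean_one (PP p) f T hT β hβ w L3 hw hL30 (mem_filter.1 hp.1.1).2 ?_ m0 hm0a hm0b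
    intro t ht
    by_contra hcon
    push Not at hcon
    exact hp.1.2 (mem_biUnion.2 ⟨t, mem_range.2 ht, mem_filter.2 ⟨mem_univ _, hcon⟩⟩)
  choose! QQ hQ1 hQ2 hQ3 using key
  refine ⟨GP, QQ, m0, hGPc, ?_, hQ1, hQ2, hm0b, ?_⟩
  · intro p hp
    rw [hGP, mem_sdiff] at hp
    exact hp.2
  · intro p hp t ht v
    refine (hQ3 p hp t ht v).trans (le_of_eq ?_)
    rw [hL3]; ring

end Pool.Agent.Lib.MP_fce888_co.S
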