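import Pool.Agent.Lib.MP_fce888_co.S.AbcPairs
import Pool.Agent.Lib.MP_fce888_co.S.AbcClean

set_option autoImplicit false
set_option linter.unusedSectionVars false

/-!
# MP_fce888_co, section S: (S-a), (S-b), (S-c): a typical graph carries a `Base`
-/

namespace Pool.Agent.Lib.MP_fce888_co.S

open Finset Pool.Agent.Lib.MP_fce888_co
open scoped Classical

variable {V : Type} [Fintype V]

/-- the vertices with too many collisions -/
noncomputable def Bad2 (G : SimpleGraph V) : Finset V := univ.filter fun v =>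
  ∃ t ≤ LL (Fintype.card V), (lam (Fintype.card V) : ℝ) ^ 8 *
    (2 ^ t + 2 ^ (2 * t) / (Fintype.card V : ℝ)) < (SS G t t v : ℝ)

noncomputable def Bad1 (G : SimpleGraph V) : Finset V := univ.filter fun v =>
  ¬ UP G (R0 (Fintype.card V)) v

theorem Bad2_card {C2 : ℝ} {G : SimpleGraph V} (hT : Typ C2 G) (hl : 1 ≤ lam (Fintype.card V))
    (hn : 0 < Fintype.card V) :
    ((Bad2 G).card : ℝ) ≤ (LL (Fintype.card V) + 1) *
      ((Fintype.card V : ℝ) / (lam (Fintype.card V) : ℝ) ^ 5) := by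
  set n := Fintype.card V with hn'
  have hl' : (0 : ℝ) < lam n := by exact_mod_cast hl
  have hn0 : (0 : ℝ) < n := by exact_mod_cast hn
  set B : ℕ → Finset V := fun t => univ.filter fun v => (lam n : ℝ) ^ 8 *
    (2 ^ t + 2 ^ (2 * t) / (n : ℝ)) < (SS G t t v : ℝ) with hB
  have hsub : Bad2 G ⊆ (range (LL n + 1)).biUnion B := by
    intro v hv
    unfold Bad2 at hv
    rw [mem_filter] at hv
    obtain ⟨-, t, ht, htv⟩ := hv
    exact mem_biUnion.2 ⟨t, mem_range.2 (Nat.lt_succ_of_le ht), mem_filter.2 ⟨mem_univ _, htv⟩⟩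
  have h1 : ((Bad2 G).card : ℝ) ≤ ∑ t ∈ range (LL n + 1), ((B t).card : ℝ) := by
    have := (card_le_card hsub).trans card_biUnion_le
    exact_mod_cast this
  refine h1.trans ?_
  have h2 : ∀ t ∈ range (LL n + 1), ((B t).card : ℝ) ≤ (n : ℝ) / (lam n : ℝ) ^ 5 := by
    intro t ht
    have hm := markov_card (univ : Finset V) (fun v => (SS G t t v : ℝ))
      (fun _ _ => by positivity) ((lam n : ℝ) ^ 8 * (2 ^ t + 2 ^ (2 * t) / (n : ℝ)))
    have h3 := hm.trans (hT.t3 t (Nat.le_of_lt_succ (mem_range.1 ht)))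
    rw [le_div_iff₀ (by positivity)]
    have hpos : 0 < (lam n : ℝ) ^ 3 * (2 ^ t + 2 ^ (2 * t) / (n : ℝ)) := by positivity
    refine le_of_mul_le_mul_right ?_ hpos
    calc ((B t).card : ℝ) * (lam n : ℝ) ^ 5 * ((lam n : ℝ) ^ 3 * (2 ^ t + 2 ^ (2 * t) / (n : ℝ)))
        = (B t).card * ((lam n : ℝ) ^ 8 * (2 ^ t + 2 ^ (2 * t) / (n : ℝ))) := by ring
      _ ≤ _ := h3
      _ = _ := by ring
  refine (sum_le_sum h2).trans (le_of_eq ?_)
  rw [sum_const, card_range, nsmul_eq_mul]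
  push_cast
  ring

/-- the paths used -/
noncomputable def GQ (G : SimpleGraph V) : Finset (List V) :=
  (paths G (LL (Fintype.card V))).filter fun Q => Good G Q ∧ ∀ v ∈ Q, v ∉ Bad2 G

theorem card_filter_le_sum {α : Type*} (s : Finset α) (p : α → Prop) (f : α → ℕ)
    (h : ∀ a ∈ s, p a → 1 ≤ f a) : (s.filter p).card ≤ ∑ a ∈ s, f a := by
  rw [card_filter]
  refine sum_le_sum fun a ha => ?_
  split_ifs with hp
  · exact h a ha hp
  · exact Nat.zero_le _

theorem nonsep_card (G : SimpleGraph V) (L R r : ℕ) :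
    (((paths G L).filter fun Q => ∃ t1 t2 u v, t1 + R < t2 ∧ Q[t1]? = some u ∧
      Q[t2]? = some v ∧ G.dist u v ≤ r).card : ℝ) ≤
    ∑ Q ∈ paths G L, (((range (L + 1) ×ˢ range (L + 1)).filter fun p =>
        p.1 + R < p.2 ∧ ∃ u v, Q[p.1]? = some u ∧ Q[p.2]? = some v ∧
          G.dist u v ≤ r).card : ℝ) := by
  have h := card_filter_le_sum (paths G L) (fun Q => ∃ t1 t2 u v, t1 + R < t2 ∧
    Q[t1]? = some u ∧ Q[t2]? = some v ∧ G.dist u v ≤ r)
    (fun Q => ((range (L + 1) ×ˢ range (L + 1)).filter fun p =>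
        p.1 + R < p.2 ∧ ∃ u v, Q[p.1]? = some u ∧ Q[p.2]? = some v ∧
          G.dist u v ≤ r).card) (by
      intro Q hQ hex
      obtain ⟨t1, t2, u, v, h12, hu, hv, hd⟩ := hex
      have hlen := (mem_paths.1 hQ).1
      have ht2 : t2 < Q.length := by
        rw [List.getElem?_eq_some_iff] at hv
        exact hv.1
      have ht2' : t2 < L + 1 := by omega
      have ht1' : t1 < L + 1 := by omega
      refine card_pos.2 ⟨(t1, t2), mem_filter.2 ⟨mem_product.2 ⟨mem_range.2 ht1',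
        mem_range.2 ht2'⟩, h12, u, v, hu, hv, hd⟩⟩)
  exact_mod_cast h

theorem GQ_card {C2 : ℝ} {G : SimpleGraph V} (hT : Typ C2 G) (hl : 9 ≤ lam (Fintype.card V))
    (hn : 0 < Fintype.card V) :
    (Fintype.card V : ℝ) * 2 ^ LL (Fintype.card V) ≤ ((GQ G).card : ℝ) := by
  set n := Fintype.card V with hn'
  have hl' : (9 : ℝ) ≤ lam n := by exact_mod_cast hl
  have hl0 : (0 : ℝ) < lam n := by linarith
  have hn0 : (0 : ℝ) < n := by exact_mod_cast hn
  set A1 : Finset (List V) := (paths G (LL n)).filter fun Q => ∃ v ∈ Q, v ∈ Bad1 G ∪ Bad2 G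
    with hA1
  set A2 : Finset (List V) := (paths G (LL n)).filter fun Q =>
    ∃ t1 t2 u v, t1 + R1 n < t2 ∧ Q[t1]? = some u ∧ Q[t2]? = some v ∧ G.dist u v ≤ rn n with hA2
  have hcov : paths G (LL n) ⊆ GQ G ∪ (A1 ∪ A2) := by
    intro Q hQ
    by_cases h1 : Q ∈ A1
    · exact mem_union_right _ (mem_union_left _ h1)
    by_cases h2 : Q ∈ A2
    · exact mem_union_right _ (mem_union_right _ h2)
    refine mem_union_left _ (mem_filter.2 ⟨hQ, ⟨hQ, ?_, ?_⟩, ?_⟩)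
    · intro v hv
      by_contra hcon
      exact h1 (mem_filter.2 ⟨hQ, v, hv, mem_union_left _ (mem_filter.2 ⟨mem_univ _, hcon⟩)⟩)
    · intro t1 t2 u v h12 hu hv
      by_contra hcon
      push Not at hcon
      exact h2 (mem_filter.2 ⟨hQ, t1, t2, u, v, h12, hu, hv, hcon⟩)
    · intro v hv hcon
      exact h1 (mem_filter.2 ⟨hQ, v, hv, mem_union_right _ hcon⟩)
  have hcard : ((paths G (LL n)).card : ℝ) ≤ (GQ G).card + (A1.card + A2.card) := by
    have := (card_le_card hcov).trans ((card_union_le _ _).trans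
      (Nat.add_le_add_left (card_union_le A1 A2) _))
    exact_mod_cast this
  -- A2
  have hA2c : (A2.card : ℝ) ≤ n * 2 ^ LL n / 8 := by
    have h5 := hT.t5
    rw [← hn'] at h5
    have h6 : (A2.card : ℝ) ≤ (n : ℝ) * 2 ^ LL n / lam n := by
      refine le_trans ?_ h5
      exact nonsep_card G (LL n) (R1 n) (rn n)
    refine h6.trans ?_
    gcongr
    linarith
  -- A1
  have hA1c : (A1.card : ℝ) ≤ n * 2 ^ LL n / 8 := by
    have hm := meet_card hT.cubic (LL n) (Bad1 G ∪ Bad2 G)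
    have hb1 : ((Bad1 G).card : ℝ) ≤ (n : ℝ) / (lam n : ℝ) ^ 4 := hT.t1
    have hb2 : ((Bad2 G).card : ℝ) ≤ _ := Bad2_card hT (by rw [← hn']; omega) hn
    rw [← hn'] at hb2
    have hL : (LL n : ℝ) + 1 ≤ 4 * lam n := by
      have : (LL n : ℝ) = 3 * lam n + 3 := by unfold LL; push_cast; ring
      rw [this]; linarith
    have hb2' : ((Bad2 G).card : ℝ) ≤ 4 * ((n : ℝ) / (lam n : ℝ) ^ 4) := by
      refine hb2.trans ?_
      calc ((LL n : ℝ) + 1) * ((n : ℝ) / (lam n : ℝ) ^ 5)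
          ≤ 4 * lam n * ((n : ℝ) / (lam n : ℝ) ^ 5) := by gcongr
        _ = _ := by field_simp
    have hu : ((Bad1 G ∪ Bad2 G).card : ℝ) ≤ 5 * ((n : ℝ) / (lam n : ℝ) ^ 4) := by
      have : ((Bad1 G ∪ Bad2 G).card : ℝ) ≤ (Bad1 G).card + (Bad2 G).card := by
        exact_mod_cast card_union_le _ _
      linarith
    have hm' : (A1.card : ℝ) ≤ ((Bad1 G ∪ Bad2 G).card : ℝ) * ((LL n + 1) * 2 ^ (LL n + 2)) := by
      have := hm
      exact_mod_cast this
    refine hm'.trans ?_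
    calc ((Bad1 G ∪ Bad2 G).card : ℝ) * ((LL n + 1) * 2 ^ (LL n + 2))
        ≤ 5 * ((n : ℝ) / (lam n : ℝ) ^ 4) * ((4 * lam n) * 2 ^ (LL n + 2)) := by gcongr
      _ = n * 2 ^ LL n * (80 / (lam n : ℝ) ^ 3) := by
          rw [pow_add]; field_simp; ring
      _ ≤ n * 2 ^ LL n * (1 / 8) := by
          refine mul_le_mul_of_nonneg_left ?_ (by positivity)
          rw [div_le_div_iff₀ (by positivity) (by norm_num)]
          have : (9 : ℝ) ^ 3 ≤ (lam n : ℝ) ^ 3 := pow_le_pow_left₀ (by norm_num) hl' 3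
          linarith
      _ = _ := by ring
  have h4 := hT.t4
  rw [← hn'] at h4
  linarith

theorem bet_pos (n t : ℕ) : 0 < bet n t := by
  unfold bet; positivity

theorem bet_ge (n t : ℕ) : 1 / (n : ℝ) ≤ bet n t := by
  unfold bet
  have : (0 : ℝ) ≤ (1 / 2) ^ t + (1 / 2) ^ (LL n - t) := by positivity
  linarith

theorem two_pow_LL {n : ℕ} (hn : 0 < n) : (n : ℝ) ^ 3 ≤ 2 ^ LL n := by
  have h : n < 2 ^ (lam n + 1) := Nat.lt_pow_succ_log_self (by norm_num) n
  have h' : (n : ℝ) ≤ 2 ^ (lam n + 1) := by exact_mod_cast h.le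
  calc (n : ℝ) ^ 3 ≤ (2 ^ (lam n + 1)) ^ 3 := by gcongr
    _ = 2 ^ LL n := by rw [← pow_mul]; congr 1; unfold LL; ring

theorem key_num {n t : ℕ} (hn : 0 < n) (ht : t ≤ LL n) :
    (n : ℝ) * ((2 ^ t + 2 ^ (2 * t) / (n : ℝ)) * (2 ^ (LL n - t) + 2 ^ (2 * (LL n - t)) / (n : ℝ))) ≤
      2 * 2 ^ (2 * LL n) * bet n t := by
  have hn0 : (0 : ℝ) < n := by exact_mod_cast hn
  have hL : (2 : ℝ) ^ LL n = 2 ^ t * 2 ^ (LL n - t) := by rw [← pow_add]; congr 1; omega
  have hbet : bet n t = 1 / 2 ^ t + 1 / 2 ^ (LL n - t) + 1 / (n : ℝ) := by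
    unfold bet; simp
  have h3 := two_pow_LL hn
  have hge := bet_ge n t
  set x : ℝ := 2 ^ t with hx
  set y : ℝ := 2 ^ (LL n - t) with hy
  have hx0 : 0 < x := by positivity
  have hy0 : 0 < y := by positivity
  have e1 : (2 : ℝ) ^ (2 * t) = x ^ 2 := by rw [hx, ← pow_mul, mul_comm]
  have e2 : (2 : ℝ) ^ (2 * (LL n - t)) = y ^ 2 := by rw [hy, ← pow_mul, mul_comm]
  have e3 : (2 : ℝ) ^ (2 * LL n) = (x * y) ^ 2 := by rw [← hL, ← pow_mul, mul_comm]
  rw [e1, e2, e3]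
  have e4 : (n : ℝ) * ((x + x ^ 2 / n) * (y + y ^ 2 / n)) =
      (x * y) ^ 2 * (n / (x * y) + bet n t) := by
    rw [hbet]; field_simp; ring
  rw [e4]
  have h5 : (n : ℝ) / (x * y) ≤ bet n t := by
    refine le_trans ?_ hge
    rw [← hL, div_le_div_iff₀ (by positivity) hn0]
    have hn1 : (1 : ℝ) ≤ n := by exact_mod_cast hn
    nlinarith [mul_pos hn0 hn0]
  have : (0 : ℝ) ≤ (x * y) ^ 2 := by positivity
  nlinarith

theorem GQ_coll {G : SimpleGraph V} (hn : 0 < Fintype.card V)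
    {t : ℕ} (ht : t ≤ LL (Fintype.card V)) :
    ∑ p, (((PPf (GQ G) p ×ˢ PPf (GQ G) p).filter fun R => R.1[t]? = R.2[t]?).card : ℝ) ≤
      (2 * (lam (Fintype.card V) : ℝ) ^ 16) * 2 ^ (2 * LL (Fintype.card V)) *
        bet (Fintype.card V) t := by
  set n := Fintype.card V with hn'
  have hn0 : (0 : ℝ) < n := by exact_mod_cast hn
  have h := sum_coll_le (P := GQ G) (L := LL n) ht (filter_subset _ _) (univ \ Bad2 G) (by
    intro Q hQ v hv
    rw [mem_sdiff]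
    exact ⟨mem_univ _, (mem_filter.1 hQ).2.2 v hv⟩)
  have h' : ∑ p, (((PPf (GQ G) p ×ˢ PPf (GQ G) p).filter fun R => R.1[t]? = R.2[t]?).card : ℝ) ≤
      ∑ v ∈ univ \ Bad2 G, (SS G t t v : ℝ) * (SS G (LL n - t) (LL n - t) v : ℝ) := by
    exact_mod_cast h
  refine h'.trans ?_
  have hb : ∀ v ∈ univ \ Bad2 G, ∀ s ≤ LL n, (SS G s s v : ℝ) ≤
      (lam n : ℝ) ^ 8 * (2 ^ s + 2 ^ (2 * s) / (n : ℝ)) := by
    intro v hv s hs
    by_contra hcon
    push Not at hcon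
    exact (mem_sdiff.1 hv).2 (mem_filter.2 ⟨mem_univ _, s, hs, hcon⟩)
  calc ∑ v ∈ univ \ Bad2 G, (SS G t t v : ℝ) * (SS G (LL n - t) (LL n - t) v : ℝ)
      ≤ ∑ v ∈ univ \ Bad2 G, ((lam n : ℝ) ^ 8 * (2 ^ t + 2 ^ (2 * t) / (n : ℝ))) *
        ((lam n : ℝ) ^ 8 * (2 ^ (LL n - t) + 2 ^ (2 * (LL n - t)) / (n : ℝ))) := by
        refine sum_le_sum fun v hv => ?_
        exact mul_le_mul (hb v hv t ht) (hb v hv _ (Nat.sub_le _ _)) (by positivity)
          (by positivity)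
    _ ≤ (n : ℝ) * (((lam n : ℝ) ^ 8 * (2 ^ t + 2 ^ (2 * t) / (n : ℝ))) *
        ((lam n : ℝ) ^ 8 * (2 ^ (LL n - t) + 2 ^ (2 * (LL n - t)) / (n : ℝ)))) := by
        rw [sum_const, nsmul_eq_mul]
        have : ((univ \ Bad2 G).card : ℝ) ≤ n := by exact_mod_cast card_le_univ _
        gcongr
    _ = (lam n : ℝ) ^ 16 * ((n : ℝ) * ((2 ^ t + 2 ^ (2 * t) / (n : ℝ)) *
        (2 ^ (LL n - t) + 2 ^ (2 * (LL n - t)) / (n : ℝ)))) := by ring
    _ ≤ (lam n : ℝ) ^ 16 * (2 * 2 ^ (2 * LL n) * bet n t) := by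
        exact mul_le_mul_of_nonneg_left (key_num hn ht) (by positivity)
    _ = _ := by ring

/-- the pairs at small distance -/
theorem near_card {G : SimpleGraph V} (hG : G.Connected)
    (hcub : ∀ v, (G.neighborSet v).ncard = 3) (R : ℕ) :
    (univ.filter fun p : V × V => G.dist p.1 p.2 < R).card ≤ Fintype.card V * 2 ^ (R + 1) := by
  have hsub : (univ.filter fun p : V × V => G.dist p.1 p.2 < R) ⊆
      univ.biUnion fun a => (univ.filter fun b => G.dist a b < R).image fun b => (a, b) := by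
    rintro ⟨a, b⟩ hp
    rw [mem_biUnion]
    refine ⟨a, mem_univ _, mem_image.2 ⟨b, ?_, rfl⟩⟩
    simpa using hp
  refine (card_le_card hsub).trans (card_biUnion_le.trans ?_)
  calc ∑ a, ((univ.filter fun b => G.dist a b < R).image fun b => (a, b)).card
      ≤ ∑ _a : V, 2 ^ (R + 1) := sum_le_sum fun a _ => card_image_le.trans (ball_card hG hcub R a)
    _ = _ := by rw [sum_const, smul_eq_mul, card_univ]

/-- **(S-a), (S-b), (S-c)** -/
theorem base_exists (C2 : ℝ) : ∃ c : ℝ, 0 < c ∧ ∃ n1 : ℕ, ∀ (V : Type) [Fintype V]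
    (G : SimpleGraph V), n1 ≤ Fintype.card V → Typ C2 G →
    ∃ (GP : Finset (V × V)) (QQ : V × V → Finset (List V)) (m0 : ℕ),
      Base c ((lam (Fintype.card V) : ℝ) ^ 20) G GP QQ m0 := by
  set D : ℝ := max C2 1 with hD
  have hD1 : 1 ≤ D := le_max_right _ _
  have hD2 : C2 ≤ D := le_max_left _ _
  refine ⟨1 / (16 * D), by positivity, 2 ^ (9 + 5 * ⌈32 * D⌉₊ + ⌈16384 * D⌉₊), ?_⟩
  intro V _ G hn1 hT
  set n := Fintype.card V with hn'
  have hn : 0 < n := lt_of_lt_of_le (by positivity) hn1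
  have hn0 : (0 : ℝ) < n := by exact_mod_cast hn
  have hl : 9 + 5 * ⌈32 * D⌉₊ + ⌈16384 * D⌉₊ ≤ lam n := by
    unfold lam
    exact Nat.le_log_of_pow_le (by norm_num) hn1
  have hlam : 2 ^ lam n ≤ n := Nat.pow_log_le_self 2 (by omega)
  have hl1 : (9 : ℝ) ≤ lam n := by exact_mod_cast (show 9 ≤ lam n by omega)
  have hl2 : 16384 * D ≤ lam n := by
    refine (Nat.le_ceil _).trans ?_
    exact_mod_cast (show ⌈16384 * D⌉₊ ≤ lam n by omega)
  have hR0 : ⌈32 * D⌉₊ ≤ R0 n := by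
    unfold R0
    omega
  have h3 := two_pow_LL hn
  set w : ℝ := 2 ^ LL n / n with hw
  have hwn : (n : ℝ) ^ 2 ≤ w := by
    rw [hw, le_div_iff₀ hn0]
    calc (n : ℝ) ^ 2 * n = (n : ℝ) ^ 3 := by ring
      _ ≤ _ := h3
  have hw8 : 8 ≤ w := by
    refine le_trans ?_ hwn
    have : (2 : ℝ) ^ 9 ≤ n := by
      have h9 : 2 ^ 9 ≤ n := (Nat.pow_le_pow_right (by norm_num) (by omega)).trans hlam
      exact_mod_cast h9
    nlinarith
  have hn2w : (n : ℝ) ^ 2 * w = n * 2 ^ LL n := by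
    rw [hw]; field_simp
  have hn2w2 : (n : ℝ) ^ 2 * w ^ 2 = 2 ^ (2 * LL n) := by
    rw [hw, mul_comm 2 (LL n), pow_mul]; field_simp
  have hGQ : GQ G ⊆ paths G (LL n) := filter_subset _ _
  obtain ⟨GP, QQ, m0, hgp, hfar, hsub, hcard, hm0, hflat⟩ := clean_all
    (PPf (GQ G)) (fun t Q => Q[t]?) (LL n + 1) (Nat.succ_pos _) (bet n)
    (fun t _ => bet_pos n t) ((n : ℝ) ^ 2) w D (2 * (lam n : ℝ) ^ 16)
    (by rw [Fintype.card_prod]; push_cast; rw [← hn']; ring) (by positivity) hw8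
    (by positivity) (by positivity)
    (by
      rw [hn2w]
      have h1 := GQ_card hT (by rw [← hn']; omega) hn
      rw [← hn'] at h1
      refine h1.trans (le_of_eq ?_)
      have h2 := sum_PPf hGQ
      exact_mod_cast h2.symm)
    (by
      have h1 := sum_PPf_sq hGQ
      have h2 : ∑ p, ((PPf (GQ G) p).card : ℝ) ^ 2 ≤ ∑ v, (SS G (LL n) (LL n) v : ℝ) := by
        exact_mod_cast h1
      refine h2.trans ((hT.t2).trans ?_)
      rw [← hn', mul_assoc, hn2w2]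
      gcongr)
    (by
      intro t ht
      have := GQ_coll (G := G) hn (t := t) (by rw [← hn']; omega)
      rw [← hn'] at this
      rw [hn2w2]
      convert this)
    (univ.filter fun p : V × V => G.dist p.1 p.2 < R0 n)
    (by
      have h1 := near_card hT.conn hT.cubic (R0 n)
      rw [← hn'] at h1
      have h2 : ((univ.filter fun p : V × V => G.dist p.1 p.2 < R0 n).card : ℝ) ≤
        n * 2 ^ (R0 n + 1) := by exact_mod_cast h1
      refine h2.trans ?_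
      rw [le_div_iff₀ (by positivity)]
      have h4 : (2 : ℝ) ^ (5 * R0 n) ≤ n := by
        have : 2 ^ (5 * R0 n) ≤ n :=
          (Nat.pow_le_pow_right (by norm_num) (by unfold R0; omega)).trans hlam
        exact_mod_cast this
      have h5 : 32 * D ≤ 2 ^ (R0 n) := by
        calc 32 * D ≤ ⌈32 * D⌉₊ := Nat.le_ceil _
          _ ≤ (R0 n : ℝ) := by exact_mod_cast hR0
          _ ≤ 2 ^ (R0 n) := by exact_mod_cast (Nat.lt_two_pow_self).le
      have h6 : (2 : ℝ) ^ (R0 n) * 2 ^ (R0 n) ≤ 2 ^ (5 * R0 n) := by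
        rw [← pow_add]
        exact pow_le_pow_right₀ (by norm_num) (by omega)
      calc (n : ℝ) * 2 ^ (R0 n + 1) * (16 * D) = n * (2 ^ R0 n * (32 * D)) := by
            rw [pow_succ]; ring
        _ ≤ n * (2 ^ R0 n * 2 ^ R0 n) := by gcongr
        _ ≤ n * n := by gcongr; exact h6.trans h4
        _ = _ := by ring)
  refine ⟨GP, QQ, m0, ?_⟩
  have hmem : ∀ p ∈ GP, ∀ Q ∈ QQ p, Q ∈ GQ G ∧ Q.head? = some p.1 ∧ Q.getLast? = some p.2 :=
    fun p hp Q hQ => mem_PPf.1 (hsub p hp hQ)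
  refine ⟨?_, ?_, hcard, ?_, ?_, ?_, ?_, ?_⟩
  · rw [← hn']
    refine le_trans (le_of_eq ?_) hgp
    ring
  · intro p hp
    have := hfar p hp
    rw [mem_filter] at this
    push Not at this
    exact this (mem_univ _)
  · rw [← hn']
    refine le_trans (le_of_eq ?_) hm0
    rw [hw]; field_simp
  · intro p hp Q hQ
    exact (mem_filter.1 (hmem p hp Q hQ).1).2.1
  · exact fun p hp Q hQ => (hmem p hp Q hQ).2.1
  · exact fun p hp Q hQ => (hmem p hp Q hQ).2.2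
  · intro p hp t ht v
    rw [← hn'] at ht ⊢
    refine le_trans (le_of_eq ?_) ((hflat p hp t (by omega) (some v)).trans ?_)
    · congr!
    have hb := bet_pos n t
    have hL : ((LL n + 1 : ℕ) : ℝ) ≤ 4 * lam n := by
      have : ((LL n + 1 : ℕ) : ℝ) = 3 * lam n + 4 := by unfold LL; push_cast; ring
      rw [this]; linarith
    have h7 : 512 * ((LL n + 1 : ℕ) : ℝ) ^ 2 * (2 * (lam n : ℝ) ^ 16) * D ≤ (lam n : ℝ) ^ 20 := by
      calc 512 * ((LL n + 1 : ℕ) : ℝ) ^ 2 * (2 * (lam n : ℝ) ^ 16) * D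
          ≤ 512 * (4 * (lam n : ℝ)) ^ 2 * (2 * (lam n : ℝ) ^ 16) * D := by gcongr
        _ = (16384 * D) * (lam n : ℝ) ^ 18 := by ring
        _ ≤ (lam n : ℝ) ^ 2 * (lam n : ℝ) ^ 18 := by
            gcongr
            nlinarith
        _ = _ := by ring
    calc 512 * ((LL n + 1 : ℕ) : ℝ) ^ 2 * (2 * (lam n : ℝ) ^ 16) * D * m0 * bet n t
        = (512 * ((LL n + 1 : ℕ) : ℝ) ^ 2 * (2 * (lam n : ℝ) ^ 16) * D) * (m0 * bet n t) := by ring
      _ ≤ (lam n : ℝ) ^ 20 * (m0 * bet n t) := by gcongr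
      _ = _ := by ring

end Pool.Agent.Lib.MP_fce888_co.S
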