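import Pool.Agent.Lib.MP_fce888_co.S.AbcPath

set_option autoImplicit false
set_option linter.unusedSectionVars false

/-!
# MP_fce888_co, section S: pairs of paths with common end points
-/

namespace Pool.Agent.Lib.MP_fce888_co.S

open Finset Pool.Agent.Lib.MP_fce888_co
open scoped Classical

variable {V : Type} [Fintype V]

/-- the paths of the set `P` from `p.1` to `p.2` -/
noncomputable def PPf (P : Finset (List V)) (p : V × V) : Finset (List V) :=
  P.filter fun Q => Q.head? = some p.1 ∧ Q.getLast? = some p.2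

theorem mem_PPf {P : Finset (List V)} {p : V × V} {Q : List V} :
    Q ∈ PPf P p ↔ Q ∈ P ∧ Q.head? = some p.1 ∧ Q.getLast? = some p.2 := by
  unfold PPf
  rw [mem_filter]

/-- the pairs counted by `S_{p,q}(v)` -/
noncomputable def SSs (G : SimpleGraph V) (p q : ℕ) (v : V) : Finset (List V × List V) :=
  (paths G p ×ˢ paths G q).filter fun P =>
    P.1.head? = some v ∧ P.2.head? = some v ∧ P.1.getLast? = P.2.getLast?

theorem SSs_card (G : SimpleGraph V) (p q : ℕ) (v : V) : (SSs G p q v).card = SS G p q v := rfl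

theorem mem_SSs {G : SimpleGraph V} {p q : ℕ} {v : V} {P : List V × List V} :
    P ∈ SSs G p q v ↔ (P.1 ∈ paths G p ∧ P.2 ∈ paths G q) ∧
      P.1.head? = some v ∧ P.2.head? = some v ∧ P.1.getLast? = P.2.getLast? := by
  unfold SSs
  rw [mem_filter, mem_product]

theorem exists_ends {G : SimpleGraph V} {L : ℕ} {Q : List V} (hQ : Q ∈ paths G L) :
    ∃ p : V × V, Q.head? = some p.1 ∧ Q.getLast? = some p.2 := by
  rw [mem_paths] at hQ
  exact ⟨(Q.head hQ.2.1, Q.getLast hQ.2.1), List.head?_eq_some_head hQ.2.1,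
    List.getLast?_eq_some_getLast hQ.2.1⟩

theorem sum_PPf {G : SimpleGraph V} {L : ℕ} {P : Finset (List V)} (hP : P ⊆ paths G L) :
    ∑ p, (PPf P p).card = P.card := by
  rw [← card_biUnion]
  · congr 1
    ext Q
    rw [mem_biUnion]
    constructor
    · rintro ⟨p, -, hp⟩
      exact (mem_PPf.1 hp).1
    · intro hQ
      obtain ⟨p, hp⟩ := exists_ends (hP hQ)
      exact ⟨p, mem_univ _, mem_PPf.2 ⟨hQ, hp⟩⟩
  · intro p _ q _ hpq
    rw [Function.onFun, disjoint_left]
    intro Q h1 h2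
    rw [mem_PPf] at h1 h2
    apply hpq
    have e1 := h1.2.1.symm.trans h2.2.1
    have e2 := h1.2.2.symm.trans h2.2.2
    rw [Option.some_inj] at e1 e2
    exact Prod.ext e1 e2

theorem sum_card_le_card' {ι α : Type*} (s : Finset ι) (A : ι → Finset α) (S : Finset α)
    (hsub : ∀ i ∈ s, A i ⊆ S) (hd : ∀ i ∈ s, ∀ j ∈ s, ∀ x, x ∈ A i → x ∈ A j → i = j) :
    ∑ i ∈ s, (A i).card ≤ S.card := by
  rw [← card_biUnion]
  · exact card_le_card (biUnion_subset.2 hsub)
  · intro i hi j hj hij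
    rw [Function.onFun, disjoint_left]
    intro x hx hx'
    exact hij (hd i hi j hj x hx hx')

theorem sum_PPf_sq {G : SimpleGraph V} {L : ℕ} {P : Finset (List V)} (hP : P ⊆ paths G L) :
    ∑ p, (PPf P p).card ^ 2 ≤ ∑ v, SS G L L v := by
  rw [Fintype.sum_prod_type]
  refine sum_le_sum fun a _ => ?_
  rw [← SSs_card]
  have : ∀ b, (PPf P (a, b)).card ^ 2 = (PPf P (a, b) ×ˢ PPf P (a, b)).card := by
    intro b
    rw [card_product, sq]
  simp_rw [this]
  refine sum_card_le_card' univ _ _ ?_ ?_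
  · rintro b - R hR
    rw [mem_product, mem_PPf, mem_PPf] at hR
    rw [mem_SSs]
    exact ⟨⟨hP hR.1.1, hP hR.2.1⟩, hR.1.2.1, hR.2.2.1, by rw [hR.1.2.2, hR.2.2.2]⟩
  · rintro b - b' - R h1 h2
    rw [mem_product, mem_PPf, mem_PPf] at h1 h2
    have := h1.1.2.2.symm.trans h2.1.2.2
    simpa using this

theorem take_head? {l : List V} (t : ℕ) : (l.take (t + 1)).head? = l.head? := by
  cases l <;> simp

theorem drop_getLast? {l : List V} {t : ℕ} (ht : t < l.length) :
    (l.drop t).getLast? = l.getLast? := by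
  rw [List.getLast?_drop]
  simp
  omega

theorem sum_coll_le {G : SimpleGraph V} {L t : ℕ} (ht : t ≤ L) {P : Finset (List V)}
    (hP : P ⊆ paths G L) (W : Finset V) (hW : ∀ Q ∈ P, ∀ v ∈ Q, v ∈ W) :
    ∑ p, ((PPf P p ×ˢ PPf P p).filter fun R => R.1[t]? = R.2[t]?).card ≤
      ∑ v ∈ W, SS G t t v * SS G (L - t) (L - t) v := by
  set CC : Finset (List V × List V) := (P ×ˢ P).filter fun R =>
    R.1[t]? = R.2[t]? ∧ R.1.head? = R.2.head? ∧ R.1.getLast? = R.2.getLast? with hCC
  have h1 : ∑ p, ((PPf P p ×ˢ PPf P p).filter fun R => R.1[t]? = R.2[t]?).card ≤ CC.card := by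
    refine sum_card_le_card' univ _ _ ?_ ?_
    · rintro p - R hR
      rw [mem_filter, mem_product, mem_PPf, mem_PPf] at hR
      rw [hCC, mem_filter, mem_product]
      exact ⟨⟨hR.1.1.1, hR.1.2.1⟩, hR.2, by rw [hR.1.1.2.1, hR.1.2.2.1],
        by rw [hR.1.1.2.2, hR.1.2.2.2]⟩
    · rintro p - q - R h1 h2
      rw [mem_filter, mem_product, mem_PPf, mem_PPf] at h1 h2
      have e1 := h1.1.1.2.1.symm.trans h2.1.1.2.1
      have e2 := h1.1.1.2.2.symm.trans h2.1.1.2.2
      rw [Option.some_inj] at e1 e2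
      exact Prod.ext e1 e2
  refine h1.trans ?_
  have hsub : CC ⊆ W.biUnion fun v => CC.filter fun R => R.1[t]? = some v := by
    intro R hR
    rw [mem_biUnion]
    have hR' := hR
    rw [hCC, mem_filter, mem_product] at hR'
    have hlen := (mem_paths.1 (hP hR'.1.1)).1
    have hlt : t < R.1.length := by omega
    refine ⟨R.1[t], hW _ hR'.1.1 _ (List.getElem_mem _), mem_filter.2 ⟨hR, ?_⟩⟩
    rw [List.getElem?_eq_getElem hlt]
  refine (card_le_card hsub).trans (card_biUnion_le.trans (sum_le_sum fun v _ => ?_))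
  rw [← SSs_card, ← SSs_card, ← card_product]
  refine card_le_card_of_injOn (fun R => (((R.1.take (t + 1)).reverse, (R.2.take (t + 1)).reverse),
    (R.1.drop t, R.2.drop t))) ?_ ?_
  · intro R hR
    rw [mem_coe, mem_filter, hCC, mem_filter, mem_product] at hR
    obtain ⟨⟨⟨hR1, hR2⟩, hR3, hR4, hR5⟩, hv⟩ := hR
    have hv2 : R.2[t]? = some v := by rw [← hR3, hv]
    have hl1 := (mem_paths.1 (hP hR1)).1
    have hl2 := (mem_paths.1 (hP hR2)).1
    have a1 := take_mem_pf (hP hR1) ht hv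
    have a2 := take_mem_pf (hP hR2) ht hv2
    have b1 := drop_mem_pf (hP hR1) ht hv
    have b2 := drop_mem_pf (hP hR2) ht hv2
    unfold pf at a1 a2 b1 b2
    rw [mem_filter] at a1 a2 b1 b2
    rw [mem_coe, mem_product, mem_SSs, mem_SSs]
    refine ⟨⟨⟨a1.1, a2.1⟩, a1.2, a2.2, ?_⟩, ⟨b1.1, b2.1⟩, b1.2, b2.2, ?_⟩
    · simp only [List.getLast?_reverse, take_head?]
      exact hR4
    · simp only
      rw [drop_getLast? (by omega), drop_getLast? (by omega)]
      exact hR5
  · intro R _ R' _ h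
    simp only [Prod.mk.injEq, List.reverse_inj] at h
    exact Prod.ext (take_drop_inj h.1.1 h.2.1) (take_drop_inj h.1.2 h.2.2)

end Pool.Agent.Lib.MP_fce888_co.S
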