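import Pool.Agent.Lib.MP_fce888_co.S.StmFG
import Pool.Agent.Lib.MP_fce888_co.S.Prob

set_option autoImplicit false

/-!
# MP_fce888_co, section S-f, S-g: assembly of the fields law1, law2, lawM (and mu_nonneg, mu_mass,
mu_supp) of `IsStr`
-/

namespace Pool.Agent.Lib.MP_fce888_co.S

open Finset Pool.Agent.Lib.MP_fce888_co
open scoped Classical

/-- for `x` large, `4 (3x+4)^2 (96/c) x^40 ≤ x^50` -/
theorem num_lam (c : ℝ) (hc : 0 < c) : ∃ x0 : ℕ, ∀ x : ℕ, x0 ≤ x →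
    4 * (((3 * x + 3 : ℕ) : ℝ) + 1) ^ 2 * (96 / c * ((x : ℝ) ^ 20) ^ 2) ≤ (x : ℝ) ^ 50 := by
  refine ⟨max 7 ⌈96 / c⌉₊, fun x hx => ?_⟩
  have h7 : (7 : ℝ) ≤ x := by exact_mod_cast (le_max_left _ _).trans hx
  have hc' : 96 / c ≤ x :=
    (Nat.le_ceil _).trans (by exact_mod_cast (le_max_right _ _).trans hx)
  have hx0 : (0 : ℝ) ≤ x := by linarith
  have h1 : ((3 * x + 3 : ℕ) : ℝ) + 1 ≤ (x : ℝ) ^ 2 := by push_cast; nlinarith
  have h0 : 0 ≤ ((3 * x + 3 : ℕ) : ℝ) + 1 := by positivity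
  have h2 : (4 : ℝ) ≤ (x : ℝ) := by linarith
  calc 4 * (((3 * x + 3 : ℕ) : ℝ) + 1) ^ 2 * (96 / c * ((x : ℝ) ^ 20) ^ 2)
      ≤ x * ((x : ℝ) ^ 2) ^ 2 * (x * ((x : ℝ) ^ 20) ^ 2) := by gcongr
    _ = (x : ℝ) ^ 46 := by ring
    _ ≤ (x : ℝ) ^ 50 := pow_le_pow_right₀ (by linarith) (by norm_num)

/-- `LAM = floor (log_2 n)` is large if `n` is large -/
theorem lam_large (x0 : ℕ) : ∀ n : ℕ, 2 ^ x0 ≤ n → x0 ≤ lam n := fun n hn =>
  Nat.le_log_of_pow_le (by norm_num) hn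

theorem fg_of (h1 : S_law1) (h2 : S_law2) (h3 : S_lawM) (c : ℝ) (hc : 0 < c) :
    ∃ n1 : ℕ, ∀ (V : Type) [Fintype V] (G : SimpleGraph V), n1 ≤ Fintype.card V →
      G.Connected → (∀ v, (G.neighborSet v).ncard = 3) →
      ∀ (GP : Finset (V × V)) (QQ : V × V → Finset (List V)) (m0 N : ℕ),
        Base c ((lam (Fintype.card V) : ℝ) ^ 20) G GP QQ m0 →
        ∀ (i0 i1 : Fin N), i0 ≠ i1 →
        (0 < Fintype.card (Om GP QQ N)) ∧
        (∀ D, 0 ≤ mu G GP QQ i0 i1 D) ∧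
        (∑ D ∈ GGs G, mu G GP QQ i0 i1 D ≤ 1) ∧
        ((∀ ω ∈ Om0 G GP QQ N, cc (pth ω i0) (pth ω i1) ∈ GGs G) →
          ∀ D, D ∉ GGs G → mu G GP QQ i0 i1 D = 0) ∧
        (∀ i k : Fin N, i ≠ k → ∀ DD : Finset (Finset (Sym2 V)),
          (((Om0 G GP QQ N).filter fun ω => cc (pth ω i) (pth ω k) ∈ DD).card : ℝ) ≤
            (∑ D ∈ DD, mu G GP QQ i0 i1 D) * Fintype.card (Om GP QQ N)) ∧
        (∀ (i : Fin N) (e₀ : Sym2 V) (κ : Finset (Sym2 V)), e₀ ∈ κ →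
          (∀ g ∈ κ, ∀ u ∈ g, ∀ v ∈ e₀, G.dist u v ≤ rr (Fintype.card V)) →
          (((Om0 G GP QQ N).filter fun ω => ee ω i = e₀ ∧ κ ⊆ eds (pth ω i)).card : ℝ) ≤
            64 / c * (1 / 2) ^ κ.card / Fintype.card V * Fintype.card (Om GP QQ N)) ∧
        (∀ u v : V, ∑ D ∈ (GGs G).filter (fun D => u ∈ vs D ∧ v ∈ vs D), mu G GP QQ i0 i1 D ≤
          (lam (Fintype.card V) : ℝ) ^ 50 *
            (1 / 2) ^ (min (G.dist u v) (rr (Fintype.card V)) / 2) / Fintype.card V) := by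
  obtain ⟨x0, hx0⟩ := num_lam c hc
  refine ⟨2 ^ (x0 + 1), fun V _ G hn hG hcub GP QQ m0 N hB i0 i1 hi => ?_⟩
  have hlam : x0 + 1 ≤ lam (Fintype.card V) := lam_large _ _ hn
  have hlam1 : 1 ≤ lam (Fintype.card V) := by omega
  have hn0 : 0 < Fintype.card V := lt_of_lt_of_le (Nat.pow_pos (by norm_num)) hn
  have hn0' : (0 : ℝ) < Fintype.card V := by exact_mod_cast hn0
  have hm0 : 0 < m0 := by
    have := hB.m0_low
    have h4 : (0 : ℝ) < (2 : ℝ) ^ LL (Fintype.card V) / (8 * Fintype.card V) := by positivity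
    exact_mod_cast h4.trans_le this
  have hGP : 0 < GP.card := by
    have := hB.gp
    have h4 : (0 : ℝ) < c * (Fintype.card V : ℝ) ^ 2 := by positivity
    exact_mod_cast h4.trans_le this
  have hOm : 0 < Fintype.card (Om GP QQ N) := by
    rw [card_Om hB.card]; positivity
  have hL4 : (1 : ℝ) ≤ (lam (Fintype.card V) : ℝ) ^ 20 :=
    one_le_pow₀ (by exact_mod_cast hlam1)
  obtain ⟨a1, a2, a3, a4⟩ := h1 V G GP QQ N i0 i1 hi hOm
  refine ⟨hOm, a2, a3, a4, a1, ?_, ?_⟩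
  · intro i e₀ κ he hκ
    exact h2 V G c _ GP QQ m0 N hcub hc hlam1 hB i e₀ κ he hκ
  · intro u v
    refine (h3 V G c _ GP QQ m0 N hcub hG hc hL4 hm0 hOm hB i0 i1 hi u v).trans ?_
    have h5 := hx0 (lam (Fintype.card V)) (by omega)
    have h6 : ((LL (Fintype.card V) : ℕ) : ℝ) = ((3 * lam (Fintype.card V) + 3 : ℕ) : ℝ) := rfl
    rw [h6]
    gcongr

end Pool.Agent.Lib.MP_fce888_co.S
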