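import Pool.Agent.Lib.MP_fce888_co.S.GeoOut
import Pool.Agent.Lib.MP_fce888_co.S.AbcMain
import Pool.Agent.Lib.MP_fce888_co.S.FG

set_option autoImplicit false

/-!
# MP_fce888_co, section S: assembly of `SStatement`
-/

namespace Pool.Agent.Lib.MP_fce888_co.S

open Finset Pool.Agent.Lib.MP_fce888_co
open scoped Classical

/-- trivial structure for `N ≤ 1` -/
theorem isStr_small {V : Type} [Fintype V] (G : SimpleGraph V) (v0 : V) (N L r : ℕ) (hN : N < 2)
    (Cs Λ : ℝ) (hCs : 0 ≤ Cs) (hΛ : 0 ≤ Λ) :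
    IsStr G N L r Cs Λ (Ω := Unit) univ (fun _ _ => ∅) (fun _ _ => s(v0, v0)) (fun _ _ _ => ∅) ∅
      (fun _ => 0) := by
  have hsub : ∀ i j : Fin N, i = j := by
    intro i j
    apply Fin.ext
    have := i.2
    have := j.2
    omega
  have hvs : vs (∅ : Finset (Sym2 V)) = ∅ := by
    unfold vs
    simp
  refine
    { ne := ⟨()⟩
      prob := by simp; norm_num
      good := fun D hD => absurd hD (notMem_empty _)
      mu_nonneg := fun _ => le_refl _
      mu_supp := fun _ _ => rfl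
      mu_mass := by simp
      symm := fun _ _ _ _ => rfl
      mem := fun _ _ i k hik => absurd (hsub i k) hik
      e_mem := fun _ _ i k hik => absurd (hsub i k) hik
      e_notMem := fun _ _ i j _ hij => absurd (hsub i j) hij
      e_far := fun _ _ i k hik => absurd (hsub i k) hik
      near_mem := fun _ _ i k hik => absurd (hsub i k) hik
      sub_theta := fun _ _ i k hik => absurd (hsub i k) hik
      theta_edges := fun _ _ _ g hg => absurd hg (notMem_empty _)
      theta_card := fun _ _ _ _ _ => by simp [hvs]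
      theta_acy := fun _ _ i j _ hij => absurd (hsub i j) hij
      theta_nt := fun _ _ i j _ hij => absurd (hsub i j) hij
      law1 := fun i k hik => absurd (hsub i k) hik
      law2 := ?_
      lawM := ?_ }
  · intro i e₀ κ he _
    have h0 : ((univ : Finset Unit).filter fun _ => s(v0, v0) = e₀ ∧ κ ⊆ (∅ : Finset (Sym2 V))) = ∅ := by
      rw [filter_eq_empty_iff]
      rintro _ _ ⟨_, h⟩
      exact notMem_empty _ (h he)
    rw [h0]
    simp only [card_empty, Nat.cast_zero]
    positivity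
  · intro u v
    simp only [filter_empty, sum_empty]
    positivity

/-- the assembly, for given outputs of the three parts -/
theorem isStr_of {V : Type} [Fintype V] (G : SimpleGraph V) (GP : Finset (V × V))
    (QQ : V × V → Finset (List V)) (N : ℕ) (i0 i1 : Fin N) (Cs : ℝ) (a : ℕ)
    (hgeo : GeoOut G GP QQ N) (i01 : i0 ≠ i1)
    (hfg : (0 < Fintype.card (Om GP QQ N)) ∧
        (∀ D, 0 ≤ mu G GP QQ i0 i1 D) ∧
        (∑ D ∈ GGs G, mu G GP QQ i0 i1 D ≤ 1) ∧
        ((∀ ω ∈ Om0 G GP QQ N, cc (pth ω i0) (pth ω i1) ∈ GGs G) →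
          ∀ D, D ∉ GGs G → mu G GP QQ i0 i1 D = 0) ∧
        (∀ i k : Fin N, i ≠ k → ∀ DD : Finset (Finset (Sym2 V)),
          (((Om0 G GP QQ N).filter fun ω => cc (pth ω i) (pth ω k) ∈ DD).card : ℝ) ≤
            (∑ D ∈ DD, mu G GP QQ i0 i1 D) * Fintype.card (Om GP QQ N)) ∧
        (∀ (i : Fin N) (e₀ : Sym2 V) (κ : Finset (Sym2 V)), e₀ ∈ κ →
          (∀ g ∈ κ, ∀ u ∈ g, ∀ v ∈ e₀, G.dist u v ≤ rr (Fintype.card V)) →
          (((Om0 G GP QQ N).filter fun ω => ee ω i = e₀ ∧ κ ⊆ eds (pth ω i)).card : ℝ) ≤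
            Cs * (1 / 2) ^ κ.card / Fintype.card V * Fintype.card (Om GP QQ N)) ∧
        (∀ u v : V, ∑ D ∈ (GGs G).filter (fun D => u ∈ vs D ∧ v ∈ vs D), mu G GP QQ i0 i1 D ≤
          (lam (Fintype.card V) : ℝ) ^ a *
            (1 / 2) ^ (min (G.dist u v) (rr (Fintype.card V)) / 2) / Fintype.card V)) :
    IsStr G N (LL (Fintype.card V)) (rr (Fintype.card V)) Cs ((lam (Fintype.card V) : ℝ) ^ a)
      (Om0 G GP QQ N) (fun ω i => eds (pth ω i)) (fun ω i => ee ω i)
      (fun ω i k => cc (pth ω i) (pth ω k)) (GGs G) (mu G GP QQ i0 i1) := by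
  obtain ⟨h1, h2, h3, h4, h5, h6, h7⟩ := hfg
  exact
    { ne := Fintype.card_pos_iff.1 h1
      prob := hgeo.prob
      good := fun D hD => (mem_filter.1 hD).2
      mu_nonneg := h2
      mu_supp := h4 fun ω hω => hgeo.mem ω hω i0 i1 i01
      mu_mass := h3
      symm := hgeo.symm
      mem := hgeo.mem
      e_mem := hgeo.e_mem
      e_notMem := hgeo.e_notMem
      e_far := hgeo.e_far
      near_mem := hgeo.near_mem
      sub_theta := hgeo.sub_theta
      theta_edges := hgeo.theta_edges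
      theta_card := hgeo.theta_card
      theta_acy := hgeo.theta_acy
      theta_nt := hgeo.theta_nt
      law1 := h5
      law2 := h6
      lawM := h7 }

theorem sStatement_of (hgeo : GeoStm) (l1 : S_law1) (l2 : S_law2) (l3 : S_lawM) : SStatement := by
  intro C2
  obtain ⟨c, hc, nb, hb⟩ := base_exists C2
  obtain ⟨nf, hf⟩ := fg_of l1 l2 l3 c hc
  refine ⟨64 / c, 50, fun N => ?_⟩
  obtain ⟨ng, hg⟩ := hgeo c hc N 20
  refine ⟨nb + nf + ng + 1, ?_⟩
  intro V _ G hn hT
  have hne : Nonempty V := Fintype.card_pos_iff.1 (by omega)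
  obtain ⟨v0⟩ := hne
  rcases Nat.lt_or_ge N 2 with hN | hN
  · exact ⟨Unit, inferInstance, _, _, _, _, _, _, isStr_small G v0 N _ _ hN _ _ (by positivity)
      (by positivity)⟩
  · obtain ⟨GP, QQ, m0, hB⟩ := hb V G (by omega) hT
    have hgo := hg V G GP QQ m0 (by omega) hT.conn hT.cubic hB
    have i01 : (⟨0, by omega⟩ : Fin N) ≠ ⟨1, by omega⟩ := by
      intro h
      have := congrArg Fin.val h
      simp at this
    have hfo := hf V G (by omega) hT.conn hT.cubic GP QQ m0 N hB ⟨0, by omega⟩ ⟨1, by omega⟩ i01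
    exact ⟨Om GP QQ N, inferInstance, _, _, _, _, _, _,
      isStr_of G GP QQ N _ _ (64 / c) 50 hgo i01 hfo⟩

end Pool.Agent.Lib.MP_fce888_co.S
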