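import Pool.Agent.Lib.MP_fce888_co.Iface

set_option autoImplicit false

/-!
# MP_fce888_co, section S: common definitions

`Base` is the output of (S-a), (S-b), (S-c) and the input of (S-d) - (S-g).
-/

namespace Pool.Agent.Lib.MP_fce888_co.S

open Finset Pool.Agent.Lib.MP_fce888_co
open scoped Classical

variable {V : Type} [Fintype V]

/-- `bet t = 2^{-t} + 2^{-(L-t)} + 1/n` -/
noncomputable def bet (n t : ℕ) : ℝ := (1 / 2) ^ t + (1 / 2) ^ (LL n - t) + 1 / (n : ℝ)

/-- edge set of a vertex list -/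
noncomputable def eds (Q : List V) : Finset (Sym2 V) :=
  univ.filter fun g => ∃ t u v, Q[t]? = some u ∧ Q[t + 1]? = some v ∧ g = s(u, v)

/-- the `t`-th vertex, with default value `v₀` -/
def pt (v₀ : V) (Q : List V) (t : ℕ) : V := Q.getD t v₀

/-- the middle edge (default vertex `v₀`) -/
noncomputable def mid (v₀ : V) (Q : List V) : Sym2 V :=
  s(pt v₀ Q (LL (Fintype.card V) / 2), pt v₀ Q (LL (Fintype.card V) / 2 + 1))

/-- `C_ij` : symmetric difference of the edge sets -/
noncomputable def cc (Q Q' : List V) : Finset (Sym2 V) := (eds Q \ eds Q') ∪ (eds Q' \ eds Q)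

/-- (S-a) good paths -/
structure Good (G : SimpleGraph V) (Q : List V) : Prop where
  path : Q ∈ paths G (LL (Fintype.card V))
  up : ∀ v ∈ Q, UP G (R0 (Fintype.card V)) v
  sep : ∀ t1 t2 u v, t1 + R1 (Fintype.card V) < t2 → Q[t1]? = some u → Q[t2]? = some v →
    rn (Fintype.card V) < G.dist u v

/-- output of (S-a), (S-b), (S-c); `c > 0` and `L4` (a power of `LAM` times a constant) -/
structure Base (c L4 : ℝ) (G : SimpleGraph V) (GP : Finset (V × V))
    (QQ : V × V → Finset (List V)) (m0 : ℕ) : Prop where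
  gp : c * (Fintype.card V : ℝ) ^ 2 ≤ GP.card
  far : ∀ p ∈ GP, R0 (Fintype.card V) ≤ G.dist p.1 p.2
  card : ∀ p ∈ GP, (QQ p).card = m0
  m0_low : (2 : ℝ) ^ LL (Fintype.card V) / (8 * Fintype.card V) ≤ m0
  good : ∀ p ∈ GP, ∀ Q ∈ QQ p, Good G Q
  head : ∀ p ∈ GP, ∀ Q ∈ QQ p, Q.head? = some p.1
  last : ∀ p ∈ GP, ∀ Q ∈ QQ p, Q.getLast? = some p.2
  flat : ∀ p ∈ GP, ∀ t ≤ LL (Fintype.card V), ∀ v,
    (((QQ p).filter fun Q => Q[t]? = some v).card : ℝ) ≤ L4 * m0 * bet (Fintype.card V) t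

/-- (S-c) the sample space -/
abbrev Om (GP : Finset (V × V)) (QQ : V × V → Finset (List V)) (N : ℕ) : Type :=
  Σ p : {p // p ∈ GP}, (Fin N → {Q // Q ∈ QQ p.1})

variable {GP : Finset (V × V)} {QQ : V × V → Finset (List V)} {N : ℕ}

/-- the path number `i` -/
def pth (ω : Om GP QQ N) (i : Fin N) : List V := (ω.2 i).1

/-- the middle edge of the path number `i` -/
noncomputable def ee (ω : Om GP QQ N) (i : Fin N) : Sym2 V := mid ω.1.1.1 (pth ω i)

/-- (S-d) separation of two paths -/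
def Sep (G : SimpleGraph V) (Q Q' : List V) : Prop :=
  ∀ t1 t2 u v, Q[t1]? = some u → Q'[t2]? = some v →
    (R2 (Fintype.card V) ≤ t1 ∧ t1 + R2 (Fintype.card V) ≤ LL (Fintype.card V) ∨
      R2 (Fintype.card V) ≤ t2 ∧ t2 + R2 (Fintype.card V) ≤ LL (Fintype.card V)) →
    rn (Fintype.card V) < G.dist u v

/-- (S-d) the event `Ω₀` -/
noncomputable def Om0 (G : SimpleGraph V) (GP : Finset (V × V)) (QQ : V × V → Finset (List V))
    (N : ℕ) : Finset (Om GP QQ N) :=
  univ.filter fun ω => ∀ i j, i ≠ j → Sep G (pth ω i) (pth ω j)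

/-- the law of `C_{i0 i1}` (for fixed indices `i0 ≠ i1`) -/
noncomputable def mu (G : SimpleGraph V) (GP : Finset (V × V)) (QQ : V × V → Finset (List V))
    (i0 i1 : Fin N) (D : Finset (Sym2 V)) : ℝ :=
  (((Om0 G GP QQ N).filter fun ω => cc (pth ω i0) (pth ω i1) = D).card : ℝ) /
    Fintype.card (Om GP QQ N)

/-- the set of the good circuits -/
noncomputable def GGs (G : SimpleGraph V) : Finset (Finset (Sym2 V)) :=
  univ.filter fun D => GoodCirc G (LL (Fintype.card V)) (rr (Fintype.card V)) D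

end Pool.Agent.Lib.MP_fce888_co.S
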