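import Pool.Agent.Lib.MP_fce888_co.S.StmFG

set_option autoImplicit false

/-!
# MP_fce888_co, [SF seg]: number of paths with prescribed segment
-/

namespace Pool.Agent.Lib.MP_fce888_co.S

open Finset Pool.Agent.Lib.MP_fce888_co
open scoped Classical

section aux_seg

variable {V : Type} [Fintype V]

lemma seg_mem_lists (k : ℕ) (l : List V) : l ∈ lists V k ↔ l.length = k := by
  unfold lists
  simp only [Finset.mem_image, Finset.mem_univ, true_and]
  constructor
  · rintro ⟨f, rfl⟩
    simp
  · intro h
    subst h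
    exact ⟨fun i => l.get i, List.ofFn_get l⟩

lemma seg_mem_paths (G : SimpleGraph V) (t : ℕ) (l : List V) :
    l ∈ paths G t ↔ l.length = t + 1 ∧ l.Nodup ∧ l.IsChain G.Adj := by
  unfold paths
  rw [Finset.mem_filter, seg_mem_lists]
  unfold IsPL
  constructor
  · rintro ⟨h1, -, h2, h3⟩
    exact ⟨h1, h2, h3⟩
  · rintro ⟨h1, h2, h3⟩
    refine ⟨h1, ?_, h2, h3⟩
    intro h
    rw [h] at h1
    simp at h1

lemma seg_take (G : SimpleGraph V) (L t : ℕ) (ht : t ≤ L) (Q : List V) (hQ : Q ∈ paths G L) :
    Q.take (t + 1) ∈ paths G t := by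
  rw [seg_mem_paths] at hQ ⊢
  obtain ⟨h1, h2, h3⟩ := hQ
  refine ⟨?_, h2.sublist (List.take_sublist _ _), h3.take _⟩
  rw [List.length_take, h1]
  omega

lemma seg_drop (G : SimpleGraph V) (L t : ℕ) (ht : t ≤ L) (Q : List V) (hQ : Q ∈ paths G L) :
    Q.drop t ∈ paths G (L - t) := by
  rw [seg_mem_paths] at hQ ⊢
  obtain ⟨h1, h2, h3⟩ := hQ
  refine ⟨?_, h2.sublist (List.drop_sublist _ _), h3.drop _⟩
  rw [List.length_drop, h1]
  omega

omit [Fintype V] in
lemma seg_take_last (L t : ℕ) (ht : t ≤ L) (Q : List V) (hQ : Q.length = L + 1) :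
    (Q.take (t + 1)).getLast? = Q[t]? := by
  rw [List.getLast?_eq_getElem?, List.length_take, hQ, Nat.min_eq_left (by omega)]
  simp

end aux_seg

theorem p_seg : S_head → S_last → S_seg := by
  intro hhead hlast V _ G hcub L t1 t2 Q0 h12 h2L
  set S : Finset (List V) :=
    (paths G L).filter fun Q => ∀ t, t1 ≤ t → t ≤ t2 → Q[t]? = Q0[t]? with hS
  rcases S.eq_empty_or_nonempty with hemp | ⟨Q1, hQ1⟩
  · rw [hemp]
    simp
  · have hQ1' := hQ1
    rw [hS, Finset.mem_filter] at hQ1'
    obtain ⟨hQ1p, hQ1s⟩ := hQ1'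
    have hlen1 : Q1.length = L + 1 := ((seg_mem_paths G L Q1).1 hQ1p).1
    have hu : Q1[t1]? = some (Q1[t1]'(by omega)) := List.getElem?_eq_getElem (by omega)
    have hv : Q1[t2]? = some (Q1[t2]'(by omega)) := List.getElem?_eq_getElem (by omega)
    set u := Q1[t1]'(by omega) with hudef
    set v := Q1[t2]'(by omega) with hvdef
    have hcard : S.card ≤
        (((paths G t1).filter fun Q => Q.getLast? = some u) ×ˢ
          ((paths G (L - t2)).filter fun Q => Q.head? = some v)).card := by
      apply Finset.card_le_card_of_injOn (fun Q => (Q.take (t1 + 1), Q.drop t2))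
      · intro Q hQ
        rw [Finset.mem_coe, hS, Finset.mem_filter] at hQ
        obtain ⟨hQp, hQs⟩ := hQ
        have hlen : Q.length = L + 1 := ((seg_mem_paths G L Q).1 hQp).1
        rw [Finset.mem_coe, Finset.mem_product, Finset.mem_filter, Finset.mem_filter]
        refine ⟨⟨seg_take G L t1 (by omega) Q hQp, ?_⟩, seg_drop G L t2 h2L Q hQp, ?_⟩
        · show (Q.take (t1 + 1)).getLast? = some u
          rw [seg_take_last L t1 (by omega) Q hlen, hQs t1 le_rfl h12, ← hQ1s t1 le_rfl h12, hu]
        · show (Q.drop t2).head? = some v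
          rw [List.head?_drop, hQs t2 h12 le_rfl, ← hQ1s t2 h12 le_rfl, hv]
      · intro Q hQ Q' hQ' hEq
        rw [Finset.mem_coe, hS, Finset.mem_filter] at hQ hQ'
        obtain ⟨hQp, hQs⟩ := hQ
        obtain ⟨hQp', hQs'⟩ := hQ'
        simp only [Prod.mk.injEq] at hEq
        obtain ⟨he1, he2⟩ := hEq
        apply List.ext_getElem?
        intro i
        rcases Nat.lt_or_ge i (t1 + 1) with hi | hi
        · have := congrArg (fun l : List V => l[i]?) he1
          simpa [List.getElem?_take, hi] using this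
        · rcases Nat.lt_or_ge i t2 with hi2 | hi2
          · rw [hQs i (by omega) (by omega), hQs' i (by omega) (by omega)]
          · have := congrArg (fun l : List V => l[i - t2]?) he2
            simp only [List.getElem?_drop] at this
            rwa [Nat.add_sub_cancel' hi2] at this
    calc S.card ≤ _ := hcard
      _ = ((paths G t1).filter fun Q => Q.getLast? = some u).card *
          ((paths G (L - t2)).filter fun Q => Q.head? = some v).card := Finset.card_product _ _
      _ ≤ 2 ^ (t1 + 1) * 2 ^ (L - t2 + 1) :=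
          Nat.mul_le_mul (hlast V G hcub t1 u) (hhead V G hcub (L - t2) v)

end Pool.Agent.Lib.MP_fce888_co.S
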