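import Pool.Agent.Lib.MP_fce888_co.S.Defs

set_option autoImplicit false

/-!
# MP_fce888_co, section S-f, S-g: sub-statements (owner helper85)

Every piece `[SF xxx]` is a theorem `p_xxx : S_xxx` (or `p_xxx : S_yyy → S_xxx` if the docstring says
which other statements may be used) in its own file `Pool/Agent/Lib/MP_fce888_co/S/P_xxx.lean`,
namespace `Pool.Agent.Lib.MP_fce888_co.S`.
-/

namespace Pool.Agent.Lib.MP_fce888_co.S

open Finset Pool.Agent.Lib.MP_fce888_co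
open scoped Classical

/-! ## Counting paths -/

/-- [SF head] (helper15's Basics) at most `2^(t+1)` paths of length `t` start at `v`:
3 choices for the first step, at most 2 for each of the following (the previous vertex is
excluded), `3 * 2^(t-1) ≤ 2^(t+1)`, and `1 ≤ 2` for `t = 0`. -/
def S_head : Prop := ∀ (V : Type) [Fintype V] (G : SimpleGraph V),
  (∀ v, (G.neighborSet v).ncard = 3) → ∀ (t : ℕ) (v : V),
    ((paths G t).filter fun Q => Q.head? = some v).card ≤ 2 ^ (t + 1)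

/-- [SF last] the same for the last vertex (from `S_head`, by `List.reverse`). -/
def S_last : Prop := ∀ (V : Type) [Fintype V] (G : SimpleGraph V),
  (∀ v, (G.neighborSet v).ncard = 3) → ∀ (t : ℕ) (v : V),
    ((paths G t).filter fun Q => Q.getLast? = some v).card ≤ 2 ^ (t + 1)

/-- [SF seg] (from `S_head`, `S_last`) paths of length `L` with prescribed segment `[t1, t2]`.
Proof: the map `Q ↦ (Q.take (t1+1), Q.drop t2)` is injective on this set (the positions between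
`t1` and `t2` are those of `Q0`), and goes to
(paths of length `t1` with last vertex `Q0[t1]`) × (paths of length `L - t2` with first vertex
`Q0[t2]`).  (If `Q0[t1]? = none` the set is empty.) -/
def S_seg : Prop := ∀ (V : Type) [Fintype V] (G : SimpleGraph V),
  (∀ v, (G.neighborSet v).ncard = 3) → ∀ (L t1 t2 : ℕ) (Q0 : List V), t1 ≤ t2 → t2 ≤ L →
    ((paths G L).filter fun Q => ∀ t, t1 ≤ t → t ≤ t2 → Q[t]? = Q0[t]?).card ≤
      2 ^ (t1 + 1) * 2 ^ (L - t2 + 1)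

/-- [SF two] (from `S_head`, `S_last`, `S_seg`) paths of length `L` with unique path property at all
their vertices, passing through `u` at position `t1` and through `v` at position `t2`.
Proof: put `l = t2 - t1`; let the set be nonempty.
* `l ≤ R`: for two members `Q, Q'` the segments `[t1,t2]` are paths of length `l ≤ R` from `u` to
  `v`, equal by `UP u`; so with `Q0` a member, `S_seg` gives `card ≤ 2^(t1+1) 2^(L-t2+1)
  = 4 * 2^(L-l)`.  A geodesic from `u` to `v` (exists, `Q0` connects them) is a path of length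
  `dist u v ≤ l ≤ R`, hence equal to the segment, so `dist u v = l`, `min (dist) R = l`.
* `l > R`: the map `Q ↦ (Q.take (t2-R+1), Q.drop t2)` is injective on the set: the vertices at the
  positions `t2-R` agree (they are in the first part), and then the segments `[t2-R, t2]` are two
  paths of length `R` with the same ends, equal by UP.  The image lies in
  {paths of length `t2-R` with vertex number `t1` equal to `u`} (at most
  `2^(t1+1) 2^(t2-R-t1+1)` by `S_seg` with `L := t2-R`, `t1 = t2 := t1`, `Q0 :=` any member)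
  × {paths of length `L-t2` starting in `v`} (at most `2^(L-t2+1)`), the product is
  `8 * 2^(L-R)`; and `min (dist) R ≤ R`. -/
def S_two : Prop := ∀ (V : Type) [Fintype V] (G : SimpleGraph V),
  (∀ v, (G.neighborSet v).ncard = 3) → ∀ (L R t1 t2 : ℕ) (u v : V), t1 ≤ t2 → t2 ≤ L →
    ((paths G L).filter fun Q => (∀ x ∈ Q, UP G R x) ∧ Q[t1]? = some u ∧ Q[t2]? = some v).card *
      2 ^ (min (G.dist u v) R) ≤ 8 * 2 ^ L

/-! ## law2 -/

/-- [SF coin] two paths with a common edge at the positions `h, h+1` and a common vertex near `h`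
coincide between `h` and this vertex.
Proof: cases.  `s, s' ≥ h`: `(Q.drop h).take (s-h+1)` and `(Q'.drop h).take (s'-h+1)` are paths of
length `≤ R` from `x = Q[h]` with the same end, equal by `UP x`.  `s, s' < h`: the same with the
reversed pieces `[s, h]`.  `s = h`, `s' < h` (or conversely) impossible since `Q'` has no repetition.
`s > h`, `s' < h`: the path from `x` along `Q` has second vertex `Q[h+1]`, the one along `Q'` backwards
has second vertex `Q'[h-1]`, they are equal by `UP x`, so `Q'[h-1] = Q'[h+1]`, impossible. -/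
def S_coin : Prop := ∀ (V : Type) [Fintype V] (G : SimpleGraph V) (L R h s s' : ℕ) (Q Q' : List V),
  Q ∈ paths G L → Q' ∈ paths G L → (∀ x ∈ Q, UP G R x) → h + 1 ≤ L → Q[h]? = Q'[h]? →
  Q[h + 1]? = Q'[h + 1]? → s ≤ L → Q[s]? = Q'[s']? → s ≤ h + R → h ≤ s + R → s' ≤ h + R →
  h ≤ s' + R → s = s' ∧ ∀ t, min h s ≤ t → t ≤ max h s → Q[t]? = Q'[t]?

/-- [SF cnt] (from `S_seg`, `S_coin`).  `n = card V`, `h = LL n / 2`, `L = LL n`.
Proof: let `Q0` be a member (else trivial) and `A := {t ≤ L-1 | s(Q0[t], Q0[t+1]) ∈ κ}`; `h ∈ A`;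
`t1 := min A`, `t2 := max A + 1`; `κ.card ≤ A.card ≤ t2 - t1` (every `g ∈ κ ⊆ eds Q0` is
`s(Q0[t], Q0[t+1])` for some `t ∈ A`).  A vertex `w = Q0[t]` of an edge `g ∈ κ` has
`dist w x ≤ r ≤ rn`, so `|t - h| ≤ R1 ≤ R0` by `Good.sep` (and `G.dist_comm`).  For another member
`Q`, `g ∈ eds Q`, so `w = Q[t']` with `|t' - h| ≤ R1` too; by `S_coin` `t' = t` and `Q = Q0` between
`h` and `t`.  Apply this to the vertices number `t1` and `t2` of `Q0`: all members agree with `Q0`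
on `[t1, t2]` (`t1 ≤ h < h+1 ≤ t2`).  By `S_seg` the number of members is
`≤ 2^(t1+1) 2^(L-t2+1) = 4 * 2^(L-(t2-t1))`. -/
def S_cnt : Prop := ∀ (V : Type) [Fintype V] (G : SimpleGraph V),
  (∀ v, (G.neighborSet v).ncard = 3) → ∀ (r : ℕ) (x y : V) (κ : Finset (Sym2 V)),
    r ≤ rn (Fintype.card V) → 1 ≤ lam (Fintype.card V) → s(x, y) ∈ κ →
    (∀ g ∈ κ, ∀ u ∈ g, ∀ v ∈ s(x, y), G.dist u v ≤ r) →
    ((paths G (LL (Fintype.card V))).filter fun Q => Good G Q ∧
        Q[LL (Fintype.card V) / 2]? = some x ∧ Q[LL (Fintype.card V) / 2 + 1]? = some y ∧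
        κ ⊆ eds Q).card * 2 ^ κ.card ≤ 4 * 2 ^ LL (Fintype.card V)

/-- [SF law2] (from `S_cnt` and `prob1` of `S/Prob.lean`).
Proof: `AA := {Q good | Q[h], Q[h+1] = x, y or y, x, κ ⊆ eds Q}` with `e₀ = s(x,y)`,
`AA.card * 2^κ.card ≤ 8 * 2^L` (`S_cnt` twice), and
`#{ω | pth ω i ∈ AA} * (GP.card * m0) ≤ AA.card * card Om` with
`GP.card * m0 ≥ c n^2 * 2^L/(8n) = (c/8) n 2^L`.
(`mid (pth ω i) = e₀` gives the two cases since `pth ω i` has length `L+1`.) -/
def S_law2 : Prop := ∀ (V : Type) [Fintype V] (G : SimpleGraph V) (c L4 : ℝ)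
  (GP : Finset (V × V)) (QQ : V × V → Finset (List V)) (m0 N : ℕ),
  (∀ v, (G.neighborSet v).ncard = 3) → 0 < c → 1 ≤ lam (Fintype.card V) → Base c L4 G GP QQ m0 →
  ∀ (i : Fin N) (e₀ : Sym2 V) (κ : Finset (Sym2 V)), e₀ ∈ κ →
    (∀ g ∈ κ, ∀ u ∈ g, ∀ v ∈ e₀, G.dist u v ≤ rr (Fintype.card V)) →
    (((Om0 G GP QQ N).filter fun ω => ee ω i = e₀ ∧ κ ⊆ eds (pth ω i)).card : ℝ) ≤
      64 / c * (1 / 2) ^ κ.card / Fintype.card V * Fintype.card (Om GP QQ N)

/-! ## lawM -/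

/-- the proportion of the paths in `QQ p` which pass through `v` at position `t` -/
noncomputable def al {V : Type} [Fintype V] (QQ : V × V → Finset (List V)) (m0 : ℕ) (p : V × V)
    (t : ℕ) (v : V) : ℝ := (((QQ p).filter fun Q => Q[t]? = some v).card : ℝ) / m0

/-- [SF suma] (from `S_seg`): `∑_p al p t u ≤ 32 n`.
Proof: the sets `QQ p`, `p ∈ GP`, are pairwise disjoint (`head`, `last`), so
`∑_p #{Q ∈ QQ p | Q[t] = u} ≤ #{Q ∈ paths G L | Q[t] = u} ≤ 2^(t+1) 2^(L-t+1) = 4 * 2^L`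
(`S_seg` with `t1 = t2 = t`; empty if `t > L`), and `m0 ≥ 2^L/(8n)`. -/
def S_suma : Prop := ∀ (V : Type) [Fintype V] (G : SimpleGraph V) (c L4 : ℝ)
  (GP : Finset (V × V)) (QQ : V × V → Finset (List V)) (m0 : ℕ),
  (∀ v, (G.neighborSet v).ncard = 3) → Base c L4 G GP QQ m0 →
  ∀ (t : ℕ) (u : V), ∑ p ∈ GP, al QQ m0 p t u ≤ 32 * Fintype.card V

/-- [SF cntA] (from `S_last`) the number of the possible starting points, and [SF cntB] (from
`S_head`) the number of possible end points, of the paths through `u` at position `t`.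
Proof: `Q.take (t+1)` is a path of length `t` with last vertex `u` and first vertex `a`;
`Q.drop t` is a path of length `L-t` with first vertex `u` and last vertex `b`.  Also the
distances: `dist a u ≤ t` and `dist u b ≤ L - t`. -/
def S_cntA : Prop := ∀ (V : Type) [Fintype V] (G : SimpleGraph V) (c L4 : ℝ)
  (GP : Finset (V × V)) (QQ : V × V → Finset (List V)) (m0 : ℕ),
  (∀ v, (G.neighborSet v).ncard = 3) → Base c L4 G GP QQ m0 → ∀ (t : ℕ) (u : V),
    t ≤ LL (Fintype.card V) →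
    ((univ : Finset V).filter fun a => ∃ b, (a, b) ∈ GP ∧ al QQ m0 (a, b) t u ≠ 0).card ≤
      2 ^ (t + 1) ∧
    ((univ : Finset V).filter fun b => ∃ a, (a, b) ∈ GP ∧ al QQ m0 (a, b) t u ≠ 0).card ≤
      2 ^ (LL (Fintype.card V) - t + 1) ∧
    ∀ p ∈ GP, al QQ m0 p t u ≠ 0 → G.dist p.1 u ≤ t ∧ G.dist u p.2 ≤ LL (Fintype.card V) - t

/-- [SF pair] (from `S_suma`, `S_cntA`).  `n = card V`, `r = rr n`, `L = LL n`.
Proof: `0 ≤ al p t v ≤ L4 * bet t` for `t ≤ L` (`flat`, divide by `m0 > 0`; `al = 0` if `t > L`),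
`|GP| ≥ c n^2`, `2^r ≤ 2^LAM ≤ n`.
* `r ≤ t2 ≤ L-r`: `bet t2 ≤ 3 * 2^{-r}`, so the sum is
  `≤ 3 L4 2^{-r} * 32 n ≤ (96/c) L4^2 2^{-r}/n |GP|`.  The same for `r ≤ t1 ≤ L-r`.
* `t1, t2 < r`: `bet t ≤ 3 * 2^{-t}`.  The `p = (a,b)` with nonzero term have
  `a` in a set of size `≤ 2^(min t1 t2 + 1)` (`S_cntA`), so there are `≤ n 2^(min+1)` of them, and
  each term is `≤ 9 L4^2 2^{-t1-t2}`: the sum is `≤ 18 n L4^2 2^{-max t1 t2}
  ≤ (18/c) L4^2 2^{-max}/n |GP|`, and if there is such a `p`, `dist u v ≤ t1 + t2 ≤ 2 max`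
  (`G` connected), so `min (dist u v) r / 2 ≤ max`.
* `t1, t2 > L-r`: the same with the end points `b` and `L - t_i` instead of `t_i`.
* `t1 < r`, `t2 > L-r`: `a` in a set of size `≤ 2^(t1+1)`, `b` in a set of size `≤ 2^(L-t2+1)`, each
  term `≤ 9 L4^2 2^{-t1-(L-t2)}`: the sum is `≤ 36 L4^2 ≤ (36/c) L4^2/n^2 |GP|` and
  `1/n ≤ 2^{-r}`.  The same for `t2 < r`, `t1 > L-r`. -/
def S_pair : Prop := ∀ (V : Type) [Fintype V] (G : SimpleGraph V) (c L4 : ℝ)
  (GP : Finset (V × V)) (QQ : V × V → Finset (List V)) (m0 : ℕ),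
  (∀ v, (G.neighborSet v).ncard = 3) → G.Connected → 0 < c → 1 ≤ L4 → 0 < m0 →
  Base c L4 G GP QQ m0 → ∀ (t1 t2 : ℕ) (u v : V),
    ∑ p ∈ GP, al QQ m0 p t1 u * al QQ m0 p t2 v ≤
      96 / c * L4 ^ 2 * (1 / 2) ^ (min (G.dist u v) (rr (Fintype.card V)) / 2) / Fintype.card V *
        GP.card

/-- [SF same] (from `S_two` and `prob1`): the same path.
Proof: for `t1 ≤ t2` use `S_two` with `R = R0`, for `t2 ≤ t1` the same with `u, v` exchanged
(`G.dist_comm`); `AA := {Q good | Q[t1] = u, Q[t2] = v}`, `AA.card ≤ 8 * 2^L / 2^(min dist R0)`,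
`#{ω | pth ω i ∈ AA} * (GP.card * m0) ≤ AA.card * card Om`, `GP.card * m0 ≥ (c/8) n 2^L`,
`rr ≤ R0`. (`AA` empty if `t1 > L` or `t2 > L`.) -/
def S_same : Prop := ∀ (V : Type) [Fintype V] (G : SimpleGraph V) (c L4 : ℝ)
  (GP : Finset (V × V)) (QQ : V × V → Finset (List V)) (m0 N : ℕ),
  (∀ v, (G.neighborSet v).ncard = 3) → 0 < c → Base c L4 G GP QQ m0 →
  ∀ (i : Fin N) (t1 t2 : ℕ) (u v : V),
    (((univ : Finset (Om GP QQ N)).filter fun ω =>
        (pth ω i)[t1]? = some u ∧ (pth ω i)[t2]? = some v).card : ℝ) ≤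
      64 / c * (1 / 2) ^ (min (G.dist u v) (rr (Fintype.card V)) / 2) / Fintype.card V *
        Fintype.card (Om GP QQ N)

/-- [SF lawM] (from `S_same`, `S_pair` and `prob2` of `S/Prob.lean`).
Proof: if `D = cc (pth ω i0) (pth ω i1)` and `u, v ∈ vs D`, then each of `u`, `v` is a vertex of
`pth ω i0` or of `pth ω i1`, at a position `≤ L`.  Hence
`∑_{D ∈ GGs, u,v ∈ vs D} mu D * card Om ≤ #{ω | u and v ∈ pth ω i0 or pth ω i1}
 ≤ ∑_{(a,b) ∈ {i0,i1}^2} ∑_{t1,t2 ≤ L} #{ω | (pth ω a)[t1] = u, (pth ω b)[t2] = v}`; for `a = b` use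
`S_same`, for `a ≠ b` use `prob2` and `S_pair`: every term is
`≤ 96/c * L4^2 * (1/2)^(min dist r / 2)/n * card Om`, and there are `4 (L+1)^2` terms. -/
def S_lawM : Prop := ∀ (V : Type) [Fintype V] (G : SimpleGraph V) (c L4 : ℝ)
  (GP : Finset (V × V)) (QQ : V × V → Finset (List V)) (m0 N : ℕ),
  (∀ v, (G.neighborSet v).ncard = 3) → G.Connected → 0 < c → 1 ≤ L4 → 0 < m0 →
  0 < Fintype.card (Om GP QQ N) →
  Base c L4 G GP QQ m0 → ∀ (i0 i1 : Fin N), i0 ≠ i1 → ∀ (u v : V),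
    ∑ D ∈ (GGs G).filter (fun D => u ∈ vs D ∧ v ∈ vs D), mu G GP QQ i0 i1 D ≤
      (4 * (LL (Fintype.card V) + 1) ^ 2 * (96 / c * L4 ^ 2)) *
        (1 / 2) ^ (min (G.dist u v) (rr (Fintype.card V)) / 2) / Fintype.card V

/-! ## law1 -/

/-- [SF perm] the law of `cc (pth ω i) (pth ω k)` on `Om0` does not depend on the pair `i ≠ k`.
Proof: choose a permutation `σ` of `Fin N` with `σ i0 = i`, `σ i1 = k` (e.g.
`Equiv.swap i0 i` followed by a second swap, or `Equiv.Perm` extension of a bijection);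
`ω ↦ ⟨ω.1, ω.2 ∘ σ⟩` is a bijection of `Om` which preserves `Om0` and
`pth ⟨ω.1, ω.2 ∘ σ⟩ i0 = pth ω i` etc. -/
def S_perm : Prop := ∀ (V : Type) [Fintype V] (G : SimpleGraph V)
  (GP : Finset (V × V)) (QQ : V × V → Finset (List V)) (N : ℕ) (i0 i1 i k : Fin N),
  i0 ≠ i1 → i ≠ k → ∀ A : Finset (Sym2 V) → Prop,
    ((Om0 G GP QQ N).filter fun ω => A (cc (pth ω i) (pth ω k))).card =
      ((Om0 G GP QQ N).filter fun ω => A (cc (pth ω i0) (pth ω i1))).card

/-- [SF law1] (from `S_perm`), and the elementary properties of `mu`.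
Proof: `∑_{D ∈ DD} #{ω ∈ Om0 | cc = D} = #{ω ∈ Om0 | cc ∈ DD}` (disjoint), for the total mass
`≤ #Om0 / #Om ≤ 1`. -/
def S_law1 : Prop := ∀ (V : Type) [Fintype V] (G : SimpleGraph V)
  (GP : Finset (V × V)) (QQ : V × V → Finset (List V)) (N : ℕ) (i0 i1 : Fin N),
  i0 ≠ i1 → 0 < Fintype.card (Om GP QQ N) →
    (∀ i k : Fin N, i ≠ k → ∀ DD : Finset (Finset (Sym2 V)),
      (((Om0 G GP QQ N).filter fun ω => cc (pth ω i) (pth ω k) ∈ DD).card : ℝ) ≤
        (∑ D ∈ DD, mu G GP QQ i0 i1 D) * Fintype.card (Om GP QQ N)) ∧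
    (∀ D, 0 ≤ mu G GP QQ i0 i1 D) ∧
    (∑ D ∈ GGs G, mu G GP QQ i0 i1 D ≤ 1) ∧
    ((∀ ω ∈ Om0 G GP QQ N, cc (pth ω i0) (pth ω i1) ∈ GGs G) →
      ∀ D, D ∉ GGs G → mu G GP QQ i0 i1 D = 0)

end Pool.Agent.Lib.MP_fce888_co.S
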